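import Pool.Agent.Q217.PR.Str

/-! The projections can be computed approximately. -/

set_option autoImplicit false

namespace Q217.PR

open Pool.Agent.Helper227

/-- integer approximations of the iterated square roots -/
def rr (M : ℕ) : ℕ → ℕ
  | 0 => 0
  | n + 1 => Nat.sqrt (M * (2 * M + rr M n))

theorem rr_le (M n : ℕ) : rr M n ≤ 2 * M := by
  induction n with
  | zero => simp [rr]
  | succ n ih =>
    unfold rr
    have h1 : M * (2 * M + rr M n) ≤ (2 * M) * (2 * M) := by nlinarith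
    have h2 := Nat.sqrt_le_sqrt h1
    rwa [Nat.sqrt_eq] at h2

theorem natsqrt_near (A : ℕ) {M : ℝ} (hM : 0 < M) {x : ℝ} (h : (A : ℝ) = M ^ 2 * x) :
    |(Nat.sqrt A : ℝ) / M - √x| ≤ 1 / M := by
  have h1 : √(A : ℝ) = M * √x := by
    rw [h, Real.sqrt_mul (by positivity), Real.sqrt_sq hM.le]
  have h2 := Real.nat_sqrt_le_real_sqrt (a := A)
  have h3 := Real.real_sqrt_le_nat_sqrt_succ (a := A)
  rw [h1] at h2 h3
  rw [abs_le]
  constructor
  · have : √x ≤ ((Nat.sqrt A : ℝ) + 1) / M := by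
      rw [le_div_iff₀ hM]; linarith
    rw [add_div] at this
    linarith
  · have : (Nat.sqrt A : ℝ) / M ≤ √x := by
      rw [div_le_iff₀ hM]; linarith
    have h5 : 0 ≤ 1 / M := by positivity
    linarith

theorem rr_spec {M : ℕ} (hM : 0 < M) (n : ℕ) :
    |(rr M n : ℝ) / M - Real.sqrtTwoAddSeries 0 n| ≤ 2 / M := by
  have hMR : (0 : ℝ) < M := by exact_mod_cast hM
  induction n with
  | zero =>
    simp only [rr, Real.sqrtTwoAddSeries_zero, Nat.cast_zero, zero_div, sub_zero, abs_zero]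
    positivity
  | succ n ih =>
    have hx : 0 ≤ (rr M n : ℝ) / M := by positivity
    have hs := Real.sqrtTwoAddSeries_zero_nonneg n
    have h1 := natsqrt_near (M * (2 * M + rr M n)) hMR (x := 2 + (rr M n : ℝ) / M) (by
      push_cast
      field_simp)
    have h2 : |√(2 + (rr M n : ℝ) / M) - √(2 + Real.sqrtTwoAddSeries 0 n)| ≤ 1 / M := by
      set u := √(2 + (rr M n : ℝ) / M) with hu
      set v := √(2 + Real.sqrtTwoAddSeries 0 n) with hv
      have hu2 : u ^ 2 = 2 + (rr M n : ℝ) / M := Real.sq_sqrt (by linarith)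
      have hv2 : v ^ 2 = 2 + Real.sqrtTwoAddSeries 0 n := Real.sq_sqrt (by linarith)
      have hu1 : 1 ≤ u := by
        rw [hu]; exact Real.one_le_sqrt.2 (by linarith)
      have hv1 : 1 ≤ v := by
        rw [hv]; exact Real.one_le_sqrt.2 (by linarith)
      have h3 : |u - v| * (u + v) ≤ 2 / M := by
        rw [← abs_of_pos (by linarith : 0 < u + v), ← abs_mul]
        have : (u - v) * (u + v) = (rr M n : ℝ) / M - Real.sqrtTwoAddSeries 0 n := by
          have : (u - v) * (u + v) = u ^ 2 - v ^ 2 := by ring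
          rw [this, hu2, hv2]; ring
        rw [this]; exact ih
      have h4 : |u - v| * 2 ≤ |u - v| * (u + v) := by
        apply mul_le_mul_of_nonneg_left _ (abs_nonneg _)
        linarith
      have h5 : (2 : ℝ) / M = 2 * (1 / M) := by ring
      linarith
    unfold rr Real.sqrtTwoAddSeries
    have h3 := abs_add_le ((Nat.sqrt (M * (2 * M + rr M n)) : ℝ) / M - √(2 + (rr M n : ℝ) / M))
      (√(2 + (rr M n : ℝ) / M) - √(2 + Real.sqrtTwoAddSeries 0 n))
    have h4 : (2 : ℝ) / M = 1 / M + 1 / M := by ring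
    rw [h4]
    refine le_trans (le_of_eq ?_) (h3.trans (add_le_add h1 h2))
    congr 1
    ring

/-- integer approximation of the sine -/
def qq (M n : ℕ) : ℕ := Nat.sqrt (2 * M * (2 * M) - rr M n * rr M n)

theorem abs_sqrt_sub {a b : ℝ} (ha : 0 ≤ a) (hb : 0 ≤ b) : |√a - √b| ≤ √|a - b| := by
  have h1 : ∀ {a b : ℝ}, 0 ≤ a → 0 ≤ b → √a ≤ √b + √|a - b| := by
    intro a b ha hb
    rw [Real.sqrt_le_left (by positivity)]
    have e1 := Real.sq_sqrt hb
    have e2 := Real.sq_sqrt (abs_nonneg (a - b))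
    have e3 := le_abs_self (a - b)
    nlinarith [mul_nonneg (Real.sqrt_nonneg b) (Real.sqrt_nonneg |a - b|)]
  rw [abs_le]
  constructor
  · have := h1 hb ha
    rw [abs_sub_comm] at this
    linarith
  · have := h1 ha hb
    linarith

theorem qq_spec {M : ℕ} (hM : 0 < M) (n : ℕ) :
    |(qq M n : ℝ) / M - √(4 - (Real.sqrtTwoAddSeries 0 n) ^ 2)| ≤ 1 / M + √(8 / M) := by
  have hMR : (0 : ℝ) < M := by exact_mod_cast hM
  have hs := Real.sqrtTwoAddSeries_zero_nonneg n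
  have hs2 := (Real.sqrtTwoAddSeries_lt_two n).le
  have hr := rr_le M n
  have hx0 : 0 ≤ (rr M n : ℝ) / M := by positivity
  have hx2 : (rr M n : ℝ) / M ≤ 2 := by
    rw [div_le_iff₀ hMR]; exact_mod_cast hr
  have hsub : rr M n * rr M n ≤ 2 * M * (2 * M) := Nat.mul_le_mul hr hr
  have h1 := natsqrt_near (2 * M * (2 * M) - rr M n * rr M n) hMR
    (x := 4 - ((rr M n : ℝ) / M) ^ 2) (by
      rw [Nat.cast_sub hsub]
      push_cast
      field_simp
      ring)
  have hA : 0 ≤ 4 - ((rr M n : ℝ) / M) ^ 2 := by nlinarith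
  have hB : 0 ≤ 4 - (Real.sqrtTwoAddSeries 0 n) ^ 2 := by nlinarith
  have h2 := abs_sqrt_sub hA hB
  have h3 : |(4 - ((rr M n : ℝ) / M) ^ 2) - (4 - (Real.sqrtTwoAddSeries 0 n) ^ 2)| ≤ (8 : ℝ) / M := by
    have e : (4 - ((rr M n : ℝ) / M) ^ 2) - (4 - (Real.sqrtTwoAddSeries 0 n) ^ 2) =
        -(((rr M n : ℝ) / M - Real.sqrtTwoAddSeries 0 n) *
          ((rr M n : ℝ) / M + Real.sqrtTwoAddSeries 0 n)) := by ring
    rw [e, abs_neg, abs_mul, abs_of_nonneg (by linarith :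
      0 ≤ (rr M n : ℝ) / M + Real.sqrtTwoAddSeries 0 n)]
    have h4 := rr_spec hM n
    have h5 : (8 : ℝ) / M = (2 / M) * 4 := by ring
    rw [h5]
    exact mul_le_mul h4 (by linarith) (by linarith) (by positivity)
  have h4 := Real.sqrt_le_sqrt h3
  have h5 := abs_add_le ((qq M n : ℝ) / M - √(4 - ((rr M n : ℝ) / M) ^ 2))
    (√(4 - ((rr M n : ℝ) / M) ^ 2) - √(4 - (Real.sqrtTwoAddSeries 0 n) ^ 2))
  have e : (qq M n : ℝ) / M - √(4 - ((rr M n : ℝ) / M) ^ 2) +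
    (√(4 - ((rr M n : ℝ) / M) ^ 2) - √(4 - (Real.sqrtTwoAddSeries 0 n) ^ 2)) =
    (qq M n : ℝ) / M - √(4 - (Real.sqrtTwoAddSeries 0 n) ^ 2) := by ring
  rw [e] at h5
  exact h5.trans (add_le_add h1 (h2.trans h4))

/-- the scale -/
def Ms (l : ℕ) : ℕ := 2 ^ (4 * l + 9)

theorem Ms_pos (l : ℕ) : 0 < Ms l := by unfold Ms; positivity

/-- the approximation of `exp (2 π i / 2 ^ (l + 2))` -/
noncomputable def zz (l : ℕ) : ℂ :=
  ⟨(rr (Ms l) l : ℝ) / (2 * Ms l), (qq (Ms l) l : ℝ) / (2 * Ms l)⟩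

/-- the point of the unit circle of argument `2 π t` -/
noncomputable def ee (t : ℝ) : ℂ := ⟨Real.cos (2 * Real.pi * t), Real.sin (2 * Real.pi * t)⟩

theorem ee_eq (t : ℝ) : ee t = Complex.exp ((2 * Real.pi * t : ℝ) * Complex.I) := by
  apply Complex.ext
  · rw [Complex.exp_ofReal_mul_I_re]; rfl
  · rw [Complex.exp_ofReal_mul_I_im]; rfl

theorem norm_ee (t : ℝ) : ‖ee t‖ = 1 := by
  rw [ee_eq, Complex.norm_exp_ofReal_mul_I]

theorem ee_pow (t : ℝ) (k : ℕ) : ee t ^ k = ee (k * t) := by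
  rw [ee_eq, ee_eq, ← Complex.exp_nat_mul]
  congr 1
  push_cast
  ring

theorem zz_near (l : ℕ) : ‖zz l - ee (1 / 2 ^ (l + 2))‖ ≤ (1 / 2) ^ (2 * l + 3) := by
  have hM := Ms_pos l
  have hMR : (0 : ℝ) < Ms l := by exact_mod_cast hM
  have h1 := rr_spec hM l
  have h2 := qq_spec hM l
  have hcos : Real.cos (2 * Real.pi * (1 / 2 ^ (l + 2))) = Real.sqrtTwoAddSeries 0 l / 2 := by
    rw [← Real.cos_pi_over_two_pow]
    congr 1
    rw [pow_succ (2 : ℝ) (l + 1)]
    field_simp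
  have hsin : Real.sin (2 * Real.pi * (1 / 2 ^ (l + 2))) =
      √(4 - (Real.sqrtTwoAddSeries 0 l) ^ 2) / 2 := by
    have e : 2 * Real.pi * (1 / 2 ^ (l + 2)) = Real.pi / 2 ^ (l + 1) := by
      rw [pow_succ (2 : ℝ) (l + 1)]
      field_simp
    rw [e]
    have h3 : 0 ≤ Real.sin (Real.pi / 2 ^ (l + 1)) := by
      apply Real.sin_nonneg_of_nonneg_of_le_pi (by positivity)
      apply div_le_self Real.pi_pos.le
      exact one_le_pow₀ (by norm_num)
    have h4 := Real.sin_sq_pi_over_two_pow l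
    have h5 : 4 - (Real.sqrtTwoAddSeries 0 l) ^ 2 = (2 * Real.sin (Real.pi / 2 ^ (l + 1))) ^ 2 := by
      rw [mul_pow, h4]; ring
    rw [h5, Real.sqrt_sq (by positivity)]
    ring
  have hre : |(zz l - ee (1 / 2 ^ (l + 2))).re| ≤ 1 / Ms l := by
    rw [Complex.sub_re]
    change |(rr (Ms l) l : ℝ) / (2 * Ms l) - Real.cos (2 * Real.pi * (1 / 2 ^ (l + 2)))| ≤ _
    rw [hcos]
    have e : (rr (Ms l) l : ℝ) / (2 * Ms l) - Real.sqrtTwoAddSeries 0 l / 2 =
        ((rr (Ms l) l : ℝ) / (Ms l) - Real.sqrtTwoAddSeries 0 l) / 2 := by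
      field_simp
    rw [e, abs_div, abs_of_pos (by norm_num : (0 : ℝ) < 2), div_le_iff₀ (by norm_num)]
    refine h1.trans (le_of_eq ?_)
    ring
  have him : |(zz l - ee (1 / 2 ^ (l + 2))).im| ≤ (1 / Ms l + √(8 / Ms l)) / 2 := by
    rw [Complex.sub_im]
    change |(qq (Ms l) l : ℝ) / (2 * Ms l) - Real.sin (2 * Real.pi * (1 / 2 ^ (l + 2)))| ≤ _
    rw [hsin]
    have e : (qq (Ms l) l : ℝ) / (2 * Ms l) - √(4 - (Real.sqrtTwoAddSeries 0 l) ^ 2) / 2 =
        ((qq (Ms l) l : ℝ) / (Ms l) - √(4 - (Real.sqrtTwoAddSeries 0 l) ^ 2)) / 2 := by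
      field_simp
    rw [e, abs_div, abs_of_pos (by norm_num : (0 : ℝ) < 2)]
    gcongr
  have hMv : (Ms l : ℝ) = 8 * (2 ^ (2 * l + 3)) ^ 2 := by
    unfold Ms
    push_cast
    rw [← pow_mul]
    have : (8 : ℝ) = 2 ^ 3 := by norm_num
    rw [this, ← pow_add]
    congr 1
    ring
  set X : ℝ := 2 ^ (2 * l + 3) with hX
  have hX8 : 8 ≤ X := by
    have : (8 : ℝ) = 2 ^ 3 := by norm_num
    rw [this, hX]
    exact pow_le_pow_right₀ (by norm_num) (by omega)
  have hsq : √(8 / Ms l) = 1 / X := by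
    rw [hMv]
    have : 8 / (8 * X ^ 2) = (1 / X) ^ 2 := by field_simp
    rw [this, Real.sqrt_sq (by positivity)]
  have hinv : (1 : ℝ) / Ms l ≤ (1 / X) / 8 := by
    rw [hMv]
    rw [div_div, div_le_div_iff₀ (by positivity) (by positivity)]
    nlinarith
  rw [hsq] at him
  have h6 := Complex.norm_le_abs_re_add_abs_im (zz l - ee (1 / 2 ^ (l + 2)))
  have h7 : (1 / 2 : ℝ) ^ (2 * l + 3) = 1 / X := by rw [hX, one_div_pow]
  rw [h7]
  have h8 : 0 < 1 / X := by positivity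
  linarith

theorem pow_near {z e : ℂ} {ε : ℝ} (he : ‖e‖ = 1) (hε : 0 ≤ ε) (h : ‖z - e‖ ≤ ε) (k : ℕ) :
    ‖z ^ k - e ^ k‖ ≤ (1 + ε) ^ k - 1 := by
  have hz : ‖z‖ ≤ 1 + ε := by
    have : z = e + (z - e) := by ring
    rw [this]
    refine (norm_add_le _ _).trans ?_
    rw [he]; linarith
  induction k with
  | zero => simp
  | succ k ih =>
    have e1 : z ^ (k + 1) - e ^ (k + 1) = z * (z ^ k - e ^ k) + (z - e) * e ^ k := by ring
    rw [e1]
    refine (norm_add_le _ _).trans ?_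
    rw [norm_mul, norm_mul, norm_pow, he, one_pow, mul_one]
    have h1 : ‖z‖ * ‖z ^ k - e ^ k‖ ≤ (1 + ε) * ((1 + ε) ^ k - 1) :=
      mul_le_mul hz ih (norm_nonneg _) (by linarith)
    have e2 : (1 + ε) ^ (k + 1) - 1 = (1 + ε) * ((1 + ε) ^ k - 1) + ε := by ring
    rw [e2]
    linarith

theorem one_add_pow_le {ε : ℝ} (hε : 0 ≤ ε) (k : ℕ) (hk : 2 * k * ε ≤ 1) :
    (1 + ε) ^ k ≤ 1 + 2 * k * ε := by
  induction k with
  | zero => simp
  | succ k ih =>
    push_cast at hk ⊢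
    have h1 : 2 * k * ε ≤ 1 := by nlinarith
    have h2 := ih h1
    rw [pow_succ]
    nlinarith [mul_nonneg hε (by linarith : 0 ≤ 1 - 2 * k * ε)]

theorem zpow_near {l k : ℕ} (hk : k < 2 ^ l) :
    ‖zz l ^ (4 * k) - ee (k / 2 ^ l)‖ ≤ 1 / 2 ^ l := by
  have h1 := pow_near (norm_ee _) (by positivity) (zz_near l) (4 * k)
  have e1 : ee (1 / 2 ^ (l + 2)) ^ (4 * k) = ee (k / 2 ^ l) := by
    rw [ee_pow]
    congr 1
    rw [pow_add]
    push_cast
    field_simp
    ring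
  rw [e1] at h1
  have hkR : (k : ℝ) ≤ 2 ^ l := by exact_mod_cast hk.le
  have h2 : 2 * ((4 * k : ℕ) : ℝ) * (1 / 2) ^ (2 * l + 3) ≤ 1 / 2 ^ l := by
    push_cast
    have e2 : (1 / 2 : ℝ) ^ (2 * l + 3) = 1 / (8 * (2 ^ l * 2 ^ l)) := by
      rw [one_div_pow]
      congr 1
      rw [← pow_add]
      have : (8 : ℝ) = 2 ^ 3 := by norm_num
      rw [this, ← pow_add]
      congr 1
      ring
    rw [e2, mul_one_div, div_le_div_iff₀ (by positivity) (by positivity)]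
    have : (0 : ℝ) < 2 ^ l := by positivity
    nlinarith
  have h3 : (1 : ℝ) / 2 ^ l ≤ 1 := by
    rw [div_le_one (by positivity)]
    exact one_le_pow₀ (by norm_num)
  have h4 := one_add_pow_le (by positivity : (0 : ℝ) ≤ (1 / 2) ^ (2 * l + 3)) (4 * k) (by linarith)
  linarith

end Q217.PR
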