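import Pool.Agent.Q217.PR.Approx

/-! The projections can be computed approximately: integer arithmetic. -/

set_option autoImplicit false

namespace Q217.PR

open Pool.Agent.Helper227

/-- the powers of `r + i q` as differences of natural numbers -/
def pw (r q : ℕ) : ℕ → ℕ × ℕ × ℕ × ℕ
  | 0 => (1, 0, 0, 0)
  | k + 1 => (r * (pw r q k).1 + q * (pw r q k).2.2.2, r * (pw r q k).2.1 + q * (pw r q k).2.2.1,
      r * (pw r q k).2.2.1 + q * (pw r q k).1, r * (pw r q k).2.2.2 + q * (pw r q k).2.1)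

theorem pw_spec (r q k : ℕ) : ((r : ℂ) + q * Complex.I) ^ k =
    (((pw r q k).1 : ℂ) - (pw r q k).2.1) + (((pw r q k).2.2.1 : ℂ) - (pw r q k).2.2.2) *
      Complex.I := by
  induction k with
  | zero => simp [pw]
  | succ k ih =>
    rw [pow_succ, ih]
    have e : pw r q (k + 1) = (r * (pw r q k).1 + q * (pw r q k).2.2.2,
      r * (pw r q k).2.1 + q * (pw r q k).2.2.1, r * (pw r q k).2.2.1 + q * (pw r q k).1,
      r * (pw r q k).2.2.2 + q * (pw r q k).2.1) := rfl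
    rw [e]
    push_cast
    have hI := Complex.I_mul_I
    linear_combination (((pw r q k).2.2.1 : ℂ) - (pw r q k).2.2.2) * q * hI

/-- the positive part of the scaled projection -/
def PA (X : ℕ × ℕ × ℕ × ℕ) (u₁ u₂ v₁ v₂ : ℕ) : ℕ :=
  X.1 * u₁ + X.2.1 * u₂ + X.2.2.1 * v₁ + X.2.2.2 * v₂

/-- the negative part of the scaled projection -/
def PB (X : ℕ × ℕ × ℕ × ℕ) (u₁ u₂ v₁ v₂ : ℕ) : ℕ :=
  X.1 * u₂ + X.2.1 * u₁ + X.2.2.1 * v₂ + X.2.2.2 * v₁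

/-- the integer approximation of the projection -/
def aa (p₁ p₂ : ℤ) (R l k i j : ℕ) : ℕ :=
  (PA (pw (rr (Ms l) l) (qq (Ms l) l) (4 * k)) (p₁.toNat * 2 ^ l + i) ((-p₁).toNat * 2 ^ l)
      (p₂.toNat * 2 ^ l + j) ((-p₂).toNat * 2 ^ l) + R * 2 ^ l * (2 * Ms l) ^ (4 * k) -
    PB (pw (rr (Ms l) l) (qq (Ms l) l) (4 * k)) (p₁.toNat * 2 ^ l + i) ((-p₁).toNat * 2 ^ l)
      (p₂.toNat * 2 ^ l + j) ((-p₂).toNat * 2 ^ l)) / (2 * Ms l) ^ (4 * k)

theorem toNat_sub (p : ℤ) : ((p.toNat : ℕ) : ℝ) - ((-p).toNat : ℕ) = p := by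
  have h : ((p.toNat : ℕ) : ℤ) - ((-p).toNat : ℕ) = p := by omega
  exact_mod_cast h

theorem diff_eq (p₁ p₂ : ℤ) (l k i j : ℕ) :
    ((PA (pw (rr (Ms l) l) (qq (Ms l) l) (4 * k)) (p₁.toNat * 2 ^ l + i) ((-p₁).toNat * 2 ^ l)
      (p₂.toNat * 2 ^ l + j) ((-p₂).toNat * 2 ^ l) : ℕ) : ℝ) -
    ((PB (pw (rr (Ms l) l) (qq (Ms l) l) (4 * k)) (p₁.toNat * 2 ^ l + i) ((-p₁).toNat * 2 ^ l)
      (p₂.toNat * 2 ^ l + j) ((-p₂).toNat * 2 ^ l) : ℕ) : ℝ) =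
    (2 * Ms l) ^ (4 * k) * 2 ^ l * ((zz l ^ (4 * k)).re * (p₁ + i / 2 ^ l) +
      (zz l ^ (4 * k)).im * (p₂ + j / 2 ^ l)) := by
  have hMR : (0 : ℝ) < Ms l := by exact_mod_cast Ms_pos l
  obtain ⟨X, hX⟩ : ∃ X, X = pw (rr (Ms l) l) (qq (Ms l) l) (4 * k) := ⟨_, rfl⟩
  have h1 : ((2 * Ms l : ℝ) : ℂ) ^ (4 * k) * zz l ^ (4 * k) =
      ((X.1 : ℂ) - X.2.1) + ((X.2.2.1 : ℂ) - X.2.2.2) * Complex.I := by
    rw [hX, ← pw_spec, ← mul_pow]
    congr 1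
    have hM0 : (2 * Ms l : ℝ) ≠ 0 := by positivity
    apply Complex.ext
    · rw [Complex.re_ofReal_mul]
      simp only [zz, Complex.add_re, Complex.natCast_re, Complex.mul_re, Complex.I_re,
        Complex.natCast_im, Complex.I_im]
      field_simp
      ring
    · rw [Complex.im_ofReal_mul]
      simp only [zz, Complex.add_im, Complex.natCast_im, Complex.mul_im, Complex.I_re,
        Complex.natCast_re, Complex.I_im]
      field_simp
      ring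
  have h2 : (2 * Ms l : ℝ) ^ (4 * k) * (zz l ^ (4 * k)).re = (X.1 : ℝ) - X.2.1 := by
    have := congrArg Complex.re h1
    rw [← Complex.ofReal_pow, Complex.re_ofReal_mul] at this
    rw [this]
    simp
  have h3 : (2 * Ms l : ℝ) ^ (4 * k) * (zz l ^ (4 * k)).im = (X.2.2.1 : ℝ) - X.2.2.2 := by
    have := congrArg Complex.im h1
    rw [← Complex.ofReal_pow, Complex.im_ofReal_mul] at this
    rw [this]
    simp
  have e : (2 * Ms l : ℝ) ^ (4 * k) * 2 ^ l * ((zz l ^ (4 * k)).re * (p₁ + i / 2 ^ l) +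
      (zz l ^ (4 * k)).im * (p₂ + j / 2 ^ l)) =
      ((2 * Ms l : ℝ) ^ (4 * k) * (zz l ^ (4 * k)).re) * (p₁ * 2 ^ l + i) +
      ((2 * Ms l : ℝ) ^ (4 * k) * (zz l ^ (4 * k)).im) * (p₂ * 2 ^ l + j) := by
    field_simp
  rw [e, h2, h3, ← hX, ← toNat_sub p₁, ← toNat_sub p₂]
  unfold PA PB
  push_cast
  ring

theorem primrec_rr : Primrec₂ rr := by
  have h : Primrec₂ fun (M : ℕ) (q : ℕ × ℕ) => Nat.sqrt (M * (2 * M + q.2)) := by
    exact Primrec.nat_sqrt.comp (Primrec.nat_mul.comp Primrec.fst (Primrec.nat_add.comp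
      (Primrec.nat_mul.comp (Primrec.const 2) Primrec.fst) (Primrec.snd.comp Primrec.snd)))
  refine (Primrec.nat_rec (Primrec.const 0) h).of_eq fun M n => ?_
  induction n with
  | zero => rfl
  | succ n ih =>
    change Nat.sqrt (M * (2 * M + _)) = _
    rw [ih]
    rfl

theorem primrec_qq : Primrec₂ qq := by
  unfold qq
  exact Primrec.nat_sqrt.comp (Primrec.nat_sub.comp (Primrec.nat_mul.comp
    (Primrec.nat_mul.comp (Primrec.const 2) Primrec.fst)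
    (Primrec.nat_mul.comp (Primrec.const 2) Primrec.fst)) (Primrec.nat_mul.comp primrec_rr primrec_rr))

theorem primrec_pw : Primrec₂ fun (z : ℕ × ℕ) (k : ℕ) => pw z.1 z.2 k := by
  have hr : Primrec fun y : (ℕ × ℕ) × (ℕ × (ℕ × ℕ × ℕ × ℕ)) => y.1.1 := Primrec.fst.comp Primrec.fst
  have hq : Primrec fun y : (ℕ × ℕ) × (ℕ × (ℕ × ℕ × ℕ × ℕ)) => y.1.2 := Primrec.snd.comp Primrec.fst
  have h0 : Primrec fun y : (ℕ × ℕ) × (ℕ × (ℕ × ℕ × ℕ × ℕ)) => y.2.2 := Primrec.snd.comp Primrec.snd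
  have h1 : Primrec fun y : (ℕ × ℕ) × (ℕ × (ℕ × ℕ × ℕ × ℕ)) => y.2.2.1 := Primrec.fst.comp h0
  have h2 : Primrec fun y : (ℕ × ℕ) × (ℕ × (ℕ × ℕ × ℕ × ℕ)) => y.2.2.2.1 :=
    Primrec.fst.comp (Primrec.snd.comp h0)
  have h3 : Primrec fun y : (ℕ × ℕ) × (ℕ × (ℕ × ℕ × ℕ × ℕ)) => y.2.2.2.2.1 :=
    Primrec.fst.comp (Primrec.snd.comp (Primrec.snd.comp h0))
  have h4 : Primrec fun y : (ℕ × ℕ) × (ℕ × (ℕ × ℕ × ℕ × ℕ)) => y.2.2.2.2.2 :=
    Primrec.snd.comp (Primrec.snd.comp (Primrec.snd.comp h0))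
  have h : Primrec₂ fun (z : ℕ × ℕ) (y : ℕ × (ℕ × ℕ × ℕ × ℕ)) =>
      (z.1 * y.2.1 + z.2 * y.2.2.2.2, z.1 * y.2.2.1 + z.2 * y.2.2.2.1,
        z.1 * y.2.2.2.1 + z.2 * y.2.1, z.1 * y.2.2.2.2 + z.2 * y.2.2.1) := by
    exact (Primrec.nat_add.comp (Primrec.nat_mul.comp hr h1) (Primrec.nat_mul.comp hq h4)).pair
      ((Primrec.nat_add.comp (Primrec.nat_mul.comp hr h2) (Primrec.nat_mul.comp hq h3)).pair
      ((Primrec.nat_add.comp (Primrec.nat_mul.comp hr h3) (Primrec.nat_mul.comp hq h1)).pair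
      (Primrec.nat_add.comp (Primrec.nat_mul.comp hr h4) (Primrec.nat_mul.comp hq h2))))
  refine (Primrec.nat_rec (Primrec.const ((1, 0, 0, 0) : ℕ × ℕ × ℕ × ℕ)) h).of_eq fun z k => ?_
  induction k with
  | zero => rfl
  | succ k ih =>
    simp only at ih ⊢
    rw [ih]
    rfl

theorem primrec_PA {α : Type*} [Primcodable α] {X : α → ℕ × ℕ × ℕ × ℕ} {u₁ u₂ v₁ v₂ : α → ℕ}
    (hX : Primrec X) (h1 : Primrec u₁) (h2 : Primrec u₂) (h3 : Primrec v₁) (h4 : Primrec v₂) :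
    Primrec fun x => PA (X x) (u₁ x) (u₂ x) (v₁ x) (v₂ x) := by
  unfold PA
  exact Primrec.nat_add.comp (Primrec.nat_add.comp (Primrec.nat_add.comp
    (Primrec.nat_mul.comp (Primrec.fst.comp hX) h1)
    (Primrec.nat_mul.comp (Primrec.fst.comp (Primrec.snd.comp hX)) h2))
    (Primrec.nat_mul.comp (Primrec.fst.comp (Primrec.snd.comp (Primrec.snd.comp hX))) h3))
    (Primrec.nat_mul.comp (Primrec.snd.comp (Primrec.snd.comp (Primrec.snd.comp hX))) h4)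

theorem primrec_PB {α : Type*} [Primcodable α] {X : α → ℕ × ℕ × ℕ × ℕ} {u₁ u₂ v₁ v₂ : α → ℕ}
    (hX : Primrec X) (h1 : Primrec u₁) (h2 : Primrec u₂) (h3 : Primrec v₁) (h4 : Primrec v₂) :
    Primrec fun x => PB (X x) (u₁ x) (u₂ x) (v₁ x) (v₂ x) := by
  unfold PB
  exact Primrec.nat_add.comp (Primrec.nat_add.comp (Primrec.nat_add.comp
    (Primrec.nat_mul.comp (Primrec.fst.comp hX) h2)
    (Primrec.nat_mul.comp (Primrec.fst.comp (Primrec.snd.comp hX)) h1))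
    (Primrec.nat_mul.comp (Primrec.fst.comp (Primrec.snd.comp (Primrec.snd.comp hX))) h4))
    (Primrec.nat_mul.comp (Primrec.snd.comp (Primrec.snd.comp (Primrec.snd.comp hX))) h3)

theorem primrec_aa (p₁ p₂ : ℤ) (R : ℕ) :
    Primrec fun z : ℕ × ℕ × ℕ × ℕ => aa p₁ p₂ R z.1 z.2.1 z.2.2.1 z.2.2.2 := by
  have hl : Primrec fun z : ℕ × ℕ × ℕ × ℕ => z.1 := Primrec.fst
  have hk : Primrec fun z : ℕ × ℕ × ℕ × ℕ => z.2.1 := Primrec.fst.comp Primrec.snd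
  have hi : Primrec fun z : ℕ × ℕ × ℕ × ℕ => z.2.2.1 :=
    Primrec.fst.comp (Primrec.snd.comp Primrec.snd)
  have hj : Primrec fun z : ℕ × ℕ × ℕ × ℕ => z.2.2.2 :=
    Primrec.snd.comp (Primrec.snd.comp Primrec.snd)
  have hMs : Primrec Ms := by
    unfold Ms
    exact primrec_two_pow.comp (Primrec.nat_add.comp (Primrec.nat_mul.comp (Primrec.const 4)
      Primrec.id) (Primrec.const 9))
  have hM : Primrec fun z : ℕ × ℕ × ℕ × ℕ => Ms z.1 := hMs.comp hl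
  have h4k : Primrec fun z : ℕ × ℕ × ℕ × ℕ => 4 * z.2.1 := Primrec.nat_mul.comp (Primrec.const 4) hk
  have hX : Primrec fun z : ℕ × ℕ × ℕ × ℕ =>
      pw (rr (Ms z.1) z.1) (qq (Ms z.1) z.1) (4 * z.2.1) :=
    primrec_pw.comp ((primrec_rr.comp hM hl).pair (primrec_qq.comp hM hl)) h4k
  have h2l : Primrec fun z : ℕ × ℕ × ℕ × ℕ => 2 ^ z.1 := primrec_two_pow.comp hl
  have hc : ∀ c : ℕ, Primrec fun z : ℕ × ℕ × ℕ × ℕ => c * 2 ^ z.1 := fun c =>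
    Primrec.nat_mul.comp (Primrec.const c) h2l
  have hD : Primrec fun z : ℕ × ℕ × ℕ × ℕ => (2 * Ms z.1) ^ (4 * z.2.1) :=
    primrec_pow.comp (Primrec.nat_mul.comp (Primrec.const 2) hM) h4k
  have hu1 := Primrec.nat_add.comp (hc p₁.toNat) hi
  have hv1 := Primrec.nat_add.comp (hc p₂.toNat) hj
  have hA := primrec_PA hX hu1 (hc (-p₁).toNat) hv1 (hc (-p₂).toNat)
  have hB := primrec_PB hX hu1 (hc (-p₁).toNat) hv1 (hc (-p₂).toNat)
  exact Primrec.nat_div.comp (Primrec.nat_sub.comp (Primrec.nat_add.comp hA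
    (Primrec.nat_mul.comp (hc R) hD)) hB) hD

theorem ee_lip (s t : ℝ) : |Real.cos (2 * Real.pi * s) - Real.cos (2 * Real.pi * t)| ≤ 7 * |s - t| ∧
    |Real.sin (2 * Real.pi * s) - Real.sin (2 * Real.pi * t)| ≤ 7 * |s - t| := by
  have hpi := Real.pi_lt_d2
  have hpi0 := Real.pi_pos
  have e : |2 * Real.pi * s - 2 * Real.pi * t| = 2 * Real.pi * |s - t| := by
    rw [← mul_sub, abs_mul, abs_of_pos (by positivity)]
  constructor
  · refine (Real.abs_cos_sub_cos_le _ _).trans ?_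
    rw [e]
    nlinarith [abs_nonneg (s - t)]
  · refine (Real.abs_sin_sub_sin_le _ _).trans ?_
    rw [e]
    nlinarith [abs_nonneg (s - t)]

theorem approx : ApproxStm := by
  intro p₁ p₂
  refine ⟨aa p₁ p₂ (2 * (p₁.natAbs + 1) + 2 * (p₂.natAbs + 1)),
    8 * (p₁.natAbs + 1) + 8 * (p₂.natAbs + 1) + 5, 2 * (p₁.natAbs + 1) + 2 * (p₂.natAbs + 1),
    primrec_aa _ _ _, ?_⟩
  obtain ⟨R, hR⟩ : ∃ R : ℕ, R = 2 * (p₁.natAbs + 1) + 2 * (p₂.natAbs + 1) := ⟨_, rfl⟩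
  rw [← hR]
  intro l k i j hk hi hj θ y₁ y₂ hθ1 hθ2 hy1 hy1' hy2 hy2'
  have hP : (0 : ℝ) < 2 ^ l := by positivity
  have hD0 : 0 < (2 * Ms l) ^ (4 * k) := by have := Ms_pos l; positivity
  have hD0R : (0 : ℝ) < (2 * (Ms l : ℝ)) ^ (4 * k) := by exact_mod_cast hD0
  have hM1 : (0 : ℝ) < Ms l := by exact_mod_cast Ms_pos l
  -- the approximate direction
  set z := zz l ^ (4 * k) with hz
  have hzn := zpow_near hk
  rw [← hz] at hzn
  have hinv : (1 : ℝ) / 2 ^ l ≤ 1 := by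
    rw [div_le_one hP]; exact one_le_pow₀ (by norm_num)
  have hz2 : ‖z‖ ≤ 2 := by
    have e : z = (z - ee (k / 2 ^ l)) + ee (k / 2 ^ l) := by ring
    rw [e]
    refine (norm_add_le _ _).trans ?_
    rw [norm_ee]; linarith
  have hzre : |z.re| ≤ 2 := (Complex.abs_re_le_norm z).trans hz2
  have hzim : |z.im| ≤ 2 := (Complex.abs_im_le_norm z).trans hz2
  have hθk : |(k : ℝ) / 2 ^ l - θ| ≤ 1 / 2 ^ l := by
    rw [add_div] at hθ2
    rw [abs_le]; constructor <;> linarith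
  have hc : |Real.cos (2 * Real.pi * θ) - z.re| ≤ 8 / 2 ^ l := by
    have h1 := (Complex.abs_re_le_norm (z - ee (k / 2 ^ l))).trans hzn
    rw [Complex.sub_re] at h1
    have h2 := (ee_lip ((k : ℝ) / 2 ^ l) θ).1
    change |z.re - Real.cos (2 * Real.pi * (k / 2 ^ l))| ≤ _ at h1
    have e8 : (8 : ℝ) / 2 ^ l = 1 / 2 ^ l + 7 * (1 / 2 ^ l) := by ring
    rw [e8]
    rw [abs_le] at h1 h2 ⊢
    constructor <;> linarith [h1.1, h1.2, h2.1, h2.2]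
  have hs : |Real.sin (2 * Real.pi * θ) - z.im| ≤ 8 / 2 ^ l := by
    have h1 := (Complex.abs_im_le_norm (z - ee (k / 2 ^ l))).trans hzn
    rw [Complex.sub_im] at h1
    have h2 := (ee_lip ((k : ℝ) / 2 ^ l) θ).2
    change |z.im - Real.sin (2 * Real.pi * (k / 2 ^ l))| ≤ _ at h1
    have e8 : (8 : ℝ) / 2 ^ l = 1 / 2 ^ l + 7 * (1 / 2 ^ l) := by ring
    rw [e8]
    rw [abs_le] at h1 h2 ⊢
    constructor <;> linarith [h1.1, h1.2, h2.1, h2.2]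
  have hi1 : (i : ℝ) / 2 ^ l ≤ 1 := by
    rw [div_le_one hP]; exact_mod_cast hi.le
  have hj1 : (j : ℝ) / 2 ^ l ≤ 1 := by
    rw [div_le_one hP]; exact_mod_cast hj.le
  have hi0 : 0 ≤ (i : ℝ) / 2 ^ l := by positivity
  have hj0 : 0 ≤ (j : ℝ) / 2 ^ l := by positivity
  have hpn1 : |(p₁ : ℝ)| = p₁.natAbs := by rw [Nat.cast_natAbs, Int.cast_abs]
  have hpn2 : |(p₂ : ℝ)| = p₂.natAbs := by rw [Nat.cast_natAbs, Int.cast_abs]
  have hpi : |(p₁ : ℝ) + i / 2 ^ l| ≤ p₁.natAbs + 1 := by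
    refine (abs_add_le _ _).trans ?_
    rw [hpn1, abs_of_nonneg hi0]; linarith
  have hpj : |(p₂ : ℝ) + j / 2 ^ l| ≤ p₂.natAbs + 1 := by
    refine (abs_add_le _ _).trans ?_
    rw [hpn2, abs_of_nonneg hj0]; linarith
  have hy1n : |(p₁ : ℝ) + y₁| ≤ p₁.natAbs + 1 := by
    have h1 : y₁ ≤ 1 := by
      refine hy1'.trans ?_
      rw [div_le_one hP]; exact_mod_cast hi
    refine (abs_add_le _ _).trans ?_
    rw [hpn1, abs_of_nonneg (by linarith)]; linarith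
  have hy2n : |(p₂ : ℝ) + y₂| ≤ p₂.natAbs + 1 := by
    have h1 : y₂ ≤ 1 := by
      refine hy2'.trans ?_
      rw [div_le_one hP]; exact_mod_cast hj
    refine (abs_add_le _ _).trans ?_
    rw [hpn2, abs_of_nonneg (by linarith)]; linarith
  -- the quotient
  have hdiff := diff_eq p₁ p₂ l k i j
  rw [← hz] at hdiff
  obtain ⟨A, hA⟩ : ∃ A, A = PA (pw (rr (Ms l) l) (qq (Ms l) l) (4 * k)) (p₁.toNat * 2 ^ l + i)
    ((-p₁).toNat * 2 ^ l) (p₂.toNat * 2 ^ l + j) ((-p₂).toNat * 2 ^ l) := ⟨_, rfl⟩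
  obtain ⟨B, hB⟩ : ∃ B, B = PB (pw (rr (Ms l) l) (qq (Ms l) l) (4 * k)) (p₁.toNat * 2 ^ l + i)
    ((-p₁).toNat * 2 ^ l) (p₂.toNat * 2 ^ l + j) ((-p₂).toNat * 2 ^ l) := ⟨_, rfl⟩
  have haa : aa p₁ p₂ R l k i j = (A + R * 2 ^ l * (2 * Ms l) ^ (4 * k) - B) /
      (2 * Ms l) ^ (4 * k) := by rw [hA, hB]; rfl
  rw [← hA, ← hB] at hdiff
  set pr : ℝ := z.re * (p₁ + i / 2 ^ l) + z.im * (p₂ + j / 2 ^ l) with hpr
  have hRR : (R : ℝ) = 2 * (p₁.natAbs + 1) + 2 * (p₂.natAbs + 1) := by rw [hR]; push_cast; ring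
  have hpra : |pr| ≤ R := by
    rw [hpr, hRR]
    refine (abs_add_le _ _).trans ?_
    rw [abs_mul, abs_mul]
    exact add_le_add (mul_le_mul hzre hpi (abs_nonneg _) (by norm_num))
      (mul_le_mul hzim hpj (abs_nonneg _) (by norm_num))
  have hBA : B ≤ A + R * 2 ^ l * (2 * Ms l) ^ (4 * k) := by
    have h1 : (B : ℝ) ≤ A + R * 2 ^ l * (2 * Ms l) ^ (4 * k) := by
      have h2 : (B : ℝ) = A - (2 * Ms l) ^ (4 * k) * 2 ^ l * pr := by linarith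
      rw [h2]
      have h3 : -pr ≤ R := by
        have := (abs_le.1 hpra).1; linarith
      have h4 : (0 : ℝ) < (2 * Ms l) ^ (4 * k) * 2 ^ l := by positivity
      nlinarith
    exact_mod_cast h1
  have hquot : |(pr + R) - (aa p₁ p₂ R l k i j : ℝ) / 2 ^ l| ≤ 1 / 2 ^ l := by
    have h1 : (((A + R * 2 ^ l * (2 * Ms l) ^ (4 * k) - B : ℕ) : ℝ)) =
        (2 * Ms l) ^ (4 * k) * (2 ^ l * (pr + R)) := by
      rw [Nat.cast_sub hBA]
      push_cast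
      linear_combination hdiff
    have h2 : (aa p₁ p₂ R l k i j : ℝ) ≤ 2 ^ l * (pr + R) := by
      rw [haa]
      refine Nat.cast_div_le.trans ?_
      rw [h1]
      push_cast
      rw [mul_div_cancel_left₀ _ hD0R.ne']
    have h3 : 2 ^ l * (pr + R) ≤ (aa p₁ p₂ R l k i j : ℝ) + 1 := by
      have h4 := Nat.lt_div_mul_add (a := A + R * 2 ^ l * (2 * Ms l) ^ (4 * k) - B) hD0
      rw [← haa] at h4
      have h5 : ((A + R * 2 ^ l * (2 * Ms l) ^ (4 * k) - B : ℕ) : ℝ) <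
          (aa p₁ p₂ R l k i j : ℝ) * (2 * Ms l) ^ (4 * k) + (2 * Ms l) ^ (4 * k) := by
        exact_mod_cast h4
      rw [h1] at h5
      by_contra hcon
      push Not at hcon
      nlinarith
    rw [abs_le]
    constructor
    · have : (aa p₁ p₂ R l k i j : ℝ) / 2 ^ l ≤ pr + R := by
        rw [div_le_iff₀ hP]; linarith
      have h6 : 0 < 1 / (2 : ℝ) ^ l := by positivity
      linarith
    · have : pr + R ≤ ((aa p₁ p₂ R l k i j : ℝ) + 1) / 2 ^ l := by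
        rw [le_div_iff₀ hP]; linarith
      rw [add_div] at this
      linarith
  -- assembly
  have e : Real.cos (2 * Real.pi * θ) * (p₁ + y₁) + Real.sin (2 * Real.pi * θ) * (p₂ + y₂) + R -
      (aa p₁ p₂ R l k i j : ℝ) / 2 ^ l =
      (Real.cos (2 * Real.pi * θ) - z.re) * (p₁ + y₁) +
      (Real.sin (2 * Real.pi * θ) - z.im) * (p₂ + y₂) +
      z.re * (y₁ - i / 2 ^ l) + z.im * (y₂ - j / 2 ^ l) +
      ((pr + R) - (aa p₁ p₂ R l k i j : ℝ) / 2 ^ l) := by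
    rw [hpr]; ring
  rw [e]
  have hyi : |y₁ - i / 2 ^ l| ≤ 1 / 2 ^ l := by
    rw [add_div] at hy1'
    rw [abs_le]; constructor <;> [skip; linarith]
    have h6 : 0 < 1 / (2 : ℝ) ^ l := by positivity
    linarith
  have hyj : |y₂ - j / 2 ^ l| ≤ 1 / 2 ^ l := by
    rw [add_div] at hy2'
    rw [abs_le]; constructor <;> [skip; linarith]
    have h6 : 0 < 1 / (2 : ℝ) ^ l := by positivity
    linarith
  have t1 : |(Real.cos (2 * Real.pi * θ) - z.re) * (p₁ + y₁)| ≤ 8 / 2 ^ l * (p₁.natAbs + 1) := by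
    rw [abs_mul]; exact mul_le_mul hc hy1n (abs_nonneg _) (by positivity)
  have t2 : |(Real.sin (2 * Real.pi * θ) - z.im) * (p₂ + y₂)| ≤ 8 / 2 ^ l * (p₂.natAbs + 1) := by
    rw [abs_mul]; exact mul_le_mul hs hy2n (abs_nonneg _) (by positivity)
  have t3 : |z.re * (y₁ - i / 2 ^ l)| ≤ 2 * (1 / 2 ^ l) := by
    rw [abs_mul]; exact mul_le_mul hzre hyi (abs_nonneg _) (by norm_num)
  have t4 : |z.im * (y₂ - j / 2 ^ l)| ≤ 2 * (1 / 2 ^ l) := by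
    rw [abs_mul]; exact mul_le_mul hzim hyj (abs_nonneg _) (by norm_num)
  have hsum : ((8 * (p₁.natAbs + 1) + 8 * (p₂.natAbs + 1) + 5 : ℕ) : ℝ) / 2 ^ l =
      8 / 2 ^ l * (p₁.natAbs + 1) + 8 / 2 ^ l * (p₂.natAbs + 1) + 2 * (1 / 2 ^ l) +
        2 * (1 / 2 ^ l) + 1 / 2 ^ l := by
    push_cast
    ring
  rw [hsum]
  refine (abs_add_le _ _).trans (add_le_add ((abs_add_le _ _).trans (add_le_add
    ((abs_add_le _ _).trans (add_le_add ((abs_add_le _ _).trans (add_le_add t1 t2)) t3)) t4)) hquot)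

end Q217.PR
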