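import Pool.Agent.Q217.PR.Stm

/-! Few directions are nearly orthogonal to a given integer vector. -/

set_option autoImplicit false

namespace Q217.PR

open Finset

/-- `|sin|` near a multiple of `π`: if `|sin t| ≤ s` then `t` is within `2 s` of a multiple
of `π` (Jordan). -/
theorem near_of_sin {t s : ℝ} (h : |Real.sin t| ≤ s) : ∃ n : ℤ, |t - n * Real.pi| ≤ Real.pi / 2 * s := by
  have hpi := Real.pi_pos
  -- reduce `t` to `[-π/2, π/2]`
  refine ⟨round (t / Real.pi), ?_⟩
  set n := round (t / Real.pi) with hn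
  set u := t - n * Real.pi with hu
  have h1 : |u| ≤ Real.pi / 2 := by
    have h2 := abs_sub_round (t / Real.pi)
    have h3 : u = (t / Real.pi - n) * Real.pi := by
      rw [hu]; field_simp
    rw [h3, abs_mul, abs_of_pos hpi]
    nlinarith
  have h2 : |Real.sin u| = |Real.sin t| := by
    rw [hu, Real.sin_sub_int_mul_pi, abs_mul, abs_zpow, abs_neg, abs_one, one_zpow, one_mul]
  have h3 : 2 / Real.pi * |u| ≤ |Real.sin u| := by
    rcases le_total 0 u with h0 | h0
    · rw [abs_of_nonneg h0] at h1 ⊢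
      have := Real.mul_le_sin h0 h1
      exact this.trans (le_abs_self _)
    · rw [abs_of_nonpos h0] at h1 ⊢
      have := Real.mul_le_sin (x := -u) (by linarith) h1
      rw [Real.sin_neg] at this
      exact this.trans (neg_le_abs _)
  have h4 : 2 / Real.pi * |u| ≤ s := by rw [h2] at h3; linarith
  have h5 : |u| = Real.pi / 2 * (2 / Real.pi * |u|) := by field_simp
  rw [h5]
  exact mul_le_mul_of_nonneg_left h4 (by positivity)

/-- the number of integers in a real interval -/
theorem card_le_of_interval (S : Finset ℕ) (c r : ℝ) (hr : 0 ≤ r)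
    (h : ∀ k ∈ S, |(k : ℝ) - c| ≤ r) : (S.card : ℝ) ≤ 2 * r + 1 := by
  rcases S.eq_empty_or_nonempty with rfl | hne
  · simp; linarith
  · have h1 : S ⊆ Finset.Icc (S.min' hne) (S.max' hne) := by
      intro k hk
      rw [Finset.mem_Icc]
      exact ⟨S.min'_le k hk, S.le_max' k hk⟩
    have h2 := Finset.card_le_card h1
    rw [Nat.card_Icc] at h2
    have h3 := h _ (S.min'_mem hne)
    have h4 := h _ (S.max'_mem hne)
    rw [abs_le] at h3 h4
    have h5 : S.min' hne ≤ S.max' hne := S.min'_le _ (S.max'_mem hne)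
    have h6 : (S.card : ℝ) ≤ (S.max' hne : ℝ) + 1 - (S.min' hne : ℝ) := by
      have : S.card + S.min' hne ≤ S.max' hne + 1 := by omega
      have h7 : ((S.card + S.min' hne : ℕ) : ℝ) ≤ ((S.max' hne + 1 : ℕ) : ℝ) := by exact_mod_cast this
      push_cast at h7
      linarith
    linarith

theorem card_le_of_interval' (S : Finset ℤ) (c r : ℝ) (hr : 0 ≤ r)
    (h : ∀ k ∈ S, |(k : ℝ) - c| ≤ r) : (S.card : ℝ) ≤ 2 * r + 1 := by
  rcases S.eq_empty_or_nonempty with rfl | hne
  · simp; linarith
  · have h1 : S ⊆ Finset.Icc (S.min' hne) (S.max' hne) := by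
      intro k hk
      rw [Finset.mem_Icc]
      exact ⟨S.min'_le k hk, S.le_max' k hk⟩
    have h2 := Finset.card_le_card h1
    rw [Int.card_Icc] at h2
    have h3 := h _ (S.min'_mem hne)
    have h4 := h _ (S.max'_mem hne)
    rw [abs_le] at h3 h4
    have h5 : S.min' hne ≤ S.max' hne := S.min'_le _ (S.max'_mem hne)
    have h6 : (S.card : ℝ) ≤ (S.max' hne : ℝ) + 1 - (S.min' hne : ℝ) := by
      have : (S.card : ℤ) ≤ S.max' hne + 1 - S.min' hne := by omega
      exact_mod_cast this
    linarith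

theorem kernel : KernelStm := by
  intro B
  refine ⟨(B + 3) * (B + 2), fun N hN u w hu hw => ?_⟩
  have hpi := Real.pi_pos
  set S := (Finset.range N).filter fun k : ℕ =>
      |Real.cos (2 * Real.pi * (k / N)) * u + Real.sin (2 * Real.pi * (k / N)) * w| ≤ B with hS
  have hcard : S.card ≤ N := by
    have := Finset.card_filter_le (Finset.range N) (fun k : ℕ =>
      |Real.cos (2 * Real.pi * (k / N)) * u + Real.sin (2 * Real.pi * (k / N)) * w| ≤ (B : ℝ))
    rw [Finset.card_range] at this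
    exact this
  set D := max u.natAbs w.natAbs with hD
  have hDN : D ≤ N := by
    rw [abs_le] at hu hw
    have h1 : u.natAbs ≤ N := by omega
    have h2 : w.natAbs ≤ N := by omega
    exact max_le h1 h2
  rcases Nat.eq_zero_or_pos D with h0 | hDpos
  · rw [h0]
    calc S.card * (1 + 0) = S.card := by ring
      _ ≤ 1 * N := by rw [one_mul]; exact hcard
      _ ≤ ((B + 3) * (B + 2)) * N := Nat.mul_le_mul_right _ (by nlinarith)
  -- the polar form
  set ρ : ℝ := Real.sqrt ((u : ℝ) ^ 2 + (w : ℝ) ^ 2) with hρ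
  have hρD : (D : ℝ) ≤ ρ := by
    apply Real.le_sqrt_of_sq_le
    rcases le_total u.natAbs w.natAbs with h | h
    · have e : D = w.natAbs := by omega
      have : ((D : ℕ) : ℝ) ^ 2 = (w : ℝ) ^ 2 := by
        rw [e, Nat.cast_natAbs, Int.cast_abs, sq_abs]
      rw [this]; nlinarith [sq_nonneg (u : ℝ)]
    · have e : D = u.natAbs := by omega
      have : ((D : ℕ) : ℝ) ^ 2 = (u : ℝ) ^ 2 := by
        rw [e, Nat.cast_natAbs, Int.cast_abs, sq_abs]
      rw [this]; nlinarith [sq_nonneg (w : ℝ)]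
  have hDR : (1 : ℝ) ≤ D := by exact_mod_cast hDpos
  have hρpos : 0 < ρ := by linarith
  -- the angle of the orthogonal direction
  obtain ⟨φ, hφ1, hφ2⟩ : ∃ φ : ℝ, Real.sin φ = u / ρ ∧ Real.cos φ = w / ρ := by
    have hsq : ρ ^ 2 = (u : ℝ) ^ 2 + (w : ℝ) ^ 2 := Real.sq_sqrt (by positivity)
    set z : ℂ := ⟨(w : ℝ), (u : ℝ)⟩ with hz
    have hnz : ‖z‖ = ρ := by
      rw [Complex.norm_def, Complex.normSq_apply, hρ]
      congr 1
      simp [hz]; ring
    refine ⟨Complex.arg z, ?_, ?_⟩
    · rw [Complex.sin_arg, hnz]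
    · rw [Complex.cos_arg, hnz]
      intro hz0
      rw [hz0, norm_zero] at hnz
      linarith
  have hform : ∀ t : ℝ, Real.cos t * u + Real.sin t * w = ρ * Real.sin (t + φ) := by
    intro t
    rw [Real.sin_add, hφ1, hφ2]
    field_simp
    ring
  -- the members of `S`
  have hmem : ∀ k ∈ S, ∃ n : ℤ, |(k : ℝ) - ((n : ℝ) / 2 - φ / (2 * Real.pi)) * N| ≤
      (B : ℝ) * N / (4 * D) := by
    intro k hk
    rw [hS, Finset.mem_filter] at hk
    rw [hform, abs_mul, abs_of_pos hρpos] at hk
    have h1 : |Real.sin (2 * Real.pi * (k / N) + φ)| ≤ B / D := by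
      rw [le_div_iff₀ (by linarith)]
      calc |Real.sin (2 * Real.pi * (k / N) + φ)| * D ≤
          |Real.sin (2 * Real.pi * (k / N) + φ)| * ρ := by gcongr
        _ = ρ * |Real.sin (2 * Real.pi * (k / N) + φ)| := by ring
        _ ≤ B := hk.2
    obtain ⟨n, hn⟩ := near_of_sin h1
    refine ⟨n, ?_⟩
    have hNR : (0 : ℝ) < N := by exact_mod_cast hN
    have e : (k : ℝ) - ((n : ℝ) / 2 - φ / (2 * Real.pi)) * N =
        (2 * Real.pi * (k / N) + φ - n * Real.pi) * (N / (2 * Real.pi)) := by
      field_simp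
      ring
    rw [e, abs_mul, abs_of_pos (by positivity : (0 : ℝ) < N / (2 * Real.pi))]
    calc |2 * Real.pi * (k / N) + φ - n * Real.pi| * (N / (2 * Real.pi)) ≤
        (Real.pi / 2 * (B / D)) * (N / (2 * Real.pi)) := by gcongr
      _ = (B : ℝ) * N / (4 * D) := by field_simp; ring
  -- the possible `n`
  choose! f hf using hmem
  have hrange : ∀ k ∈ S, |(f k : ℝ) - (1 + φ / Real.pi)| ≤ 1 + (B : ℝ) / 2 := by
    intro k hk
    have h1 := hf k hk
    have hNR : (0 : ℝ) < N := by exact_mod_cast hN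
    have hk2 : (k : ℝ) ≤ N := by
      rw [hS, Finset.mem_filter, Finset.mem_range] at hk
      exact_mod_cast hk.1.le
    have h2 : (B : ℝ) * N / (4 * D) ≤ B / 4 * N := by
      rw [div_le_iff₀ (by linarith)]
      have : (0 : ℝ) ≤ B * N := by positivity
      nlinarith
    rw [abs_le] at h1 ⊢
    have e1 : ((f k : ℝ) / 2 - φ / (2 * Real.pi)) = ((f k : ℝ) - φ / Real.pi) / 2 := by
      field_simp
    rw [e1] at h1
    have hk0 : (0 : ℝ) ≤ k := Nat.cast_nonneg k
    constructor
    · by_contra hcon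
      push Not at hcon
      have h3 : ((f k : ℝ) - φ / Real.pi) / 2 * N < - (B / 4) * N := by
        apply mul_lt_mul_of_pos_right _ hNR
        linarith
      linarith [h1.2]
    · by_contra hcon
      push Not at hcon
      have h3 : (1 + B / 4) * N < ((f k : ℝ) - φ / Real.pi) / 2 * N := by
        apply mul_lt_mul_of_pos_right _ hNR
        linarith
      linarith [h1.1]
  -- few values of `f`
  have hNR : (0 : ℝ) < N := by exact_mod_cast hN
  have hcover : (S.card : ℝ) ≤ (B + 3) * (2 * ((B : ℝ) * N / (4 * D)) + 1) := by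
    have h1 : S.card = ∑ n ∈ S.image f, (S.filter fun k => f k = n).card :=
      Finset.card_eq_sum_card_image f S
    have h2 : ∀ n ∈ S.image f, (((S.filter fun k => f k = n).card : ℕ) : ℝ) ≤
        2 * ((B : ℝ) * N / (4 * D)) + 1 := by
      intro n _
      apply card_le_of_interval _ (((n : ℝ) / 2 - φ / (2 * Real.pi)) * N) _ (by positivity)
      intro k hk
      rw [Finset.mem_filter] at hk
      rw [← hk.2]
      exact hf k hk.1
    have h3 : ((S.image f).card : ℝ) ≤ 2 * (1 + (B : ℝ) / 2) + 1 := by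
      apply card_le_of_interval' _ (1 + φ / Real.pi) _ (by positivity)
      intro n hn
      rw [Finset.mem_image] at hn
      obtain ⟨k, hk, rfl⟩ := hn
      exact hrange k hk
    calc (S.card : ℝ) = ∑ n ∈ S.image f, (((S.filter fun k => f k = n).card : ℕ) : ℝ) := by
          rw [h1]; push_cast; rfl
      _ ≤ ∑ n ∈ S.image f, (2 * ((B : ℝ) * N / (4 * D)) + 1) := Finset.sum_le_sum h2
      _ = (S.image f).card * (2 * ((B : ℝ) * N / (4 * D)) + 1) := by
          rw [Finset.sum_const, nsmul_eq_mul]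
      _ ≤ _ := by
          apply mul_le_mul_of_nonneg_right _ (by positivity)
          linarith
  have hfin : (S.card : ℝ) * (1 + D) ≤ ((B + 3) * (B + 2) : ℝ) * N := by
    have h1 : (2 * ((B : ℝ) * N / (4 * D)) + 1) * (1 + D) ≤ (B + 2) * N := by
      have h2 : (1 + D : ℝ) ≤ 2 * D := by linarith
      have h3 : (D : ℝ) ≤ N := by exact_mod_cast hDN
      calc (2 * ((B : ℝ) * N / (4 * D)) + 1) * (1 + D) ≤
          (2 * ((B : ℝ) * N / (4 * D)) + 1) * (2 * D) := by gcongr
        _ = B * N + 2 * D := by field_simp; ring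
        _ ≤ _ := by nlinarith
    calc (S.card : ℝ) * (1 + D) ≤ ((B + 3) * (2 * ((B : ℝ) * N / (4 * D)) + 1)) * (1 + D) := by
          gcongr
      _ = (B + 3) * ((2 * ((B : ℝ) * N / (4 * D)) + 1) * (1 + D)) := by ring
      _ ≤ (B + 3) * ((B + 2) * N) := by gcongr
      _ = _ := by ring
  exact_mod_cast hfin

end Q217.PR
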