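import Pool.Agent.Q217.PR.Str

/-! The truncated masses are primitive recursive. -/

set_option autoImplicit false

namespace Q217.PR

open Pool.Agent.Helper227

/-- one entry of the next table -/
def ent (L : List ℕ) (m w1 w2 p : ℕ) : ℕ :=
  min m (L.getD ((2 * (p / w1)) * w2 + 2 * (p % w1)) 0 +
    L.getD ((2 * (p / w1)) * w2 + (2 * (p % w1) + 1)) 0 +
    L.getD ((2 * (p / w1) + 1) * w2 + 2 * (p % w1)) 0 +
    L.getD ((2 * (p / w1) + 1) * w2 + (2 * (p % w1) + 1)) 0)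

/-- the next table -/
def nxt (L : List ℕ) (m w1 w2 : ℕ) : List ℕ := (List.range (w1 * w1)).map fun p => ent L m w1 w2 p

/-- the table of the values of `cc` at depth `e` for all `i, j < n * 2 ^ (D - e)` -/
def tab (g : ℕ → ℕ) (F : ℕ → ℕ → ℕ) (D n : ℕ) : ℕ → List ℕ
  | 0 => (List.range ((n * 2 ^ D) * (n * 2 ^ D))).map fun p => F (p / (n * 2 ^ D)) (p % (n * 2 ^ D))
  | e + 1 => nxt (tab g F D n e) (g (e + 1)) (n * 2 ^ (D - (e + 1))) (n * 2 ^ (D - e))

theorem getD_map_range (f : ℕ → ℕ) {N p : ℕ} (h : p < N) :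
    ((List.range N).map f).getD p 0 = f p := by
  simp [List.getD, h]

theorem idx_lt {w i j : ℕ} (hi : i < w) (hj : j < w) : i * w + j < w * w := by nlinarith

theorem tab_spec (g : ℕ → ℕ) (F : ℕ → ℕ → ℕ) (D n : ℕ) : ∀ e ≤ D, ∀ i j, i < n * 2 ^ (D - e) →
    j < n * 2 ^ (D - e) → (tab g F D n e).getD (i * (n * 2 ^ (D - e)) + j) 0 = cc g F e i j := by
  intro e
  induction e with
  | zero =>
    intro _ i j hi hj
    rw [Nat.sub_zero] at hi hj ⊢
    unfold tab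
    rw [getD_map_range _ (idx_lt hi hj)]
    have hpos : 0 < n * 2 ^ D := by omega
    rw [Nat.add_comm, Nat.add_mul_div_right _ _ hpos, Nat.add_mul_mod_self_right,
      Nat.div_eq_of_lt hj, Nat.mod_eq_of_lt hj, Nat.zero_add]
    rfl
  | succ e ih =>
    intro he i j hi hj
    unfold tab nxt
    rw [getD_map_range _ (idx_lt hi hj)]
    unfold ent
    have hpos : 0 < n * 2 ^ (D - (e + 1)) := by omega
    rw [Nat.add_comm (i * _), Nat.add_mul_div_right _ _ hpos, Nat.add_mul_mod_self_right,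
      Nat.div_eq_of_lt hj, Nat.mod_eq_of_lt hj, Nat.zero_add]
    have hw : n * 2 ^ (D - e) = 2 * (n * 2 ^ (D - (e + 1))) := by
      have : D - e = (D - (e + 1)) + 1 := by omega
      rw [this, pow_succ]; ring
    have hle : e ≤ D := by omega
    rw [ih hle (2 * i) (2 * j) (by omega) (by omega), ih hle (2 * i) (2 * j + 1) (by omega)
      (by omega), ih hle (2 * i + 1) (2 * j) (by omega) (by omega),
      ih hle (2 * i + 1) (2 * j + 1) (by omega) (by omega)]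
    rfl

theorem cc_eq_tab (g : ℕ → ℕ) (F : ℕ → ℕ → ℕ) (d i j : ℕ) :
    cc g F d i j = (tab g F d (max i j + 1) d).getD (i * (max i j + 1) + j) 0 := by
  have h := tab_spec g F d (max i j + 1) d le_rfl i j (by rw [Nat.sub_self, pow_zero]; omega)
    (by rw [Nat.sub_self, pow_zero]; omega)
  rw [Nat.sub_self, pow_zero, mul_one] at h
  exact h.symm

theorem primrec_ent {α : Type*} [Primcodable α] {L : α → List ℕ} {m w1 w2 p : α → ℕ}
    (hL : Primrec L) (hm : Primrec m) (h1 : Primrec w1) (h2 : Primrec w2) (hp : Primrec p) :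
    Primrec fun x => ent (L x) (m x) (w1 x) (w2 x) (p x) := by
  have hi : Primrec fun x => 2 * (p x / w1 x) :=
    Primrec.nat_mul.comp (Primrec.const 2) (Primrec.nat_div.comp hp h1)
  have hj : Primrec fun x => 2 * (p x % w1 x) :=
    Primrec.nat_mul.comp (Primrec.const 2) (Primrec.nat_mod.comp hp h1)
  have hi' : Primrec fun x => 2 * (p x / w1 x) + 1 := Primrec.succ.comp hi
  have hj' : Primrec fun x => 2 * (p x % w1 x) + 1 := Primrec.succ.comp hj
  have hget : ∀ f : α → ℕ, Primrec f → Primrec fun x => (L x).getD (f x) 0 :=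
    fun f hf => (Primrec.list_getD 0).comp hL hf
  have e1 := hget (fun x => (2 * (p x / w1 x)) * w2 x + 2 * (p x % w1 x))
    (Primrec.nat_add.comp (Primrec.nat_mul.comp hi h2) hj)
  have e2 := hget (fun x => (2 * (p x / w1 x)) * w2 x + (2 * (p x % w1 x) + 1))
    (Primrec.nat_add.comp (Primrec.nat_mul.comp hi h2) hj')
  have e3 := hget (fun x => (2 * (p x / w1 x) + 1) * w2 x + 2 * (p x % w1 x))
    (Primrec.nat_add.comp (Primrec.nat_mul.comp hi' h2) hj)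
  have e4 := hget (fun x => (2 * (p x / w1 x) + 1) * w2 x + (2 * (p x % w1 x) + 1))
    (Primrec.nat_add.comp (Primrec.nat_mul.comp hi' h2) hj')
  exact Primrec.nat_min.comp hm (Primrec.nat_add.comp (Primrec.nat_add.comp
    (Primrec.nat_add.comp e1 e2) e3) e4)

theorem primrec_nxt {α : Type*} [Primcodable α] {L : α → List ℕ} {m w1 w2 : α → ℕ}
    (hL : Primrec L) (hm : Primrec m) (h1 : Primrec w1) (h2 : Primrec w2) :
    Primrec fun x => nxt (L x) (m x) (w1 x) (w2 x) := by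
  unfold nxt
  have h : Primrec₂ fun (x : α) (p : ℕ) => ent (L x) (m x) (w1 x) (w2 x) p :=
    primrec_ent (hL.comp Primrec.fst) (hm.comp Primrec.fst) (h1.comp Primrec.fst)
      (h2.comp Primrec.fst) Primrec.snd
  exact Primrec.list_map (Primrec.list_range.comp (Primrec.nat_mul.comp h1 h1)) h

theorem primrec_tab {g : ℕ → ℕ → ℕ} {F : ℕ → ℕ → ℕ → ℕ} (hg : Primrec₂ g)
    (hF : Primrec fun z : ℕ × ℕ × ℕ => F z.1 z.2.1 z.2.2) :
    Primrec₂ fun (z : ℕ × ℕ × ℕ) (e : ℕ) => tab (g z.1) (F z.1) z.2.1 z.2.2 e := by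
  have hz : Primrec fun z : ℕ × ℕ × ℕ => z.1 := Primrec.fst
  have hD : Primrec fun z : ℕ × ℕ × ℕ => z.2.1 := Primrec.fst.comp Primrec.snd
  have hn : Primrec fun z : ℕ × ℕ × ℕ => z.2.2 := Primrec.snd.comp Primrec.snd
  have hw0 : Primrec fun z : ℕ × ℕ × ℕ => z.2.2 * 2 ^ z.2.1 :=
    Primrec.nat_mul.comp hn (primrec_two_pow.comp hD)
  have hbase : Primrec fun z : ℕ × ℕ × ℕ => tab (g z.1) (F z.1) z.2.1 z.2.2 0 := by
    unfold tab
    have hp : Primrec fun y : (ℕ × ℕ × ℕ) × ℕ => y.2 := Primrec.snd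
    have hw : Primrec fun y : (ℕ × ℕ × ℕ) × ℕ => y.1.2.2 * 2 ^ y.1.2.1 := hw0.comp Primrec.fst
    have h : Primrec₂ fun (z : ℕ × ℕ × ℕ) (p : ℕ) =>
        F z.1 (p / (z.2.2 * 2 ^ z.2.1)) (p % (z.2.2 * 2 ^ z.2.1)) :=
      hF.comp ((hz.comp Primrec.fst).pair ((Primrec.nat_div.comp hp hw).pair
        (Primrec.nat_mod.comp hp hw)))
    exact Primrec.list_map (Primrec.list_range.comp (Primrec.nat_mul.comp hw0 hw0)) h
  have hstep : Primrec₂ fun (z : ℕ × ℕ × ℕ) (q : ℕ × List ℕ) =>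
      nxt q.2 (g z.1 (q.1 + 1)) (z.2.2 * 2 ^ (z.2.1 - (q.1 + 1))) (z.2.2 * 2 ^ (z.2.1 - q.1)) := by
    have hq1 : Primrec fun y : (ℕ × ℕ × ℕ) × (ℕ × List ℕ) => y.2.1 := Primrec.fst.comp Primrec.snd
    have hw1 : Primrec fun y : (ℕ × ℕ × ℕ) × (ℕ × List ℕ) =>
        y.1.2.2 * 2 ^ (y.1.2.1 - (y.2.1 + 1)) :=
      Primrec.nat_mul.comp (hn.comp Primrec.fst) (primrec_two_pow.comp (Primrec.nat_sub.comp
        (hD.comp Primrec.fst) (Primrec.succ.comp hq1)))
    have hw2 : Primrec fun y : (ℕ × ℕ × ℕ) × (ℕ × List ℕ) => y.1.2.2 * 2 ^ (y.1.2.1 - y.2.1) :=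
      Primrec.nat_mul.comp (hn.comp Primrec.fst) (primrec_two_pow.comp (Primrec.nat_sub.comp
        (hD.comp Primrec.fst) hq1))
    exact primrec_nxt (Primrec.snd.comp Primrec.snd) (hg.comp (hz.comp Primrec.fst)
      (Primrec.succ.comp hq1)) hw1 hw2
  refine (Primrec.nat_rec hbase hstep).of_eq fun z e => ?_
  induction e with
  | zero => rfl
  | succ e ih =>
    change nxt (Nat.rec (tab (g z.1) (F z.1) z.2.1 z.2.2 0) (fun n IH =>
      nxt IH (g z.1 (n + 1)) (z.2.2 * 2 ^ (z.2.1 - (n + 1))) (z.2.2 * 2 ^ (z.2.1 - n))) e)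
      (g z.1 (e + 1)) _ _ = _
    rw [ih]
    rfl

theorem prim : PrimStm := by
  intro g F hg hF
  have hz : Primrec fun z : ℕ × ℕ × ℕ × ℕ => z.1 := Primrec.fst
  have hd : Primrec fun z : ℕ × ℕ × ℕ × ℕ => z.2.1 := Primrec.fst.comp Primrec.snd
  have hi : Primrec fun z : ℕ × ℕ × ℕ × ℕ => z.2.2.1 :=
    Primrec.fst.comp (Primrec.snd.comp Primrec.snd)
  have hj : Primrec fun z : ℕ × ℕ × ℕ × ℕ => z.2.2.2 :=
    Primrec.snd.comp (Primrec.snd.comp Primrec.snd)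
  have hm : Primrec fun z : ℕ × ℕ × ℕ × ℕ => max z.2.2.1 z.2.2.2 + 1 :=
    Primrec.succ.comp (Primrec.nat_max.comp hi hj)
  refine Primrec.of_eq (f := fun z : ℕ × ℕ × ℕ × ℕ =>
    (tab (g z.1) (F z.1) z.2.1 (max z.2.2.1 z.2.2.2 + 1) z.2.1).getD
      (z.2.2.1 * (max z.2.2.1 z.2.2.2 + 1) + z.2.2.2) 0) ?_ (fun z => (cc_eq_tab _ _ _ _ _).symm)
  have h1 : Primrec fun z : ℕ × ℕ × ℕ × ℕ =>
      tab (g z.1) (F z.1) z.2.1 (max z.2.2.1 z.2.2.2 + 1) z.2.1 :=
    (primrec_tab hg hF).comp (hz.pair (hd.pair hm)) hd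
  exact (Primrec.list_getD 0).comp h1 (Primrec.nat_add.comp (Primrec.nat_mul.comp hi hm) hj)

end Q217.PR
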