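import Pool.Agent.Q217.PR.Hit

/-! A test relative to the point: random directions do not see light squares. -/

set_option autoImplicit false

namespace Q217.PR

open Pool.Agent.Helper227 MeasureTheory
open scoped ENNReal

/-- the index of the dyadic interval of level `l` containing the fractional part of `t` -/
noncomputable def fl (t : ℝ) (l : ℕ) : ℕ := ⌊Int.fract t * 2 ^ l⌋₊

theorem fl_lt (t : ℝ) (l : ℕ) : fl t l < 2 ^ l := by
  unfold fl
  rw [Nat.floor_lt (mul_nonneg (Int.fract_nonneg t) (by positivity))]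
  push_cast
  have := Int.fract_lt_one t
  nlinarith [pow_pos (by norm_num : (0 : ℝ) < 2) l]

theorem pre_fl (t : ℝ) (l : ℕ) : pre (bin t) l = bs l (fl t l) := pre_bin t l

theorem val_pre (t : ℝ) (l : ℕ) : val (pre (bin t) l) = fl t l := by
  rw [pre_fl, val_bs, Nat.mod_eq_of_lt (fl_lt t l)]

theorem val_pre_succ (X : ℕ → Bool) (l : ℕ) : val (pre X (l + 1)) / 2 = val (pre X l) := by
  rw [pre_succ, val_snoc]
  have := Bool.toNat_le (X l)
  omega

theorem fl_succ (t : ℝ) (l : ℕ) : fl t (l + 1) / 2 = fl t l := by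
  rw [← val_pre, ← val_pre, val_pre_succ]

theorem fl_div (t : ℝ) {l l' : ℕ} (h : l ≤ l') : fl t l' / 2 ^ (l' - l) = fl t l := by
  induction l', h using Nat.le_induction with
  | base => simp
  | succ n hn ih =>
    have e : n + 1 - l = 1 + (n - l) := by omega
    rw [e, pow_add, pow_one, ← Nat.div_div_eq_div_mul, fl_succ, ih]

/-- the digits of a string at the positions `2 i + e`, `i < l` -/
def par (e l : ℕ) (σ : List Bool) : List Bool := (List.range l).map fun i => σ.getD (2 * i + e) false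

theorem par_pre {X Y : ℕ → Bool} {s l : ℕ} (h : 2 * l ≤ s) :
    par 0 l (pre (join X Y) s) = pre X l ∧ par 1 l (pre (join X Y) s) = pre Y l := by
  constructor
  · unfold par pre
    apply List.map_congr_left
    intro i hi
    rw [List.mem_range] at hi
    change (pre (join X Y) s).getD _ _ = _
    rw [pre_getD _ _ _ _ (by omega)]
    unfold join
    rw [if_pos (by omega)]
    congr 1
    omega
  · unfold par pre
    apply List.map_congr_left
    intro i hi
    rw [List.mem_range] at hi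
    change (pre (join X Y) s).getD _ _ = _
    rw [pre_getD _ _ _ _ (by omega)]
    unfold join
    rw [if_neg (by omega)]
    congr 1
    omega

theorem primrec_par (e : ℕ) : Primrec₂ (par e) := by
  unfold par
  refine Primrec.list_map (Primrec.list_range.comp Primrec.fst) ?_
  exact (Primrec.list_getD false).comp (Primrec.snd.comp Primrec.fst)
    (Primrec.nat_add.comp (Primrec.nat_mul.comp (Primrec.const 2) Primrec.snd) (Primrec.const e))

/-- the test relative to the point -/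
def TA (Q : List Bool × ℕ × List Bool → ℕ → Prop) (a : ℕ → ℕ → ℕ → ℕ → ℕ) (C m₀ : ℕ)
    (x : List Bool × ℕ × List Bool) : Prop :=
  2 * x.2.2.length ≤ x.1.length ∧
    Hit Q a C x.2.2.length (8 * (x.2.1 + m₀)) (val x.2.2) (val (par 0 x.2.2.length x.1))
      (val (par 1 x.2.2.length x.1))

theorem s1_TA {Q : List Bool × ℕ × List Bool → ℕ → Prop} (hQ : PrimrecRel Q)
    {a : ℕ → ℕ → ℕ → ℕ → ℕ}
    (ha : Primrec fun z : ℕ × ℕ × ℕ × ℕ => a z.1 z.2.1 z.2.2.1 z.2.2.2) (C m₀ : ℕ) :
    S1 (TA Q a C m₀) := by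
  apply S1.of_prim
  unfold TA
  have hσ : Primrec fun x : List Bool × ℕ × List Bool => x.1 := Primrec.fst
  have hτ : Primrec fun x : List Bool × ℕ × List Bool => x.2.2 := Primrec.snd.comp Primrec.snd
  have hn : Primrec fun x : List Bool × ℕ × List Bool => x.2.1 := Primrec.fst.comp Primrec.snd
  have hl : Primrec fun x : List Bool × ℕ × List Bool => x.2.2.length :=
    Primrec.list_length.comp hτ
  refine PrimrecPred.and (Primrec.nat_le.comp (Primrec.nat_mul.comp (Primrec.const 2) hl)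
    (Primrec.list_length.comp hσ)) ?_
  have h8 : Primrec fun x : List Bool × ℕ × List Bool => 8 * (x.2.1 + m₀) :=
    Primrec.nat_mul.comp (Primrec.const 8) (Primrec.nat_add.comp hn (Primrec.const m₀))
  have hv : Primrec fun x : List Bool × ℕ × List Bool => val x.2.2 := primrec_val.comp hτ
  have hp : ∀ e, Primrec fun x : List Bool × ℕ × List Bool => val (par e x.2.2.length x.1) :=
    fun e => primrec_val.comp ((primrec_par e).comp hl hσ)
  exact (primrec_Hit hQ ha C).comp (hl.pair (h8.pair (hv.pair ((hp 0).pair (hp 1)))))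

theorem UE_TA (Q : List Bool × ℕ × List Bool → ℕ → Prop) (a : ℕ → ℕ → ℕ → ℕ → ℕ) (C m₀ : ℕ)
    (x₁ x₂ : ℝ) (n : ℕ) : UE (TA Q a C m₀) (join (bin x₁) (bin x₂)) n =
      ⋃ t : ℕ, {Z | Hit Q a C t (8 * (n + m₀)) (val (pre Z t)) (fl x₁ t) (fl x₂ t)} := by
  ext Z
  simp only [UE, TA, Set.mem_ofPred_eq, Set.mem_iUnion, length_pre]
  constructor
  · rintro ⟨s, t, h1, h2⟩
    rw [(par_pre h1).1, (par_pre h1).2, val_pre, val_pre] at h2
    exact ⟨t, h2⟩
  · rintro ⟨t, h⟩
    refine ⟨2 * t, t, le_rfl, ?_⟩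
    rw [(par_pre le_rfl).1, (par_pre le_rfl).2, val_pre, val_pre]
    exact h

/-- Random directions see heavy squares. -/
theorem exists_heavy {Q : List Bool × ℕ × List Bool → ℕ → Prop} (hQ : PrimrecRel Q)
    (hmono : ∀ a m n, m ≤ n → Q a m → Q a n) {p₁ p₂ : ℤ} {a : ℕ → ℕ → ℕ → ℕ → ℕ} {C R : ℕ}
    (ha : Primrec fun z : ℕ × ℕ × ℕ × ℕ => a z.1 z.2.1 z.2.2.1 z.2.2.2)
    (hA : IsApprox p₁ p₂ a C R) {x₁ x₂ θ : ℝ}
    (hR : MLR (join (bin x₁) (bin x₂)) (bin θ))
    (hhit : ∀ n, ∃ l, Hit Q a C l n (fl θ l) (fl x₁ l) (fl x₂ l)) (m₀ : ℕ) :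
    ∃ m ≥ m₀, ∃ l, Hv (Hit Q a C) m l (fl x₁ l) (fl x₂ l) = 1 := by
  classical
  by_contra hcon
  push Not at hcon
  -- the test
  have hmeas : ∀ n, lam (UE (TA Q a C m₀) (join (bin x₁) (bin x₂)) n) ≤ (1 / 2) ^ n := by
    intro n
    rw [UE_TA]
    have hmon : Monotone fun t : ℕ =>
        {Z : ℕ → Bool | Hit Q a C t (8 * (n + m₀)) (val (pre Z t)) (fl x₁ t) (fl x₂ t)} := by
      apply monotone_nat_of_le_succ
      intro t Z hZ
      simp only [Set.mem_ofPred_eq] at hZ ⊢
      have hlt := val_lt (pre Z t)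
      rw [length_pre] at hlt
      exact Hit.child hmono hA hlt (val_pre_succ Z t) (fl_succ x₁ t) (fl_succ x₂ t) hZ
    rw [hmon.measure_iUnion]
    apply iSup_le
    intro t
    set S := (Finset.range (2 ^ t)).filter
      fun k => Hit Q a C t (8 * (n + m₀)) k (fl x₁ t) (fl x₂ t) with hS
    have hG := lam_finset (S.image (bs t)) t (by
      intro σ hσ
      rw [Finset.mem_image] at hσ
      obtain ⟨v, _, rfl⟩ := hσ
      simp)
    have hinj : Set.InjOn (bs t) (S : Set ℕ) := by
      intro v hv v' hv' h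
      have h2 := congrArg val h
      rw [hS, Finset.mem_coe, Finset.mem_filter, Finset.mem_range] at hv hv'
      rw [val_bs, val_bs, Nat.mod_eq_of_lt hv.1, Nat.mod_eq_of_lt hv'.1] at h2
      exact h2
    rw [Finset.card_image_of_injOn hinj] at hG
    have hsub : {Z : ℕ → Bool | Hit Q a C t (8 * (n + m₀)) (val (pre Z t)) (fl x₁ t)
        (fl x₂ t)} ⊆ {X : ℕ → Bool | pre X t ∈ S.image (bs t)} := by
      intro Z hZ
      simp only [Set.mem_ofPred_eq, Finset.mem_image] at hZ ⊢
      have hlt := val_lt (pre Z t)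
      rw [length_pre] at hlt
      refine ⟨val (pre Z t), ?_, ?_⟩
      · rw [hS, Finset.mem_filter, Finset.mem_range]
        exact ⟨hlt, hZ⟩
      · have := bs_val (pre Z t)
        rwa [length_pre] at this
    refine (measure_mono hsub).trans ?_
    rw [hG, ennreal_aux]
    have h1 := hcon (n + m₀) (by omega) t
    unfold Hv at h1
    have h2 : ¬ 2 ^ t < 2 ^ (n + m₀) * S.card := by
      intro hc
      rw [if_pos hc] at h1
      exact h1 rfl
    push Not at h2
    calc S.card * 2 ^ n ≤ S.card * 2 ^ (n + m₀) :=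
          Nat.mul_le_mul_left _ (Nat.pow_le_pow_right (by norm_num) (by omega))
      _ ≤ 2 ^ t := by rw [mul_comm]; exact h2
  have htest := isMLTest_of_E (s1_TA hQ ha C m₀) hmeas
  have h1 := hR _ htest
  apply h1
  rw [Set.mem_iInter]
  intro n
  rw [UE_TA, Set.mem_iUnion]
  obtain ⟨l, hl⟩ := hhit (8 * (n + m₀))
  refine ⟨l, ?_⟩
  simp only [Set.mem_ofPred_eq]
  rw [val_pre]
  exact hl

/-- heavy squares are enumerated together with an ancestor -/
theorem exists_En {b : ℕ} {F : ℕ → ℕ → ℕ → ℕ} {x₁ x₂ : ℝ} {l : ℕ}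
    (h : F l (fl x₁ l) (fl x₂ l) = 1) : ∃ J l', En b F l' J (fl x₁ J) (fl x₂ J) := by
  classical
  have h0 : ∃ J, ∃ l', Sat b F l' J (fl x₁ J) (fl x₂ J) := by
    refine ⟨l, l, le_rfl, ?_⟩
    rw [cl_self, h, Nat.sub_self, pow_zero]
  have h1 := Nat.find_spec h0
  refine ⟨Nat.find h0, Nat.find h1, Nat.find_spec h1, ?_, ?_⟩
  · intro L hL hs
    rw [fl_div x₁ hL.le, fl_div x₂ hL.le] at hs
    exact Nat.find_min h0 hL ⟨_, hs⟩
  · intro l' hl'
    exact Nat.find_min h1 hl'

end Q217.PR
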