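import Pool.Agent.Q217.PR.Req
import Pool.Agent.Q217.PR.TestA
import Pool.Agent.Q217.PR.Kernel
import Pool.Agent.Q217.PR.Approx2
import Pool.Agent.Q217.PR.Prim

/-! The main argument. -/

set_option autoImplicit false

namespace Q217.PR

open Pool.Agent.Helper227 Q217.KT

theorem fl_le (t : ℝ) (l : ℕ) : (fl t l : ℝ) / 2 ^ l ≤ Int.fract t ∧
    Int.fract t ≤ ((fl t l : ℝ) + 1) / 2 ^ l := by
  have hP : (0 : ℝ) < 2 ^ l := by positivity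
  have h0 : 0 ≤ Int.fract t * 2 ^ l := mul_nonneg (Int.fract_nonneg t) hP.le
  constructor
  · rw [div_le_iff₀ hP]; exact Nat.floor_le h0
  · rw [le_div_iff₀ hP]; exact (Nat.lt_floor_add_one _).le

theorem cos_fract (θ : ℝ) : Real.cos (2 * Real.pi * Int.fract θ) = Real.cos (2 * Real.pi * θ) := by
  have e : 2 * Real.pi * Int.fract θ = 2 * Real.pi * θ - ⌊θ⌋ * (2 * Real.pi) := by
    unfold Int.fract; ring
  rw [e, Real.cos_sub_int_mul_two_pi]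

theorem sin_fract (θ : ℝ) : Real.sin (2 * Real.pi * Int.fract θ) = Real.sin (2 * Real.pi * θ) := by
  have e : 2 * Real.pi * Int.fract θ = 2 * Real.pi * θ - ⌊θ⌋ * (2 * Real.pi) := by
    unfold Int.fract; ring
  rw [e, Real.sin_sub_int_mul_two_pi]

/-- the projection of the point `(x₁, x₂)` in the direction `θ` -/
noncomputable def pj (θ x₁ x₂ : ℝ) : ℝ :=
  Real.cos (2 * Real.pi * θ) * x₁ + Real.sin (2 * Real.pi * θ) * x₂

theorem approx_point {x₁ x₂ : ℝ} {a : ℕ → ℕ → ℕ → ℕ → ℕ} {C R : ℕ}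
    (hA : IsApprox ⌊x₁⌋ ⌊x₂⌋ a C R) (θ : ℝ) (l : ℕ) :
    |pj θ x₁ x₂ + R - (a l (fl θ l) (fl x₁ l) (fl x₂ l) : ℝ) / 2 ^ l| ≤ (C : ℝ) / 2 ^ l := by
  have h := hA l (fl θ l) (fl x₁ l) (fl x₂ l) (fl_lt _ _) (fl_lt _ _) (fl_lt _ _) (Int.fract θ)
    (Int.fract x₁) (Int.fract x₂) (fl_le _ _).1 (fl_le _ _).2 (fl_le _ _).1 (fl_le _ _).2
    (fl_le _ _).1 (fl_le _ _).2
  rw [cos_fract, sin_fract, Int.floor_add_fract, Int.floor_add_fract] at h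
  exact h

/-- the projection is seen by the squares of the point -/
theorem exists_hit {E : List Bool × ℕ × List Bool → Prop}
    {Q : List Bool × ℕ × List Bool → ℕ → Prop} (hQ : ∀ a m n, m ≤ n → Q a m → Q a n)
    (hE : ∀ x, E x ↔ ∃ n, Q x n) {x₁ x₂ θ : ℝ} {a : ℕ → ℕ → ℕ → ℕ → ℕ} {C R : ℕ}
    (hA : IsApprox ⌊x₁⌋ ⌊x₂⌋ a C R) {n s t : ℕ} {δ : ℝ} (hδ : 0 < δ)
    (hnear : ∀ (R : ℕ) (y : ℝ), 0 ≤ y → |y - (pj θ x₁ x₂ + R)| < δ →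
      E (pre (bin θ) s, n, bs t ⌊y * 2 ^ t⌋₊)) :
    ∃ l, Hit Q a C l n (fl θ l) (fl x₁ l) (fl x₂ l) := by
  classical
  -- a stage
  obtain ⟨r, hr⟩ : ∃ r, ∀ c < 2 ^ t, E (pre (bin θ) s, n, bs t c) →
      Q (pre (bin θ) s, n, bs t c) r := by
    have h1 : ∀ c, ∃ r, E (pre (bin θ) s, n, bs t c) → Q (pre (bin θ) s, n, bs t c) r := by
      intro c
      by_cases h : E (pre (bin θ) s, n, bs t c)
      · obtain ⟨r, hr⟩ := (hE _).1 h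
        exact ⟨r, fun _ => hr⟩
      · exact ⟨0, fun h' => absurd h' h⟩
    choose f hf using h1
    refine ⟨∑ c ∈ Finset.range (2 ^ t), f c, fun c hc h => hQ _ _ _ ?_ (hf c h)⟩
    exact Finset.single_le_sum (f := f) (fun _ _ => Nat.zero_le _) (Finset.mem_range.2 hc)
  obtain ⟨l₀, hl₀⟩ : ∃ l₀ : ℕ, (4 * C + 1 : ℝ) / 2 ^ l₀ < δ := by
    obtain ⟨l₀, h⟩ := pow_unbounded_of_one_lt ((4 * C + 1) / δ) (by norm_num : (1 : ℝ) < 2)
    refine ⟨l₀, ?_⟩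
    rw [div_lt_iff₀ hδ] at h
    rw [div_lt_iff₀ (by positivity)]
    linarith
  refine ⟨l₀ + s + t + r, ?_⟩
  set l := l₀ + s + t + r with hl
  have hP : (0 : ℝ) < 2 ^ l := by positivity
  have hap := approx_point hA θ l
  refine ⟨⟨fl_lt _ _, fl_lt _ _⟩, fun w hw => ?_⟩
  set u := a l (fl θ l) (fl x₁ l) (fl x₂ l) + w + (3 * C * 2 ^ l - 3 * C) with hu
  have hC : 3 * C ≤ 3 * C * 2 ^ l := Nat.le_mul_of_pos_right _ (by positivity)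
  have huR : (u : ℝ) = a l (fl θ l) (fl x₁ l) (fl x₂ l) + w + 3 * C * 2 ^ l - 3 * C := by
    have : u + 3 * C = a l (fl θ l) (fl x₁ l) (fl x₂ l) + w + 3 * C * 2 ^ l := by omega
    have h2 : ((u + 3 * C : ℕ) : ℝ) =
        ((a l (fl θ l) (fl x₁ l) (fl x₂ l) + w + 3 * C * 2 ^ l : ℕ) : ℝ) := by rw [this]
    push_cast at h2
    linarith
  have hdist : |(u : ℝ) / 2 ^ l - (pj θ x₁ x₂ + ((R + 3 * C : ℕ) : ℝ))| < δ := by
    have e : (u : ℝ) / 2 ^ l - (pj θ x₁ x₂ + ((R + 3 * C : ℕ) : ℝ)) =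
        -(pj θ x₁ x₂ + R - (a l (fl θ l) (fl x₁ l) (fl x₂ l) : ℝ) / 2 ^ l) +
          ((w : ℝ) - 3 * C) / 2 ^ l := by
      rw [huR]
      push_cast
      field_simp
      ring
    rw [e]
    have h1 : |((w : ℝ) - 3 * C) / 2 ^ l| ≤ (3 * C : ℝ) / 2 ^ l := by
      rw [abs_div, abs_of_pos hP]
      apply div_le_div_of_nonneg_right _ hP.le
      have hw' : (w : ℝ) ≤ 2 * (3 * C) := by exact_mod_cast (by omega : w ≤ 2 * (3 * C))
      rw [abs_le]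
      constructor <;> [skip; linarith]
      have : (0 : ℝ) ≤ w := Nat.cast_nonneg w
      linarith
    refine (abs_add_le _ _).trans_lt ?_
    rw [abs_neg]
    have h2 : (C : ℝ) / 2 ^ l + (3 * C : ℝ) / 2 ^ l < δ := by
      rw [← add_div]
      refine lt_of_le_of_lt ?_ hl₀
      have h3 : (2 : ℝ) ^ l₀ ≤ 2 ^ l := pow_le_pow_right₀ (by norm_num) (by omega)
      apply div_le_div₀ (by positivity) (by linarith) (by positivity) h3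
    linarith
  have hEu := hnear (R + 3 * C) ((u : ℝ) / 2 ^ l) (by positivity) hdist
  have hfl : ⌊(u : ℝ) / 2 ^ l * 2 ^ t⌋₊ = u / 2 ^ (l - t) := by
    rw [← Nat.floor_div_eq_div (K := ℝ)]
    congr 1
    have e2 : (2 : ℝ) ^ l = 2 ^ t * 2 ^ (l - t) := by
      rw [← pow_add]; congr 1; omega
    rw [e2]
    push_cast
    field_simp
  rw [hfl] at hEu
  refine ⟨s, by rw [length_bs]; omega, t, by rw [length_bs]; omega, ?_⟩
  have e1 : (bs l (fl θ l)).take s = pre (bin θ) s := by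
    rw [← pre_fl, take_pre _ _ _ (by omega)]
  have e2 : (bs l u).take t = bs t (u / 2 ^ (l - t)) := take_bs (by omega) u
  rw [e1, e2, ← bs_mod t (u / 2 ^ (l - t))]
  apply hQ _ r _ (by omega)
  apply hr _ (Nat.mod_lt _ (by positivity))
  rw [bs_mod]
  exact hEu

theorem kerCond {p₁ p₂ : ℤ} {a : ℕ → ℕ → ℕ → ℕ → ℕ} {C R : ℕ} (hA : IsApprox p₁ p₂ a C R) :
    ∃ CK, KerCond a CK := by
  classical
  obtain ⟨CK, hCK⟩ := kernel (2 * C)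
  refine ⟨CK, fun l x y x' y' hx hy hx' hy' => ?_⟩
  have h := hCK (2 ^ l) Nat.one_le_two_pow ((x : ℤ) - x') ((y : ℤ) - y')
    (by push_cast; rw [abs_le]; constructor <;> [skip; skip] <;> (zify at hx hx'; linarith))
    (by push_cast; rw [abs_le]; constructor <;> [skip; skip] <;> (zify at hy hy'; linarith))
  have hd : dst x y x' y' = max ((x : ℤ) - x').natAbs ((y : ℤ) - y').natAbs := by
    unfold dst
    congr 1 <;> omega
  rw [hd]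
  refine (Nat.mul_le_mul_right _ (Finset.card_le_card ?_)).trans h
  intro k hk
  rw [Finset.mem_filter] at hk ⊢
  refine ⟨hk.1, ?_⟩
  have hk2 := Finset.mem_range.1 hk.1
  have hP : (0 : ℝ) < 2 ^ l := by positivity
  have hself : ∀ v : ℕ, (v : ℝ) / 2 ^ l ≤ ((v : ℝ) + 1) / 2 ^ l := by
    intro v
    gcongr
    linarith
  have h1 := hA l k x y hk2 hx hy ((k : ℝ) / 2 ^ l) ((x : ℝ) / 2 ^ l) ((y : ℝ) / 2 ^ l)
    le_rfl (hself _) le_rfl (hself _) le_rfl (hself _)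
  have h2 := hA l k x' y' hk2 hx' hy' ((k : ℝ) / 2 ^ l) ((x' : ℝ) / 2 ^ l) ((y' : ℝ) / 2 ^ l)
    le_rfl (hself _) le_rfl (hself _) le_rfl (hself _)
  rw [← hk.2] at h2
  push_cast
  have h3 := abs_sub (Real.cos (2 * Real.pi * ((k : ℝ) / 2 ^ l)) * (p₁ + (x : ℝ) / 2 ^ l) +
    Real.sin (2 * Real.pi * ((k : ℝ) / 2 ^ l)) * (p₂ + (y : ℝ) / 2 ^ l) + R -
    (a l k x y : ℝ) / 2 ^ l) (Real.cos (2 * Real.pi * ((k : ℝ) / 2 ^ l)) *
    (p₁ + (x' : ℝ) / 2 ^ l) + Real.sin (2 * Real.pi * ((k : ℝ) / 2 ^ l)) *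
    (p₂ + (y' : ℝ) / 2 ^ l) + R - (a l k x y : ℝ) / 2 ^ l)
  have e : Real.cos (2 * Real.pi * ((k : ℝ) / 2 ^ l)) * ((x : ℝ) - x') +
      Real.sin (2 * Real.pi * ((k : ℝ) / 2 ^ l)) * ((y : ℝ) - y') =
      ((Real.cos (2 * Real.pi * ((k : ℝ) / 2 ^ l)) * (p₁ + (x : ℝ) / 2 ^ l) +
    Real.sin (2 * Real.pi * ((k : ℝ) / 2 ^ l)) * (p₂ + (y : ℝ) / 2 ^ l) + R -
    (a l k x y : ℝ) / 2 ^ l) - (Real.cos (2 * Real.pi * ((k : ℝ) / 2 ^ l)) *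
    (p₁ + (x' : ℝ) / 2 ^ l) + Real.sin (2 * Real.pi * ((k : ℝ) / 2 ^ l)) *
    (p₂ + (y' : ℝ) / 2 ^ l) + R - (a l k x y : ℝ) / 2 ^ l)) * 2 ^ l := by
    field_simp
    ring
  rw [e, abs_mul, abs_of_pos hP, ← le_div_iff₀ hP]
  refine h3.trans ?_
  calc _ ≤ (C : ℝ) / 2 ^ l + (C : ℝ) / 2 ^ l := add_le_add h1 h2
    _ = 2 * C / 2 ^ l := by ring

theorem bound_a {p₁ p₂ : ℤ} {a : ℕ → ℕ → ℕ → ℕ → ℕ} {C R : ℕ} (hA : IsApprox p₁ p₂ a C R) :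
    ∃ R', ∀ l k x y, k < 2 ^ l → x < 2 ^ l → y < 2 ^ l → a l k x y < R' * 2 ^ l := by
  refine ⟨p₁.natAbs + p₂.natAbs + 3 + R + C, fun l k x y hk hx hy => ?_⟩
  have hP : (1 : ℝ) ≤ 2 ^ l := one_le_pow₀ (by norm_num)
  have hP0 : (0 : ℝ) < 2 ^ l := by positivity
  have hself : ∀ v : ℕ, (v : ℝ) / 2 ^ l ≤ ((v : ℝ) + 1) / 2 ^ l := by
    intro v
    gcongr
    linarith
  have h1 := hA l k x y hk hx hy ((k : ℝ) / 2 ^ l) ((x : ℝ) / 2 ^ l) ((y : ℝ) / 2 ^ l)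
    le_rfl (hself _) le_rfl (hself _) le_rfl (hself _)
  have hbd : ∀ (p : ℤ) (x : ℕ), x < 2 ^ l → |(p : ℝ) + (x : ℝ) / 2 ^ l| ≤ p.natAbs + 1 := by
    intro p x hx
    refine (abs_add_le _ _).trans ?_
    have h2 : |(p : ℝ)| = p.natAbs := by rw [Nat.cast_natAbs, Int.cast_abs]
    have h3 : (x : ℝ) / 2 ^ l ≤ 1 := by
      rw [div_le_one hP0]; exact_mod_cast hx.le
    rw [h2, abs_of_nonneg (by positivity : 0 ≤ (x : ℝ) / 2 ^ l)]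
    linarith
  have h2 : |Real.cos (2 * Real.pi * ((k : ℝ) / 2 ^ l)) * (p₁ + (x : ℝ) / 2 ^ l)| ≤
      p₁.natAbs + 1 := by
    rw [abs_mul]
    have := mul_le_mul (Real.abs_cos_le_one (2 * Real.pi * ((k : ℝ) / 2 ^ l))) (hbd p₁ x hx)
      (abs_nonneg _) (by norm_num)
    linarith
  have h3 : |Real.sin (2 * Real.pi * ((k : ℝ) / 2 ^ l)) * (p₂ + (y : ℝ) / 2 ^ l)| ≤
      p₂.natAbs + 1 := by
    rw [abs_mul]
    have := mul_le_mul (Real.abs_sin_le_one (2 * Real.pi * ((k : ℝ) / 2 ^ l))) (hbd p₂ y hy)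
      (abs_nonneg _) (by norm_num)
    linarith
  have h4 : (C : ℝ) / 2 ^ l ≤ C := div_le_self (Nat.cast_nonneg C) hP
  rw [abs_le] at h1 h2 h3
  have h5 : (a l k x y : ℝ) / 2 ^ l < ((p₁.natAbs + p₂.natAbs + 3 + R + C : ℕ) : ℝ) := by
    push_cast
    linarith [h1.1, h2.2, h3.2]
  rw [div_lt_iff₀ hP0] at h5
  exact_mod_cast h5

theorem primrec_Hv {Q : List Bool × ℕ × List Bool → ℕ → Prop} (hQ : PrimrecRel Q)
    {a : ℕ → ℕ → ℕ → ℕ → ℕ}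
    (ha : Primrec fun z : ℕ × ℕ × ℕ × ℕ => a z.1 z.2.1 z.2.2.1 z.2.2.2) (C : ℕ) :
    Primrec fun z : ℕ × ℕ × ℕ × ℕ => Hv (Hit Q a C) z.1 z.2.1 z.2.2.1 z.2.2.2 := by
  classical
  have f1 : Primrec fun z : ℕ × ℕ × ℕ × ℕ => z.1 := Primrec.fst
  have f2 : Primrec fun z : ℕ × ℕ × ℕ × ℕ => z.2.1 := Primrec.fst.comp Primrec.snd
  have f3 : Primrec fun z : ℕ × ℕ × ℕ × ℕ => z.2.2.1 :=
    Primrec.fst.comp (Primrec.snd.comp Primrec.snd)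
  have f4 : Primrec fun z : ℕ × ℕ × ℕ × ℕ => z.2.2.2 :=
    Primrec.snd.comp (Primrec.snd.comp Primrec.snd)
  have hp : PrimrecRel fun (z : ℕ × ℕ × ℕ × ℕ) (k : ℕ) =>
      Hit Q a C z.2.1 (8 * z.1) k z.2.2.1 z.2.2.2 := by
    have h8 : Primrec fun z : ℕ × ℕ × ℕ × ℕ => 8 * z.1 := Primrec.nat_mul.comp (Primrec.const 8) f1
    have h := (primrec_Hit hQ ha C).comp ((f2.comp (Primrec.fst (α := ℕ × ℕ × ℕ × ℕ) (β := ℕ))).pair
      ((h8.comp Primrec.fst).pair (Primrec.snd.pair ((f3.comp Primrec.fst).pair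
        (f4.comp Primrec.fst)))))
    exact h
  have hcard := primrec_card_filter hp (primrec_two_pow.comp f2)
  unfold Hv
  refine Primrec.ite (Primrec.nat_lt.comp (primrec_two_pow.comp f2)
    (Primrec.nat_mul.comp (primrec_two_pow.comp f1) hcard)) (Primrec.const 1) (Primrec.const 0)

theorem Kr_le {U : List Bool →. List Bool} (x₁ x₂ : ℝ) {J : ℕ} (hJ : 1 ≤ J) :
    Kr U x₁ x₂ (J - 1) ≤ cx U (sq ⌊x₁⌋ ⌊x₂⌋ J (fl x₁ J) (fl x₂ J)) := by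
  apply Nat.sInf_le
  refine ⟨(num ⌊x₁⌋ J (fl x₁ J), num ⌊x₂⌋ J (fl x₂ J), 2 ^ J - 1), ?_, rfl⟩
  simp only
  rw [num_eq _ (fl_lt _ _), num_eq _ (fl_lt _ _)]
  have hP : (0 : ℝ) < 2 ^ J := by positivity
  have e0 : ((2 ^ J - 1 : ℕ) : ℝ) + 1 = 2 ^ J := by
    have : (2 ^ J - 1 : ℕ) + 1 = 2 ^ J := Nat.sub_add_cancel Nat.one_le_two_pow
    exact_mod_cast this
  rw [e0]
  have key : ∀ x : ℝ, (((⌊x⌋ * 2 ^ J + (fl x J : ℕ) : ℤ) : ℝ) / 2 ^ J - x) ^ 2 ≤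
      (1 / 2 ^ J) ^ 2 := by
    intro x
    have e1 : ((⌊x⌋ * 2 ^ J + (fl x J : ℕ) : ℤ) : ℝ) / 2 ^ J - x =
        (fl x J : ℝ) / 2 ^ J - Int.fract x := by
      push_cast
      rw [add_div, mul_div_cancel_right₀ _ hP.ne']
      unfold Int.fract
      ring
    rw [e1]
    obtain ⟨h1, h2⟩ := fl_le x J
    rw [add_div] at h2
    apply sq_le_sq'
    · linarith
    · have : 0 < 1 / (2 : ℝ) ^ J := by positivity
      linarith
  have h1 := key x₁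
  have h2 := key x₂
  apply Real.sqrt_le_iff.2
  refine ⟨by positivity, ?_⟩
  have e2 : ((1 / 2 : ℝ) ^ (J - 1)) ^ 2 = 4 * (1 / 2 ^ J) ^ 2 := by
    obtain ⟨k, rfl⟩ : ∃ k, J = k + 1 := ⟨J - 1, by omega⟩
    rw [Nat.add_sub_cancel, one_div_pow, pow_succ (2 : ℝ) k]
    field_simp
    ring
  rw [e2]
  nlinarith [sq_nonneg (1 / (2 : ℝ) ^ J)]

/-- The main argument. -/
theorem core {U : List Bool →. List Bool} (hU : OptimalPrefixFree U) {x₁ x₂ θ : ℝ}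
    (hdim : 1 < edim U x₁ x₂) (hR : MLR (join (bin x₁) (bin x₂)) (bin θ))
    {E : List Bool × ℕ × List Bool → Prop} (hE : S1 E)
    (hlam : ∀ A n, lam (UE E A n) ≤ (1 / 2) ^ n)
    (hnear : ∀ n, ∃ s t, ∃ δ > (0 : ℝ), ∀ (R : ℕ) (y : ℝ), 0 ≤ y →
      |y - (pj θ x₁ x₂ + R)| < δ → E (pre (bin θ) s, n, bs t ⌊y * 2 ^ t⌋₊)) : False := by
  obtain ⟨Q, hQ, hmQ, hEQ⟩ := hE
  obtain ⟨a, C, R, ha, hA⟩ := approx ⌊x₁⌋ ⌊x₂⌋
  obtain ⟨CK, hCK⟩ := kerCond hA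
  obtain ⟨R', hR'⟩ := bound_a hA
  have hhit : ∀ n, ∃ l, Hit Q a C l n (fl θ l) (fl x₁ l) (fl x₂ l) := by
    intro n
    obtain ⟨s, t, δ, hδ, h⟩ := hnear n
    exact exists_hit hmQ hEQ hA hδ h
  have hheavy := exists_heavy hQ hmQ ha hA hR hhit
  have hHC := hitCond hEQ hlam a C
  -- a real number between `1` and the dimension
  obtain ⟨q, hq1, hq2⟩ := EReal.lt_iff_exists_real_btwn.1 hdim
  have hq1' : (1 : ℝ) < q := by exact_mod_cast hq1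
  have hev := Filter.eventually_lt_of_lt_liminf hq2
  obtain ⟨r₀, hr₀⟩ := Filter.eventually_atTop.1 hev
  obtain ⟨b, hb⟩ := exists_nat_gt (4 / (q - 1))
  have hq0 : 0 < q - 1 := by linarith
  have hbpos : (0 : ℝ) < b := lt_trans (by positivity) hb
  have hb1 : 1 ≤ b := by exact_mod_cast hbpos
  have hb4 : 4 < (q - 1) * b := by
    rw [div_lt_iff₀ hq0] at hb
    linarith
  -- the bound of the complexity
  obtain ⟨c, hc⟩ := K_bound hU prim (K := 36 * b * R' * CK) hb1 ⌊x₁⌋ ⌊x₂⌋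
    (F := fun m => Hv (Hit Q a C) m) (primrec_Hv hQ ha C)
    (fun m J T hT => count_bound hb1 hR' hHC hCK m (hmono_Hv hmQ hA m) J T hT)
  -- large levels
  obtain ⟨J₀, hJ₀⟩ := exists_nat_gt (2 * (c + q) / (q - 1))
  obtain ⟨m₀, hm₀⟩ : ∃ m₀ : ℕ, (36 * b * R' * CK) * 2 ^ (2 * (J₀ + r₀ + 2)) < 2 ^ m₀ :=
    ⟨_, Nat.lt_two_pow_self⟩
  obtain ⟨m, hm, l, hl⟩ := hheavy m₀
  obtain ⟨J, l', hJ⟩ := exists_En (b := b) (F := Hv (Hit Q a C) m) hl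
  have hJbig : J₀ + r₀ + 2 ≤ J := by
    by_contra hcon
    push Not at hcon
    have h1 := count_bound hb1 hR' hHC hCK m (hmono_Hv hmQ hA m) J {(fl x₁ J, fl x₂ J)} (by
      intro p hp
      rw [Finset.mem_singleton] at hp
      subst hp
      exact ⟨fl_lt _ _, fl_lt _ _, l', hJ⟩)
    rw [Finset.card_singleton, Nat.cast_one, one_mul] at h1
    have h2 : (2 : ℕ) ^ (6 * m) ≤ (36 * b * R' * CK) * 2 ^ (G b J) := by exact_mod_cast h1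
    have h3 : G b J ≤ 2 * (J₀ + r₀ + 2) := by
      unfold G
      have := Nat.div_le_self J b
      omega
    have h4 : (36 * b * R' * CK) * 2 ^ (G b J) ≤
        (36 * b * R' * CK) * 2 ^ (2 * (J₀ + r₀ + 2)) :=
      Nat.mul_le_mul_left _ (Nat.pow_le_pow_right (by norm_num) h3)
    have h5 : (2 : ℕ) ^ m₀ ≤ 2 ^ (6 * m) := Nat.pow_le_pow_right (by norm_num) (by omega)
    omega
  have hK := hc m l' J _ _ (fl_lt x₁ J) (fl_lt x₂ J) hJ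
  have hK2 := (Kr_le (U := U) x₁ x₂ (by omega : 1 ≤ J)).trans hK
  have hlow := hr₀ (J - 1) (by omega)
  have hlow' : q < (Kr U x₁ x₂ (J - 1) : ℝ) / ((J - 1 : ℕ) : ℝ) := by exact_mod_cast hlow
  have hJ1 : (0 : ℝ) < ((J - 1 : ℕ) : ℝ) := by
    have : 0 < J - 1 := by omega
    exact_mod_cast this
  rw [lt_div_iff₀ hJ1] at hlow'
  have hJc : ((J - 1 : ℕ) : ℝ) = J - 1 := by
    rw [Nat.cast_sub (by omega)]; simp
  rw [hJc] at hlow'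
  have hKR : (Kr U x₁ x₂ (J - 1) : ℝ) ≤ J + 2 * (J / b) + c := by
    have h1 : (Kr U x₁ x₂ (J - 1) : ℝ) ≤ ((G b J + J / b + c : ℕ) : ℝ) := by exact_mod_cast hK2
    unfold G at h1
    push_cast at h1
    have h2 : ((J / b : ℕ) : ℝ) ≤ (J : ℝ) / b := Nat.cast_div_le
    linarith
  have hJJ : (J₀ : ℝ) ≤ J := by
    have : J₀ ≤ J := by omega
    exact_mod_cast this
  have hJpos : (0 : ℝ) < J := by
    have : 0 < J := by omega
    exact_mod_cast this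
  have h7 : 2 * ((J : ℝ) / b) ≤ (q - 1) / 2 * J := by
    rw [← mul_div_assoc, div_le_iff₀ hbpos]
    nlinarith
  have h8 : (J : ℝ) * ((q - 1) / 2) < c + q := by nlinarith
  have h9 : 2 * (c + q) / (q - 1) < J := lt_of_lt_of_le hJ₀ hJJ
  rw [div_lt_iff₀ hq0] at h9
  nlinarith

end Q217.PR
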