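import Pool.Agent.Q217.PR.Energy

/-!
# The enumerated cover by saturated squares
-/

set_option autoImplicit false

namespace Q217.PR

open Finset

/-- the exponent of the gauge -/
def G (b L : ℕ) : ℕ := L + L / b

theorem G_mono {b L L' : ℕ} (h : L ≤ L') : G b L ≤ G b L' := by
  unfold G
  have := Nat.div_le_div_right (c := b) h
  omega

theorem G_succ {b : ℕ} (hb : 1 ≤ b) (L : ℕ) : G b (L + 1) ≤ G b L + 2 := by
  unfold G
  have : (L + 1) / b ≤ L / b + 1 := by
    rw [← Nat.add_div_right _ hb]
    exact Nat.div_le_div_right (by omega)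
  omega

/-- the bounds for the masses in the quadtree of depth `l` -/
def gg (b l : ℕ) : ℕ → ℕ := fun e => 2 ^ (G b l - G b (l - e))

/-- the truncated mass of the square `(i, j)` of level `L` at stage `l` -/
def cl (b : ℕ) (F : ℕ → ℕ → ℕ → ℕ) (l L i j : ℕ) : ℕ := cc (gg b l) (F l) (l - L) i j

theorem cl_self (b : ℕ) (F : ℕ → ℕ → ℕ → ℕ) (l i j : ℕ) : cl b F l l i j = F l i j := by
  simp [cl, cc]

theorem cl_succ (b : ℕ) (F : ℕ → ℕ → ℕ → ℕ) {l L : ℕ} (h : L < l) (i j : ℕ) :
    cl b F l L i j = min (2 ^ (G b l - G b L)) (cl b F l (L + 1) (2 * i) (2 * j) +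
      cl b F l (L + 1) (2 * i) (2 * j + 1) + cl b F l (L + 1) (2 * i + 1) (2 * j) +
      cl b F l (L + 1) (2 * i + 1) (2 * j + 1)) := by
  unfold cl
  have h1 : l - L = (l - (L + 1)) + 1 := by omega
  rw [h1, cc]
  have h2 : gg b l (l - (L + 1) + 1) = 2 ^ (G b l - G b L) := by
    unfold gg
    congr 3
    omega
  rw [h2]

theorem cl_le {b : ℕ} {F : ℕ → ℕ → ℕ → ℕ} (hF : ∀ l x y, F l x y ≤ 1) {l L : ℕ} (h : L ≤ l)
    (i j : ℕ) : cl b F l L i j ≤ 2 ^ (G b l - G b L) := by
  rcases Nat.lt_or_ge L l with h1 | h1
  · rw [cl_succ b F h1]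
    exact min_le_left _ _
  · have : L = l := by omega
    subst this
    rw [cl_self]
    simpa using hF L i j

/-- the heaviness of squares is inherited -/
def HMono (F : ℕ → ℕ → ℕ → ℕ) : Prop :=
  ∀ l x y, F l x y = 1 → F (l + 1) (2 * x) (2 * y) = 1 ∧ F (l + 1) (2 * x) (2 * y + 1) = 1 ∧
    F (l + 1) (2 * x + 1) (2 * y) = 1 ∧ F (l + 1) (2 * x + 1) (2 * y + 1) = 1

theorem cl_mono {b : ℕ} (hb : 1 ≤ b) {F : ℕ → ℕ → ℕ → ℕ} (hF : ∀ l x y, F l x y ≤ 1)
    (hm : HMono F) (l : ℕ) : ∀ d L, L + d = l → ∀ i j,
      2 ^ (G b (l + 1) - G b l) * cl b F l L i j ≤ cl b F (l + 1) L i j := by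
  intro d
  induction d with
  | zero =>
    intro L hL i j
    have : L = l := by omega
    subst this
    rw [cl_self]
    have h1 := hF L i j
    rcases Nat.eq_zero_or_pos (F L i j) with h0 | hpos
    · rw [h0]; simp
    · have h2 : F L i j = 1 := by omega
      rw [h2, mul_one, cl_succ b F (by omega : L < L + 1)]
      obtain ⟨e1, e2, e3, e4⟩ := hm L i j h2
      rw [cl_self, cl_self, cl_self, cl_self, e1, e2, e3, e4]
      apply le_min le_rfl
      have h3 := G_succ hb L
      calc 2 ^ (G b (L + 1) - G b L) ≤ 2 ^ 2 := Nat.pow_le_pow_right (by norm_num) (by omega)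
        _ = 1 + 1 + 1 + 1 := by norm_num
  | succ d ih =>
    intro L hL i j
    have h1 : L < l := by omega
    rw [cl_succ b F h1, cl_succ b F (by omega : L < l + 1)]
    apply le_min
    · calc 2 ^ (G b (l + 1) - G b l) * min _ _ ≤ 2 ^ (G b (l + 1) - G b l) * 2 ^ (G b l - G b L) :=
            Nat.mul_le_mul_left _ (min_le_left _ _)
        _ = 2 ^ (G b (l + 1) - G b L) := by
            rw [← pow_add]
            congr 1
            have := G_mono (b := b) (by omega : l ≤ l + 1)
            have := G_mono (b := b) (by omega : L ≤ l)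
            omega
    · refine (Nat.mul_le_mul_left _ (min_le_right _ _)).trans ?_
      have e1 := ih (L + 1) (by omega) (2 * i) (2 * j)
      have e2 := ih (L + 1) (by omega) (2 * i) (2 * j + 1)
      have e3 := ih (L + 1) (by omega) (2 * i + 1) (2 * j)
      have e4 := ih (L + 1) (by omega) (2 * i + 1) (2 * j + 1)
      rw [mul_add, mul_add, mul_add]
      omega

/-- the square `(i, j)` of level `L` is saturated at stage `l` -/
def Sat (b : ℕ) (F : ℕ → ℕ → ℕ → ℕ) (l L i j : ℕ) : Prop :=
  L ≤ l ∧ cl b F l L i j = 2 ^ (G b l - G b L)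

theorem Sat.succ {b : ℕ} (hb : 1 ≤ b) {F : ℕ → ℕ → ℕ → ℕ} (hF : ∀ l x y, F l x y ≤ 1)
    (hm : HMono F) {l L i j : ℕ} (h : Sat b F l L i j) : Sat b F (l + 1) L i j := by
  refine ⟨by have := h.1; omega, le_antisymm (cl_le hF (by have := h.1; omega) i j) ?_⟩
  refine le_trans (le_of_eq ?_) (cl_mono hb hF hm l (l - L) L (by have := h.1; omega) i j)
  rw [h.2, ← pow_add]
  congr 1
  have := G_mono (b := b) (by omega : l ≤ l + 1)
  have := G_mono (b := b) h.1
  omega

theorem Sat.mono {b : ℕ} (hb : 1 ≤ b) {F : ℕ → ℕ → ℕ → ℕ} (hF : ∀ l x y, F l x y ≤ 1)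
    (hm : HMono F) {l l' L i j : ℕ} (hl : l ≤ l') (h : Sat b F l L i j) : Sat b F l' L i j := by
  induction l', hl using Nat.le_induction with
  | base => exact h
  | succ n _ ih => exact ih.succ hb hF hm

/-- the square `(i, j)` of level `J` is enumerated at stage `l` -/
def En (b : ℕ) (F : ℕ → ℕ → ℕ → ℕ) (l J i j : ℕ) : Prop :=
  Sat b F l J i j ∧ (∀ L < J, ¬ Sat b F l L (i / 2 ^ (J - L)) (j / 2 ^ (J - L))) ∧
    ∀ l' < l, ¬ Sat b F l' J i j

theorem En.unique {b : ℕ} {F : ℕ → ℕ → ℕ → ℕ} {l l' J i j : ℕ} (h : En b F l J i j)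
    (h' : En b F l' J i j) : l = l' := by
  rcases Nat.lt_trichotomy l l' with h1 | h1 | h1
  · exact absurd h.1 (h'.2.2 l h1)
  · exact h1
  · exact absurd h'.1 (h.2.2 l' h1)

open Classical in
/-- the indicator of the squares of level `J` enumerated up to stage `l` -/
noncomputable def ind (b : ℕ) (F : ℕ → ℕ → ℕ → ℕ) (l J : ℕ) : ℕ → ℕ → ℝ :=
  fun x y => if ∃ l' ≤ l, En b F l' J x y then 1 else 0

theorem M_zero_le (J : ℕ) (w : ℕ → ℕ → ℝ) (hw : ∀ x y, 0 ≤ w x y) (i j : ℕ) :
    M J w 0 i j ≤ w i j := by
  unfold M
  simp only [pow_zero, Nat.div_one]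
  have h1 : ∀ x ∈ range (2 ^ J), (∑ y ∈ range (2 ^ J), if x = i ∧ y = j then w x y else 0) ≤
      if x = i then w i j else 0 := by
    intro x _
    by_cases hx : x = i
    · subst hx
      rw [if_pos rfl]
      calc (∑ y ∈ range (2 ^ J), if x = x ∧ y = j then w x y else 0)
          = ∑ y ∈ range (2 ^ J), if y = j then w x j else 0 := by
            apply Finset.sum_congr rfl
            intro y _
            by_cases hy : y = j
            · subst hy; simp
            · simp [hy]
        _ ≤ w x j := by
            rw [Finset.sum_ite_eq']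
            split_ifs
            · exact le_rfl
            · exact hw _ _
    · rw [if_neg hx]
      apply le_of_eq
      apply Finset.sum_eq_zero
      intro y _
      rw [if_neg (fun h => hx h.1)]
  refine (Finset.sum_le_sum h1).trans ?_
  rw [Finset.sum_ite_eq']
  split_ifs
  · exact le_rfl
  · exact hw _ _

theorem cover_bound {b : ℕ} (hb : 1 ≤ b) {F : ℕ → ℕ → ℕ → ℕ} (hF : ∀ l x y, F l x y ≤ 1)
    (hm : HMono F) (J l : ℕ) (hl : J ≤ l) : ∀ d ≤ J, ∀ i j,
      M J (ind b F l J) d i j * 2 ^ (G b l - G b J) ≤ cl b F l (J - d) i j := by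
  have hind : ∀ l x y, 0 ≤ ind b F l J x y := by
    intro l x y
    unfold ind
    split_ifs <;> norm_num
  induction l, hl using Nat.le_induction with
  | base =>
    intro d
    induction d with
    | zero =>
      intro _ i j
      simp only [Nat.sub_self, pow_zero, mul_one, Nat.sub_zero]
      refine (M_zero_le J _ (hind J) i j).trans ?_
      unfold ind
      split_ifs with h
      · obtain ⟨l', hl', h1⟩ := h
        have h2 := (h1.1.mono hb hF hm hl').2
        rw [h2]; simp
      · positivity
    | succ d ihd =>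
      intro hd i j
      by_cases hs : Sat b F J (J - (d + 1)) i j
      · have h0 : M J (ind b F J J) (d + 1) i j = 0 := by
          unfold M
          apply Finset.sum_eq_zero
          intro x _
          apply Finset.sum_eq_zero
          intro y _
          split_ifs with h
          · unfold ind
            rw [if_neg]
            rintro ⟨l', hl', h1⟩
            have h2 : l' = J := le_antisymm hl' h1.1.1
            subst h2
            apply h1.2.1 (l' - (d + 1)) (by omega)
            have h3 : l' - (l' - (d + 1)) = d + 1 := by omega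
            rw [h3, h.1, h.2]
            exact hs
          · rfl
        rw [h0, zero_mul]
        positivity
      · rw [M_split]
        have h1 : J - d = J - (d + 1) + 1 := by omega
        have h2 : cl b F J (J - (d + 1)) i j = cl b F J (J - d) (2 * i) (2 * j) +
            cl b F J (J - d) (2 * i) (2 * j + 1) + cl b F J (J - d) (2 * i + 1) (2 * j) +
            cl b F J (J - d) (2 * i + 1) (2 * j + 1) := by
          have h3 := cl_succ b F (by omega : J - (d + 1) < J) i j
          rw [← h1] at h3
          have h4 : cl b F J (J - (d + 1)) i j ≠ 2 ^ (G b J - G b (J - (d + 1))) :=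
            fun h => hs ⟨by omega, h⟩
          rcases min_choice (2 ^ (G b J - G b (J - (d + 1)))) (cl b F J (J - d) (2 * i) (2 * j) +
            cl b F J (J - d) (2 * i) (2 * j + 1) + cl b F J (J - d) (2 * i + 1) (2 * j) +
            cl b F J (J - d) (2 * i + 1) (2 * j + 1)) with h5 | h5
          · rw [h5] at h3; exact absurd h3 h4
          · rw [h5] at h3; exact h3
        rw [h2]
        push_cast
        have e1 := ihd (by omega) (2 * i) (2 * j)
        have e2 := ihd (by omega) (2 * i) (2 * j + 1)
        have e3 := ihd (by omega) (2 * i + 1) (2 * j)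
        have e4 := ihd (by omega) (2 * i + 1) (2 * j + 1)
        nlinarith [e1, e2, e3, e4]
  | succ l hl ihl =>
    intro d
    induction d with
    | zero =>
      intro _ i j
      simp only [Nat.sub_zero]
      have h1 := M_zero_le J _ (hind (l + 1)) i j
      have h2 : ind b F (l + 1) J i j * 2 ^ (G b (l + 1) - G b J) ≤ cl b F (l + 1) J i j := by
        unfold ind
        split_ifs with h
        · obtain ⟨l', hl', h1⟩ := h
          have h2 := (h1.1.mono hb hF hm hl').2
          rw [h2]; simp
        · simp
      refine le_trans ?_ h2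
      exact mul_le_mul_of_nonneg_right h1 (by positivity)
    | succ d ihd =>
      intro hd i j
      by_cases hs : Sat b F (l + 1) (J - (d + 1)) i j
      · have h0 : M J (ind b F (l + 1) J) (d + 1) i j ≤ M J (ind b F l J) (d + 1) i j := by
          unfold M
          apply Finset.sum_le_sum
          intro x _
          apply Finset.sum_le_sum
          intro y _
          split_ifs with h
          · unfold ind
            split_ifs with h1 h2 h2
            · exact le_rfl
            · exfalso
              obtain ⟨l', hl', h3⟩ := h1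
              have h4 : l' = l + 1 := by
                by_contra hne
                exact h2 ⟨l', by omega, h3⟩
              subst h4
              apply h3.2.1 (J - (d + 1)) (by omega)
              have h5 : J - (J - (d + 1)) = d + 1 := by omega
              rw [h5, h.1, h.2]
              exact hs
            · norm_num
            · exact le_rfl
          · exact le_rfl
        have h1 := ihl (d + 1) hd i j
        have h2 := cl_le (b := b) hF (by omega : J - (d + 1) ≤ l) i j
        have h2' : (cl b F l (J - (d + 1)) i j : ℝ) ≤ 2 ^ (G b l - G b (J - (d + 1))) := by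
          exact_mod_cast h2
        rw [hs.2]
        push_cast
        have g1 := G_mono (b := b) (by omega : l ≤ l + 1)
        have g2 := G_mono (b := b) (by omega : J ≤ l)
        have g3 := G_mono (b := b) (by omega : J - (d + 1) ≤ J)
        have e1 : (2 : ℝ) ^ (G b (l + 1) - G b J) =
            2 ^ (G b l - G b J) * 2 ^ (G b (l + 1) - G b l) := by
          rw [← pow_add]; congr 1; omega
        have e2 : (2 : ℝ) ^ (G b (l + 1) - G b (J - (d + 1))) =
            2 ^ (G b l - G b (J - (d + 1))) * 2 ^ (G b (l + 1) - G b l) := by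
          rw [← pow_add]; congr 1; omega
        rw [e1, e2, ← mul_assoc]
        apply mul_le_mul_of_nonneg_right _ (by positivity)
        refine le_trans ?_ (h1.trans h2')
        exact mul_le_mul_of_nonneg_right h0 (by positivity)
      · rw [M_split]
        have h1 : J - d = J - (d + 1) + 1 := by omega
        have h2 : cl b F (l + 1) (J - (d + 1)) i j = cl b F (l + 1) (J - d) (2 * i) (2 * j) +
            cl b F (l + 1) (J - d) (2 * i) (2 * j + 1) +
            cl b F (l + 1) (J - d) (2 * i + 1) (2 * j) +
            cl b F (l + 1) (J - d) (2 * i + 1) (2 * j + 1) := by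
          have h3 := cl_succ b F (by omega : J - (d + 1) < l + 1) i j
          rw [← h1] at h3
          have h4 : cl b F (l + 1) (J - (d + 1)) i j ≠ 2 ^ (G b (l + 1) - G b (J - (d + 1))) :=
            fun h => hs ⟨by omega, h⟩
          rcases min_choice (2 ^ (G b (l + 1) - G b (J - (d + 1))))
            (cl b F (l + 1) (J - d) (2 * i) (2 * j) +
            cl b F (l + 1) (J - d) (2 * i) (2 * j + 1) +
            cl b F (l + 1) (J - d) (2 * i + 1) (2 * j) +
            cl b F (l + 1) (J - d) (2 * i + 1) (2 * j + 1)) with h5 | h5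
          · rw [h5] at h3; exact absurd h3 h4
          · rw [h5] at h3; exact h3
        rw [h2]
        push_cast
        have e1 := ihd (by omega) (2 * i) (2 * j)
        have e2 := ihd (by omega) (2 * i) (2 * j + 1)
        have e3 := ihd (by omega) (2 * i + 1) (2 * j)
        have e4 := ihd (by omega) (2 * i + 1) (2 * j + 1)
        nlinarith [e1, e2, e3, e4]

end Q217.PR
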