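import Pool.Agent.Q217.PR.Cover

/-!
# The bound for the number of enumerated squares
-/

set_option autoImplicit false

namespace Q217.PR

open Finset

theorem sum_half_div {b : ℕ} (hb : 1 ≤ b) (n : ℕ) :
    ∑ L ∈ range n, (1 / 2 : ℝ) ^ (L / b) ≤ 2 * b := by
  have h1 : ∀ q : ℕ, ∑ L ∈ range (b * q), (1 / 2 : ℝ) ^ (L / b) =
      b * ∑ i ∈ range q, (1 / 2 : ℝ) ^ i := by
    intro q
    induction q with
    | zero => simp
    | succ q ih =>
      rw [Nat.mul_succ, Finset.sum_range_add, ih, Finset.sum_range_succ, mul_add]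
      congr 1
      have : ∀ x ∈ range b, (1 / 2 : ℝ) ^ ((b * q + x) / b) = (1 / 2) ^ q := by
        intro x hx
        rw [Finset.mem_range] at hx
        congr 1
        rw [Nat.mul_add_div (by omega), Nat.div_eq_of_lt hx, add_zero]
      rw [Finset.sum_congr rfl this]
      simp
  have h2 : n ≤ b * n := Nat.le_mul_of_pos_left n hb
  calc ∑ L ∈ range n, (1 / 2 : ℝ) ^ (L / b) ≤ ∑ L ∈ range (b * n), (1 / 2 : ℝ) ^ (L / b) := by
        apply Finset.sum_le_sum_of_subset_of_nonneg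
        · exact Finset.range_subset_range.2 h2
        · intro _ _ _; positivity
    _ = b * ∑ i ∈ range n, (1 / 2 : ℝ) ^ i := h1 n
    _ ≤ b * 2 := by
        apply mul_le_mul_of_nonneg_left _ (by positivity)
        have h3 : ∑ i ∈ range n, (1 / 2 : ℝ) ^ i = 2 - 2 * (1 / 2) ^ n := by
          rw [geom_sum_eq (by norm_num)]; ring
        rw [h3]
        have : (0 : ℝ) < (1 / 2) ^ n := by positivity
        linarith
    _ = 2 * b := by ring

theorem potential_sum {b : ℕ} (hb : 1 ≤ b) (l : ℕ) :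
    ∑ e ∈ range (l + 1), 18 * (gg b l e : ℝ) / 2 ^ e ≤ 36 * b * 2 ^ (l / b) := by
  have h1 : ∀ e ∈ range (l + 1), 18 * (gg b l e : ℝ) / 2 ^ e =
      18 * 2 ^ (l / b) * (1 / 2) ^ ((l + 1 - 1 - e) / b) := by
    intro e he
    rw [Finset.mem_range] at he
    unfold gg G
    have hd : (l - e) / b ≤ l / b := Nat.div_le_div_right (by omega)
    have e1 : l + l / b - (l - e + (l - e) / b) = e + (l / b - (l - e) / b) := by omega
    have e2 : l + 1 - 1 - e = l - e := by omega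
    rw [e1, e2]
    push_cast
    rw [pow_add]
    have e3 : (2 : ℝ) ^ (l / b) = 2 ^ (l / b - (l - e) / b) * 2 ^ ((l - e) / b) := by
      rw [← pow_add]; congr 1; omega
    rw [e3]
    have e4 : (1 / 2 : ℝ) ^ ((l - e) / b) = 1 / 2 ^ ((l - e) / b) := by
      rw [one_div_pow]
    rw [e4]
    field_simp
  rw [Finset.sum_congr rfl h1, ← Finset.mul_sum,
    Finset.sum_range_reflect (fun L => (1 / 2 : ℝ) ^ (L / b)) (l + 1)]
  have h2 := sum_half_div hb (l + 1)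
  have h3 : (0 : ℝ) < 2 ^ (l / b) := by positivity
  nlinarith

/-- the kernel condition -/
def KerCond (a : ℕ → ℕ → ℕ → ℕ → ℕ) (CK : ℕ) : Prop :=
  ∀ l x y x' y' : ℕ, x < 2 ^ l → y < 2 ^ l → x' < 2 ^ l → y' < 2 ^ l →
    ((range (2 ^ l)).filter fun k => a l k x y = a l k x' y').card * (1 + dst x y x' y') ≤
      CK * 2 ^ l

/-- few values of `a` are hit -/
def HitCond (a : ℕ → ℕ → ℕ → ℕ → ℕ) (Hit : ℕ → ℕ → ℕ → ℕ → ℕ → Prop) : Prop :=
  ∀ l n k : ℕ, k < 2 ^ l → ∀ V : Finset ℕ, (∀ v ∈ V, ∃ x y, x < 2 ^ l ∧ y < 2 ^ l ∧ Hit l n k x y ∧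
    v = a l k x y % 2 ^ l) → V.card * 2 ^ n ≤ 2 ^ l

open Classical in
/-- the heavy squares -/
noncomputable def Hv (Hit : ℕ → ℕ → ℕ → ℕ → ℕ → Prop) (m : ℕ) : ℕ → ℕ → ℕ → ℕ :=
  fun l x y => if 2 ^ l < 2 ^ m * ((range (2 ^ l)).filter fun k => Hit l (8 * m) k x y).card
    then 1 else 0

theorem root_bound {a : ℕ → ℕ → ℕ → ℕ → ℕ} {Hit : ℕ → ℕ → ℕ → ℕ → ℕ → Prop} {R CK b : ℕ}
    (hb : 1 ≤ b) (haR : ∀ l k x y, k < 2 ^ l → x < 2 ^ l → y < 2 ^ l → a l k x y < R * 2 ^ l)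
    (hV : HitCond a Hit) (hK : KerCond a CK) (m l : ℕ) :
    (cl b (Hv Hit m) l 0 0 0 : ℝ) * 2 ^ (6 * m) ≤ (36 * b * R * CK : ℕ) * 2 ^ (G b l) := by
  classical
  have hF1 : ∀ x y, Hv Hit m l x y ≤ gg b l 0 := by
    intro x y
    unfold Hv gg
    simp only [Nat.sub_zero, Nat.sub_self, pow_zero]
    split_ifs <;> norm_num
  obtain ⟨h1, h2⟩ := M_wt (gg b l) (Hv Hit m l) l l le_rfl
  have h3 := h2 hF1
  have h4 := h1 0 0 (by simp) (by simp)
  have hpot := fun x₀ y₀ (hx : x₀ < 2 ^ l) (hy : y₀ < 2 ^ l) =>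
    (potential (wt_nonneg (gg b l) (Hv Hit m l) l) h3 hx hy).trans (potential_sum hb l)
  have hE := energy (N := 2 ^ l) (n := 8 * m) (R := R) (CK := CK) (m := m) (by positivity)
    (fun k p => a l k p.1 p.2) (fun k p => Hit l (8 * m) k p.1 p.2)
    (fun p => wt (gg b l) (Hv Hit m l) l p.1 p.2) (fun p => wt_nonneg _ _ _ _ _)
    (B := 36 * b * 2 ^ (l / b))
    (fun k hk p hp => by
      rw [Finset.mem_product, Finset.mem_range, Finset.mem_range] at hp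
      exact haR l k p.1 p.2 hk hp.1 hp.2)
    (fun k hk => by
      apply hV l (8 * m) k hk
      intro v hv
      rw [Finset.mem_image] at hv
      obtain ⟨p, hp, rfl⟩ := hv
      rw [Finset.mem_filter, Finset.mem_product, Finset.mem_range, Finset.mem_range] at hp
      exact ⟨p.1, p.2, hp.1.1, hp.1.2, hp.2, rfl⟩)
    (fun p hp q hq => by
      rw [Finset.mem_product, Finset.mem_range, Finset.mem_range] at hp hq
      exact hK l p.1 p.2 q.1 q.2 hp.1 hp.2 hq.1 hq.2)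
    (fun p _ hne => by
      by_contra hcon
      apply hne
      apply wt_supp
      unfold Hv
      rw [if_neg]
      omega)
    (fun q hq => by
      rw [Finset.mem_product, Finset.mem_range, Finset.mem_range] at hq
      rw [Finset.sum_product]
      exact hpot q.1 q.2 hq.1 hq.2)
  have h5 : ∑ p ∈ range (2 ^ l) ×ˢ range (2 ^ l), wt (gg b l) (Hv Hit m l) l p.1 p.2 =
      (cl b (Hv Hit m) l 0 0 0 : ℝ) := by
    unfold cl
    rw [Nat.sub_zero, ← h4, Finset.sum_product]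
    unfold M
    apply Finset.sum_congr rfl
    intro x hx
    apply Finset.sum_congr rfl
    intro y hy
    rw [Finset.mem_range] at hx hy
    rw [if_pos ⟨Nat.div_eq_of_lt hx, Nat.div_eq_of_lt hy⟩]
  rw [h5] at hE
  have h6 : (2 : ℝ) ^ (8 * m) = 2 ^ (6 * m) * 2 ^ (2 * m) := by
    rw [← pow_add]; congr 1; ring
  rw [h6, ← mul_assoc] at hE
  have h7 : (R * CK * (2 ^ l : ℕ) * (36 * b * 2 ^ (l / b)) * 2 ^ (2 * m) : ℝ) =
      ((36 * b * R * CK : ℕ) * 2 ^ (G b l)) * 2 ^ (2 * m) := by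
    unfold G
    push_cast
    rw [pow_add]
    ring
  rw [h7] at hE
  exact le_of_mul_le_mul_right hE (by positivity)

/-- the number of squares of level `J` enumerated for the index `m` -/
theorem count_bound {a : ℕ → ℕ → ℕ → ℕ → ℕ} {Hit : ℕ → ℕ → ℕ → ℕ → ℕ → Prop} {R CK b : ℕ}
    (hb : 1 ≤ b) (haR : ∀ l k x y, k < 2 ^ l → x < 2 ^ l → y < 2 ^ l → a l k x y < R * 2 ^ l)
    (hV : HitCond a Hit) (hK : KerCond a CK) (m : ℕ) (hm : HMono (Hv Hit m)) (J : ℕ)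
    (T : Finset (ℕ × ℕ)) (hT : ∀ p ∈ T, p.1 < 2 ^ J ∧ p.2 < 2 ^ J ∧
      ∃ l, En b (Hv Hit m) l J p.1 p.2) :
    (T.card : ℝ) * 2 ^ (6 * m) ≤ (36 * b * R * CK : ℕ) * 2 ^ (G b J) := by
  classical
  have hF1 : ∀ l x y, Hv Hit m l x y ≤ 1 := by
    intro l x y
    unfold Hv
    split_ifs <;> norm_num
  -- a common stage
  obtain ⟨l, hl, hTl⟩ : ∃ l, J ≤ l ∧ ∀ p ∈ T, ∃ l' ≤ l, En b (Hv Hit m) l' J p.1 p.2 := by
    have h1 : ∀ p : {p // p ∈ T}, ∃ l, En b (Hv Hit m) l J p.1.1 p.1.2 := fun p => (hT p.1 p.2).2.2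
    choose f hf using h1
    refine ⟨J + ∑ p ∈ T.attach, f p, by omega, fun p hp => ⟨f ⟨p, hp⟩, ?_, hf ⟨p, hp⟩⟩⟩
    have := Finset.single_le_sum (f := f) (fun _ _ => Nat.zero_le _) (Finset.mem_attach T ⟨p, hp⟩)
    omega
  have h1 := cover_bound hb hF1 hm J l hl J le_rfl 0 0
  rw [Nat.sub_self] at h1
  have h2 : (T.card : ℝ) ≤ M J (ind b (Hv Hit m) l J) J 0 0 := by
    unfold M
    rw [← Finset.sum_product']
    have h3 : T ⊆ range (2 ^ J) ×ˢ range (2 ^ J) := by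
      intro p hp
      rw [Finset.mem_product, Finset.mem_range, Finset.mem_range]
      exact ⟨(hT p hp).1, (hT p hp).2.1⟩
    have h4 : ∀ p : ℕ × ℕ, 0 ≤ (if p.1 / 2 ^ J = 0 ∧ p.2 / 2 ^ J = 0 then
        ind b (Hv Hit m) l J p.1 p.2 else 0) := by
      intro p
      unfold ind
      split_ifs <;> norm_num
    calc (T.card : ℝ) = ∑ p ∈ T, 1 := by simp
      _ ≤ ∑ p ∈ T, (if p.1 / 2 ^ J = 0 ∧ p.2 / 2 ^ J = 0 then
          ind b (Hv Hit m) l J p.1 p.2 else 0) := by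
          apply Finset.sum_le_sum
          intro p hp
          rw [if_pos ⟨Nat.div_eq_of_lt (hT p hp).1, Nat.div_eq_of_lt (hT p hp).2.1⟩]
          unfold ind
          rw [if_pos (hTl p hp)]
      _ ≤ _ := Finset.sum_le_sum_of_subset_of_nonneg h3 (fun p _ _ => h4 p)
  have h3 := root_bound hb haR hV hK m l
  have g1 := G_mono (b := b) hl
  have e1 : (2 : ℝ) ^ (G b l) = 2 ^ (G b J) * 2 ^ (G b l - G b J) := by
    rw [← pow_add]; congr 1; omega
  rw [e1] at h3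
  have h4 : (T.card : ℝ) * 2 ^ (6 * m) * 2 ^ (G b l - G b J) ≤
      (36 * b * R * CK : ℕ) * 2 ^ (G b J) * 2 ^ (G b l - G b J) := by
    calc (T.card : ℝ) * 2 ^ (6 * m) * 2 ^ (G b l - G b J)
        ≤ M J (ind b (Hv Hit m) l J) J 0 0 * 2 ^ (6 * m) * 2 ^ (G b l - G b J) := by gcongr
      _ = (M J (ind b (Hv Hit m) l J) J 0 0 * 2 ^ (G b l - G b J)) * 2 ^ (6 * m) := by ring
      _ ≤ (cl b (Hv Hit m) l 0 0 0 : ℝ) * 2 ^ (6 * m) := by gcongr
      _ ≤ _ := by rw [mul_assoc] ; exact h3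
  exact le_of_mul_le_mul_right h4 (by positivity)

end Q217.PR
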