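import Pool.Agent.Q217.PR.Str
import Pool.Agent.Q217.PR.Cover
import Pool.Agent.Q217.PR.Root
import Pool.Agent.Q217.KT.Mach
import Pool.Agent.Helper227.KC2

/-! Effective dimension of points of the plane. -/

set_option autoImplicit false

namespace Q217.PR

open Pool.Agent.Helper227 Q217.KT

/-- The complexity `K_r` of the point `(x₁, x₂)` of the plane at the precision `r`: the least
complexity of a rational point `(v₁ / (v₃ + 1), v₂ / (v₃ + 1))` at distance at most `2 ^ (-r)`,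
where the complexity of a rational point is the complexity (for the optimal prefix-free
machine `U`) of the string that encodes the triple `v` of two integers and a natural number. -/
noncomputable def Kr (U : List Bool →. List Bool) (x₁ x₂ : ℝ) (r : ℕ) : ℕ :=
  sInf {n | ∃ v : ℤ × ℤ × ℕ,
    √(((v.1 : ℝ) / (v.2.2 + 1) - x₁) ^ 2 + ((v.2.1 : ℝ) / (v.2.2 + 1) - x₂) ^ 2) ≤ (1 / 2) ^ r ∧
      n = cx U (natStr (Encodable.encode v))}

/-- The effective dimension of the point `(x₁, x₂)` of the plane: the lower limit of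
`K_r / r`. -/
noncomputable def edim (U : List Bool →. List Bool) (x₁ x₂ : ℝ) : EReal :=
  Filter.liminf (fun r : ℕ => (((Kr U x₁ x₂ r : ℝ) / r : ℝ) : EReal)) Filter.atTop

/-- the integer `p 2 ^ J + i` -/
def num (p : ℤ) (J i : ℕ) : ℤ :=
  if 0 ≤ p then ((p.toNat * 2 ^ J + i : ℕ) : ℤ) else Int.negSucc ((-p).toNat * 2 ^ J - i - 1)

theorem num_eq (p : ℤ) {J i : ℕ} (hi : i < 2 ^ J) : num p J i = p * 2 ^ J + i := by
  unfold num
  split_ifs with h
  · obtain ⟨q, rfl⟩ := Int.eq_ofNat_of_zero_le h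
    push_cast
    simp
  · obtain ⟨q, hq⟩ : ∃ q : ℕ, -p = (q + 1 : ℕ) := ⟨(-p).toNat - 1, by omega⟩
    have hp : p = -((q + 1 : ℕ) : ℤ) := by omega
    rw [hq, Int.toNat_natCast, Int.negSucc_eq, hp]
    have h1 : i + 1 ≤ (q + 1) * 2 ^ J := by nlinarith
    have h2 : (((q + 1) * 2 ^ J - i - 1 : ℕ) : ℤ) = (q + 1) * 2 ^ J - i - 1 := by
      rw [Nat.sub_sub, Nat.cast_sub h1]
      push_cast
      ring
    rw [h2]
    push_cast
    ring

theorem primrec_num (p : ℤ) : Primrec₂ (num p) := by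
  unfold num
  have h2J : Primrec fun z : ℕ × ℕ => 2 ^ z.1 := primrec_two_pow.comp Primrec.fst
  by_cases h : 0 ≤ p
  · simp only [h, if_true]
    have h1 : Primrec fun n : ℕ => (n : ℤ) :=
      Primrec.encode_iff.1 ((Primrec.nat_mul.comp (Primrec.const 2) Primrec.id).of_eq fun n => rfl)
    exact h1.comp (Primrec.nat_add.comp (Primrec.nat_mul.comp (Primrec.const _) h2J) Primrec.snd)
  · simp only [h, if_false]
    have h1 : Primrec fun n : ℕ => Int.negSucc n :=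
      Primrec.encode_iff.1 ((Primrec.succ.comp (Primrec.nat_mul.comp (Primrec.const 2)
        Primrec.id)).of_eq fun n => rfl)
    exact h1.comp (Primrec.nat_sub.comp (Primrec.nat_sub.comp (Primrec.nat_mul.comp
      (Primrec.const _) h2J) Primrec.snd) (Primrec.const 1))

/-- the string describing the corner of the square -/
def sq (p₁ p₂ : ℤ) (J i j : ℕ) : List Bool :=
  natStr (Encodable.encode ((num p₁ J i, num p₂ J j, 2 ^ J - 1) : ℤ × ℤ × ℕ))

theorem primrec_sq (p₁ p₂ : ℤ) : Primrec fun z : ℕ × ℕ × ℕ => sq p₁ p₂ z.1 z.2.1 z.2.2 := by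
  unfold sq
  refine primrec_natStr.comp (Primrec.encode.comp ?_)
  refine ((primrec_num p₁).comp Primrec.fst (Primrec.fst.comp Primrec.snd)).pair
    (((primrec_num p₂).comp Primrec.fst (Primrec.snd.comp Primrec.snd)).pair ?_)
  exact Primrec.nat_sub.comp (primrec_two_pow.comp Primrec.fst) (Primrec.const 1)

theorem primrec_G (b : ℕ) : Primrec (G b) := by
  unfold G
  exact Primrec.nat_add.comp Primrec.id (Primrec.nat_div.comp Primrec.id (Primrec.const b))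

/-- saturation is decidable -/
theorem primrec_Sat (hP : PrimStm) {F : ℕ → ℕ → ℕ → ℕ → ℕ}
    (hF : Primrec fun z : ℕ × ℕ × ℕ × ℕ => F z.1 z.2.1 z.2.2.1 z.2.2.2) (b : ℕ) :
    PrimrecPred fun y : ℕ × ℕ × ℕ × ℕ × ℕ => Sat b (F y.1) y.2.1 y.2.2.1 y.2.2.2.1 y.2.2.2.2 := by
  have hu1 : Primrec fun z : ℕ => z.unpair.1 := Primrec.fst.comp Primrec.unpair
  have hu2 : Primrec fun z : ℕ => z.unpair.2 := Primrec.snd.comp Primrec.unpair
  have hg : Primrec₂ fun (z e : ℕ) => gg b z.unpair.2 e := by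
    unfold gg
    exact primrec_two_pow.comp (Primrec.nat_sub.comp ((primrec_G b).comp (hu2.comp Primrec.fst))
      ((primrec_G b).comp (Primrec.nat_sub.comp (hu2.comp Primrec.fst) Primrec.snd)))
  have hF' : Primrec fun z : ℕ × ℕ × ℕ => F z.1.unpair.1 z.1.unpair.2 z.2.1 z.2.2 :=
    hF.comp ((hu1.comp Primrec.fst).pair ((hu2.comp Primrec.fst).pair Primrec.snd))
  have h := hP (fun z e => gg b z.unpair.2 e) (fun z i j => F z.unpair.1 z.unpair.2 i j) hg hF'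
  have f1 : Primrec fun y : ℕ × ℕ × ℕ × ℕ × ℕ => y.1 := Primrec.fst
  have f2 : Primrec fun y : ℕ × ℕ × ℕ × ℕ × ℕ => y.2.1 := Primrec.fst.comp Primrec.snd
  have f3 : Primrec fun y : ℕ × ℕ × ℕ × ℕ × ℕ => y.2.2.1 :=
    Primrec.fst.comp (Primrec.snd.comp Primrec.snd)
  have f4 : Primrec fun y : ℕ × ℕ × ℕ × ℕ × ℕ => y.2.2.2.1 :=
    Primrec.fst.comp (Primrec.snd.comp (Primrec.snd.comp Primrec.snd))
  have f5 : Primrec fun y : ℕ × ℕ × ℕ × ℕ × ℕ => y.2.2.2.2 :=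
    Primrec.snd.comp (Primrec.snd.comp (Primrec.snd.comp Primrec.snd))
  have hcc : Primrec fun y : ℕ × ℕ × ℕ × ℕ × ℕ =>
      cl b (F y.1) y.2.1 y.2.2.1 y.2.2.2.1 y.2.2.2.2 := by
    refine (h.comp ((Primrec₂.natPair.comp f1 f2).pair ((Primrec.nat_sub.comp f2 f3).pair
      (f4.pair f5)))).of_eq fun y => ?_
    simp only [Nat.unpair_pair]
    rfl
  unfold Sat
  exact PrimrecPred.and (Primrec.nat_le.comp f3 f2) (Primrec.eq.comp hcc
    (primrec_two_pow.comp (Primrec.nat_sub.comp ((primrec_G b).comp f2) ((primrec_G b).comp f3))))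

/-- the enumeration is decidable; the argument is `(m, J, i, j, l)` -/
theorem primrec_En (hP : PrimStm) {F : ℕ → ℕ → ℕ → ℕ → ℕ}
    (hF : Primrec fun z : ℕ × ℕ × ℕ × ℕ => F z.1 z.2.1 z.2.2.1 z.2.2.2) (b : ℕ) :
    PrimrecPred fun y : ℕ × ℕ × ℕ × ℕ × ℕ => En b (F y.1) y.2.2.2.2 y.2.1 y.2.2.1 y.2.2.2.1 := by
  have f1 : Primrec fun y : ℕ × ℕ × ℕ × ℕ × ℕ => y.1 := Primrec.fst
  have f2 : Primrec fun y : ℕ × ℕ × ℕ × ℕ × ℕ => y.2.1 := Primrec.fst.comp Primrec.snd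
  have f3 : Primrec fun y : ℕ × ℕ × ℕ × ℕ × ℕ => y.2.2.1 :=
    Primrec.fst.comp (Primrec.snd.comp Primrec.snd)
  have f4 : Primrec fun y : ℕ × ℕ × ℕ × ℕ × ℕ => y.2.2.2.1 :=
    Primrec.fst.comp (Primrec.snd.comp (Primrec.snd.comp Primrec.snd))
  have f5 : Primrec fun y : ℕ × ℕ × ℕ × ℕ × ℕ => y.2.2.2.2 :=
    Primrec.snd.comp (Primrec.snd.comp (Primrec.snd.comp Primrec.snd))
  have hS := primrec_Sat hP hF b
  unfold En
  refine PrimrecPred.and (hS.comp (f1.pair (f5.pair (f2.pair (f3.pair f4)))))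
    (PrimrecPred.and ?_ ?_)
  · refine PP.all_lt (α := ℕ × ℕ × ℕ × ℕ × ℕ) (f := fun y => y.2.1)
      (p := fun y L => ¬ Sat b (F y.1) y.2.2.2.2 L (y.2.2.1 / 2 ^ (y.2.1 - L))
        (y.2.2.2.1 / 2 ^ (y.2.1 - L))) ?_ f2
    have g1 := f1.comp (Primrec.fst (α := ℕ × ℕ × ℕ × ℕ × ℕ) (β := ℕ))
    have g2 := f2.comp (Primrec.fst (α := ℕ × ℕ × ℕ × ℕ × ℕ) (β := ℕ))
    have g3 := f3.comp (Primrec.fst (α := ℕ × ℕ × ℕ × ℕ × ℕ) (β := ℕ))
    have g4 := f4.comp (Primrec.fst (α := ℕ × ℕ × ℕ × ℕ × ℕ) (β := ℕ))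
    have g5 := f5.comp (Primrec.fst (α := ℕ × ℕ × ℕ × ℕ × ℕ) (β := ℕ))
    have hp : Primrec fun z : (ℕ × ℕ × ℕ × ℕ × ℕ) × ℕ => 2 ^ (z.1.2.1 - z.2) :=
      primrec_two_pow.comp (Primrec.nat_sub.comp g2 Primrec.snd)
    exact (hS.comp (g1.pair (g5.pair (Primrec.snd.pair ((Primrec.nat_div.comp g3 hp).pair
      (Primrec.nat_div.comp g4 hp)))))).not
  · refine PP.all_lt (α := ℕ × ℕ × ℕ × ℕ × ℕ) (f := fun y => y.2.2.2.2)
      (p := fun y l' => ¬ Sat b (F y.1) l' y.2.1 y.2.2.1 y.2.2.2.1) ?_ f5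
    have g1 := f1.comp (Primrec.fst (α := ℕ × ℕ × ℕ × ℕ × ℕ) (β := ℕ))
    have g2 := f2.comp (Primrec.fst (α := ℕ × ℕ × ℕ × ℕ × ℕ) (β := ℕ))
    have g3 := f3.comp (Primrec.fst (α := ℕ × ℕ × ℕ × ℕ × ℕ) (β := ℕ))
    have g4 := f4.comp (Primrec.fst (α := ℕ × ℕ × ℕ × ℕ × ℕ) (β := ℕ))
    exact (hS.comp (g1.pair (Primrec.snd.pair (g2.pair (g3.pair g4))))).not

end Q217.PR
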