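import Pool.Agent.Q217.PR.Frost

/-!
# The energy estimate
-/

set_option autoImplicit false

namespace Q217.PR

open Finset

theorem energy {N n R CK m : ℕ} (hN : 0 < N) (a : ℕ → ℕ × ℕ → ℕ) (Hit : ℕ → ℕ × ℕ → Prop)
    [∀ k p, Decidable (Hit k p)] (w : ℕ × ℕ → ℝ) (hw : ∀ p, 0 ≤ w p) {B : ℝ}
    (haR : ∀ k < N, ∀ p ∈ range N ×ˢ range N, a k p < R * N)
    (hV : ∀ k < N, (((range N ×ˢ range N).filter (Hit k)).image (fun p => a k p % N)).card * 2 ^ n
      ≤ N)
    (hK : ∀ p ∈ range N ×ˢ range N, ∀ q ∈ range N ×ˢ range N,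
      ((range N).filter fun k => a k p = a k q).card * (1 + dst p.1 p.2 q.1 q.2) ≤ CK * N)
    (hheavy : ∀ p ∈ range N ×ˢ range N, w p ≠ 0 → N ≤ 2 ^ m * ((range N).filter fun k => Hit k p).card)
    (hpot : ∀ q ∈ range N ×ˢ range N,
      ∑ p ∈ range N ×ˢ range N, w p / (1 + dst p.1 p.2 q.1 q.2 : ℝ) ≤ B) :
    (∑ p ∈ range N ×ˢ range N, w p) * 2 ^ n ≤ R * CK * N * B * 2 ^ (2 * m) := by
  classical
  set Ω : Finset (ℕ × ℕ) := range N ×ˢ range N with hΩ
  set W : ℝ := ∑ p ∈ Ω, w p with hW
  have hW0 : 0 ≤ W := Finset.sum_nonneg fun p _ => hw p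
  have hNr : (0 : ℝ) < N := by exact_mod_cast hN
  by_cases hWz : W = 0
  · rw [hWz, zero_mul]
    have hB : 0 ≤ B := by
      refine le_trans ?_ (hpot (0, 0) (by simp [hΩ, hN]))
      apply Finset.sum_nonneg
      intro p _
      have := hw p
      positivity
    positivity
  have hWpos : 0 < W := lt_of_le_of_ne hW0 (Ne.symm hWz)
  -- the masses in the fibres
  let Nk : ℕ → ℝ := fun k => ∑ p ∈ Ω.filter (Hit k), w p
  have h1 : W * N ≤ 2 ^ m * ∑ k ∈ range N, Nk k := by
    have e1 : ∑ k ∈ range N, Nk k = ∑ p ∈ Ω, w p * (((range N).filter fun k => Hit k p).card : ℝ) := by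
      simp only [Nk, Finset.sum_filter]
      rw [Finset.sum_comm]
      apply Finset.sum_congr rfl
      intro p _
      rw [← Finset.sum_filter, Finset.sum_const, nsmul_eq_mul, mul_comm]
    rw [e1, Finset.mul_sum, hW, Finset.sum_mul]
    apply Finset.sum_le_sum
    intro p hp
    by_cases hz : w p = 0
    · rw [hz]; simp
    · have h2 := hheavy p hp hz
      have h3 : (N : ℝ) ≤ 2 ^ m * (((range N).filter fun k => Hit k p).card : ℝ) := by
        exact_mod_cast h2
      calc w p * N ≤ w p * (2 ^ m * (((range N).filter fun k => Hit k p).card : ℝ)) :=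
            mul_le_mul_of_nonneg_left h3 (hw p)
        _ = 2 ^ m * (w p * (((range N).filter fun k => Hit k p).card : ℝ)) := by ring
  have h2 : (∑ k ∈ range N, Nk k) ^ 2 ≤ N * ∑ k ∈ range N, Nk k ^ 2 := by
    have := sq_sum_le_card_mul_sum_sq (s := range N) (f := Nk)
    rwa [Finset.card_range] at this
  -- one direction
  have h3 : ∀ k ∈ range N, Nk k ^ 2 * 2 ^ n ≤ (R * N : ℝ) *
      ∑ p ∈ Ω, ∑ q ∈ Ω, (if a k p = a k q then w p * w q else 0) := by
    intro k hk
    rw [Finset.mem_range] at hk
    set V : Finset ℕ := (Ω.filter (Hit k)).image (a k) with hVdef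
    have hcardV : V.card ≤ R * ((Ω.filter (Hit k)).image (fun p => a k p % N)).card := by
      have hsub : V ⊆ ((Finset.range R) ×ˢ ((Ω.filter (Hit k)).image (fun p => a k p % N))).image
          (fun z => z.1 * N + z.2) := by
        intro v hv
        rw [hVdef, Finset.mem_image] at hv
        obtain ⟨p, hp, rfl⟩ := hv
        rw [Finset.mem_image]
        refine ⟨(a k p / N, a k p % N), ?_, ?_⟩
        · rw [Finset.mem_product]
          refine ⟨?_, Finset.mem_image_of_mem _ hp⟩
          rw [Finset.mem_range]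
          apply Nat.div_lt_of_lt_mul
          rw [mul_comm]
          exact haR k hk p (Finset.mem_filter.1 hp).1
        · simp only
          rw [mul_comm]
          exact Nat.div_add_mod _ _
      calc V.card ≤ _ := Finset.card_le_card hsub
        _ ≤ _ := Finset.card_image_le
        _ = _ := by rw [Finset.card_product, Finset.card_range]
    have hcard2 : (V.card : ℝ) * 2 ^ n ≤ R * N := by
      have h4 : V.card * 2 ^ n ≤ R * N := by
        calc V.card * 2 ^ n ≤ R * ((Ω.filter (Hit k)).image (fun p => a k p % N)).card * 2 ^ n :=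
              Nat.mul_le_mul_right _ hcardV
          _ = R * (((Ω.filter (Hit k)).image (fun p => a k p % N)).card * 2 ^ n) := by ring
          _ ≤ R * N := Nat.mul_le_mul_left _ (hV k hk)
      exact_mod_cast h4
    have h5 : Nk k = ∑ v ∈ V, ∑ p ∈ (Ω.filter (Hit k)).filter (fun p => a k p = v), w p := by
      simp only [Nk]
      rw [Finset.sum_fiberwise_of_maps_to]
      intro p hp
      exact Finset.mem_image_of_mem _ hp
    have h6 : Nk k ^ 2 ≤ V.card *
        ∑ v ∈ V, (∑ p ∈ (Ω.filter (Hit k)).filter (fun p => a k p = v), w p) ^ 2 := by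
      rw [h5]
      exact sq_sum_le_card_mul_sum_sq
    have h7 : ∑ v ∈ V, (∑ p ∈ (Ω.filter (Hit k)).filter (fun p => a k p = v), w p) ^ 2 ≤
        ∑ p ∈ Ω, ∑ q ∈ Ω, (if a k p = a k q then w p * w q else 0) := by
      have h8 : ∀ v, (∑ p ∈ (Ω.filter (Hit k)).filter (fun p => a k p = v), w p) ^ 2 ≤
          ∑ p ∈ Ω.filter (fun p => a k p = v), ∑ q ∈ Ω, (if a k p = a k q then w p * w q else 0) := by
        intro v
        have h9 : ∑ p ∈ (Ω.filter (Hit k)).filter (fun p => a k p = v), w p ≤
            ∑ p ∈ Ω.filter (fun p => a k p = v), w p := by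
          apply Finset.sum_le_sum_of_subset_of_nonneg
          · exact Finset.filter_subset_filter _ (Finset.filter_subset _ _)
          · intro p _ _; exact hw p
        have h10 : 0 ≤ ∑ p ∈ (Ω.filter (Hit k)).filter (fun p => a k p = v), w p :=
          Finset.sum_nonneg fun p _ => hw p
        calc (∑ p ∈ (Ω.filter (Hit k)).filter (fun p => a k p = v), w p) ^ 2
            ≤ (∑ p ∈ Ω.filter (fun p => a k p = v), w p) ^ 2 := pow_le_pow_left₀ h10 h9 2
          _ = ∑ p ∈ Ω.filter (fun p => a k p = v), ∑ q ∈ Ω.filter (fun p => a k p = v),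
              w p * w q := by rw [sq, Finset.sum_mul_sum]
          _ = _ := by
            apply Finset.sum_congr rfl
            intro p hp
            rw [Finset.mem_filter] at hp
            rw [Finset.sum_filter]
            apply Finset.sum_congr rfl
            intro q _
            rw [hp.2]
            by_cases hq : a k q = v
            · rw [if_pos hq, if_pos hq.symm]
            · rw [if_neg hq, if_neg (fun h => hq h.symm)]
      calc ∑ v ∈ V, (∑ p ∈ (Ω.filter (Hit k)).filter (fun p => a k p = v), w p) ^ 2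
          ≤ ∑ v ∈ V, ∑ p ∈ Ω.filter (fun p => a k p = v),
            ∑ q ∈ Ω, (if a k p = a k q then w p * w q else 0) := Finset.sum_le_sum fun v _ => h8 v
        _ ≤ ∑ v ∈ Ω.image (a k), ∑ p ∈ Ω.filter (fun p => a k p = v),
            ∑ q ∈ Ω, (if a k p = a k q then w p * w q else 0) := by
            apply Finset.sum_le_sum_of_subset_of_nonneg
            · exact Finset.image_subset_image (Finset.filter_subset _ _)
            · intro v _ _
              apply Finset.sum_nonneg
              intro p _
              apply Finset.sum_nonneg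
              intro q _
              have := hw p
              have := hw q
              split_ifs <;> positivity
        _ = _ := by
            rw [Finset.sum_fiberwise_of_maps_to]
            intro p hp
            exact Finset.mem_image_of_mem _ hp
    have h11 : 0 ≤ ∑ p ∈ Ω, ∑ q ∈ Ω, (if a k p = a k q then w p * w q else 0) := by
      apply Finset.sum_nonneg
      intro p _
      apply Finset.sum_nonneg
      intro q _
      have := hw p
      have := hw q
      split_ifs <;> positivity
    calc Nk k ^ 2 * 2 ^ n ≤ (V.card *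
        ∑ v ∈ V, (∑ p ∈ (Ω.filter (Hit k)).filter (fun p => a k p = v), w p) ^ 2) * 2 ^ n :=
          mul_le_mul_of_nonneg_right h6 (by positivity)
      _ ≤ (V.card * ∑ p ∈ Ω, ∑ q ∈ Ω, (if a k p = a k q then w p * w q else 0)) * 2 ^ n := by
          apply mul_le_mul_of_nonneg_right _ (by positivity)
          exact mul_le_mul_of_nonneg_left h7 (by positivity)
      _ = (V.card * 2 ^ n) * ∑ p ∈ Ω, ∑ q ∈ Ω, (if a k p = a k q then w p * w q else 0) := by ring
      _ ≤ _ := mul_le_mul_of_nonneg_right hcard2 h11
  -- all directions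
  have h4 : (∑ k ∈ range N, Nk k ^ 2) * 2 ^ n ≤ (R * N : ℝ) * (CK * N * (W * B)) := by
    calc (∑ k ∈ range N, Nk k ^ 2) * 2 ^ n = ∑ k ∈ range N, Nk k ^ 2 * 2 ^ n := Finset.sum_mul _ _ _
      _ ≤ ∑ k ∈ range N, (R * N : ℝ) *
          ∑ p ∈ Ω, ∑ q ∈ Ω, (if a k p = a k q then w p * w q else 0) := Finset.sum_le_sum h3
      _ = (R * N : ℝ) * ∑ p ∈ Ω, ∑ q ∈ Ω,
          w p * w q * (((range N).filter fun k => a k p = a k q).card : ℝ) := by
          rw [← Finset.mul_sum, Finset.sum_comm]
          congr 1
          apply Finset.sum_congr rfl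
          intro p _
          rw [Finset.sum_comm]
          apply Finset.sum_congr rfl
          intro q _
          rw [← Finset.sum_filter, Finset.sum_const, nsmul_eq_mul, mul_comm]
      _ ≤ (R * N : ℝ) * (CK * N * (W * B)) := by
          apply mul_le_mul_of_nonneg_left _ (by positivity)
          calc ∑ p ∈ Ω, ∑ q ∈ Ω, w p * w q * (((range N).filter fun k => a k p = a k q).card : ℝ)
              ≤ ∑ p ∈ Ω, ∑ q ∈ Ω, (CK * N : ℝ) * (w q * (w p / (1 + dst p.1 p.2 q.1 q.2 : ℝ))) := by
                apply Finset.sum_le_sum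
                intro p hp
                apply Finset.sum_le_sum
                intro q hq
                have h5 := hK p hp q hq
                have h6 : (((range N).filter fun k => a k p = a k q).card : ℝ) *
                    (1 + dst p.1 p.2 q.1 q.2) ≤ CK * N := by exact_mod_cast h5
                have h7 : (((range N).filter fun k => a k p = a k q).card : ℝ) ≤
                    CK * N / (1 + dst p.1 p.2 q.1 q.2) := by
                  rw [le_div_iff₀ (by positivity)]; exact h6
                calc w p * w q * (((range N).filter fun k => a k p = a k q).card : ℝ)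
                    ≤ w p * w q * (CK * N / (1 + dst p.1 p.2 q.1 q.2)) :=
                      mul_le_mul_of_nonneg_left h7 (mul_nonneg (hw p) (hw q))
                  _ = _ := by ring
            _ = ∑ q ∈ Ω, (CK * N : ℝ) * (w q * ∑ p ∈ Ω, w p / (1 + dst p.1 p.2 q.1 q.2 : ℝ)) := by
                rw [Finset.sum_comm]
                apply Finset.sum_congr rfl
                intro q _
                rw [Finset.mul_sum, Finset.mul_sum]
            _ ≤ ∑ q ∈ Ω, (CK * N : ℝ) * (w q * B) := by
                apply Finset.sum_le_sum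
                intro q hq
                apply mul_le_mul_of_nonneg_left _ (by positivity)
                exact mul_le_mul_of_nonneg_left (hpot q hq) (hw q)
            _ = CK * N * (W * B) := by
                rw [← Finset.mul_sum, ← Finset.sum_mul]
  -- conclusion
  have h5 : (W * N) ^ 2 * 2 ^ n ≤ (2 ^ m) ^ 2 * (N * ((R * N : ℝ) * (CK * N * (W * B)))) := by
    calc (W * N) ^ 2 * 2 ^ n ≤ (2 ^ m * ∑ k ∈ range N, Nk k) ^ 2 * 2 ^ n := by
          apply mul_le_mul_of_nonneg_right _ (by positivity)
          exact pow_le_pow_left₀ (by positivity) h1 2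
      _ = (2 ^ m) ^ 2 * ((∑ k ∈ range N, Nk k) ^ 2 * 2 ^ n) := by ring
      _ ≤ (2 ^ m) ^ 2 * ((N * ∑ k ∈ range N, Nk k ^ 2) * 2 ^ n) := by
          apply mul_le_mul_of_nonneg_left _ (by positivity)
          exact mul_le_mul_of_nonneg_right h2 (by positivity)
      _ = (2 ^ m) ^ 2 * (N * ((∑ k ∈ range N, Nk k ^ 2) * 2 ^ n)) := by ring
      _ ≤ _ := by
          apply mul_le_mul_of_nonneg_left _ (by positivity)
          exact mul_le_mul_of_nonneg_left h4 (by positivity)
  have h6 : (W * N ^ 2) * (W * 2 ^ n) ≤ (W * N ^ 2) * (R * CK * N * B * 2 ^ (2 * m)) := by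
    calc (W * N ^ 2) * (W * 2 ^ n) = (W * N) ^ 2 * 2 ^ n := by ring
      _ ≤ _ := h5
      _ = _ := by rw [mul_comm 2 m, pow_mul]; ring
  exact le_of_mul_le_mul_left h6 (by positivity)

end Q217.PR
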