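import Pool.Agent.Q217.PR.Stm

/-!
# The measure on the quadtree, and its energy
-/

set_option autoImplicit false

namespace Q217.PR

open Finset

/-- the mass of the square `(I, J)` of side `2 ^ e` -/
noncomputable def M (l : ℕ) (w : ℕ → ℕ → ℝ) (e I J : ℕ) : ℝ :=
  ∑ x ∈ range (2 ^ l), ∑ y ∈ range (2 ^ l), if x / 2 ^ e = I ∧ y / 2 ^ e = J then w x y else 0

theorem M_split (l : ℕ) (w : ℕ → ℕ → ℝ) (e I J : ℕ) :
    M l w (e + 1) I J = M l w e (2 * I) (2 * J) + M l w e (2 * I) (2 * J + 1) +
      M l w e (2 * I + 1) (2 * J) + M l w e (2 * I + 1) (2 * J + 1) := by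
  unfold M
  simp only [← Finset.sum_add_distrib]
  apply Finset.sum_congr rfl
  intro x _
  apply Finset.sum_congr rfl
  intro y _
  have hx : x / 2 ^ (e + 1) = x / 2 ^ e / 2 := by rw [pow_succ, Nat.div_div_eq_div_mul]
  have hy : y / 2 ^ (e + 1) = y / 2 ^ e / 2 := by rw [pow_succ, Nat.div_div_eq_div_mul]
  rw [hx, hy]
  generalize x / 2 ^ e = X
  generalize y / 2 ^ e = Y
  rcases Nat.even_or_odd' X with ⟨X', hX | hX⟩ <;> rcases Nat.even_or_odd' Y with ⟨Y', hY | hY⟩ <;>
  subst hX <;> subst hY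
  · have h1 : (2 * X' / 2 = I ∧ 2 * Y' / 2 = J) ↔ (2 * X' = 2 * I ∧ 2 * Y' = 2 * J) := by omega
    have h2 : ¬ (2 * X' = 2 * I ∧ 2 * Y' = 2 * J + 1) := by omega
    have h3 : ¬ (2 * X' = 2 * I + 1 ∧ 2 * Y' = 2 * J) := by omega
    have h4 : ¬ (2 * X' = 2 * I + 1 ∧ 2 * Y' = 2 * J + 1) := by omega
    simp only [h1, h2, h3, h4, if_false, add_zero]
  · have h1 : (2 * X' / 2 = I ∧ (2 * Y' + 1) / 2 = J) ↔ (2 * X' = 2 * I ∧ 2 * Y' + 1 = 2 * J + 1) := by
      omega
    have h2 : ¬ (2 * X' = 2 * I ∧ 2 * Y' + 1 = 2 * J) := by omega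
    have h3 : ¬ (2 * X' = 2 * I + 1 ∧ 2 * Y' + 1 = 2 * J) := by omega
    have h4 : ¬ (2 * X' = 2 * I + 1 ∧ 2 * Y' + 1 = 2 * J + 1) := by omega
    simp only [h1, h2, h3, h4, if_false, add_zero, zero_add]
  · have h1 : ((2 * X' + 1) / 2 = I ∧ 2 * Y' / 2 = J) ↔ (2 * X' + 1 = 2 * I + 1 ∧ 2 * Y' = 2 * J) := by
      omega
    have h2 : ¬ (2 * X' + 1 = 2 * I ∧ 2 * Y' = 2 * J) := by omega
    have h3 : ¬ (2 * X' + 1 = 2 * I ∧ 2 * Y' = 2 * J + 1) := by omega
    have h4 : ¬ (2 * X' + 1 = 2 * I + 1 ∧ 2 * Y' = 2 * J + 1) := by omega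
    simp only [h1, h2, h3, h4, if_false, add_zero, zero_add]
  · have h1 : ((2 * X' + 1) / 2 = I ∧ (2 * Y' + 1) / 2 = J) ↔
        (2 * X' + 1 = 2 * I + 1 ∧ 2 * Y' + 1 = 2 * J + 1) := by omega
    have h2 : ¬ (2 * X' + 1 = 2 * I ∧ 2 * Y' + 1 = 2 * J) := by omega
    have h3 : ¬ (2 * X' + 1 = 2 * I ∧ 2 * Y' + 1 = 2 * J + 1) := by omega
    have h4 : ¬ (2 * X' + 1 = 2 * I + 1 ∧ 2 * Y' + 1 = 2 * J) := by omega
    simp only [h1, h2, h3, h4, if_false, zero_add]

/-- the reweighted masses -/
noncomputable def wt (g : ℕ → ℕ) (F : ℕ → ℕ → ℕ) : ℕ → ℕ → ℕ → ℝ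
  | 0, x, y => F x y
  | d + 1, x, y => ((cc g F (d + 1) (x / 2 ^ (d + 1)) (y / 2 ^ (d + 1)) : ℕ) : ℝ) /
      ((cc g F d (2 * (x / 2 ^ (d + 1))) (2 * (y / 2 ^ (d + 1))) +
        cc g F d (2 * (x / 2 ^ (d + 1))) (2 * (y / 2 ^ (d + 1)) + 1) +
        cc g F d (2 * (x / 2 ^ (d + 1)) + 1) (2 * (y / 2 ^ (d + 1))) +
        cc g F d (2 * (x / 2 ^ (d + 1)) + 1) (2 * (y / 2 ^ (d + 1)) + 1) : ℕ) : ℝ) * wt g F d x y

theorem wt_nonneg (g : ℕ → ℕ) (F : ℕ → ℕ → ℕ) (d x y : ℕ) : 0 ≤ wt g F d x y := by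
  induction d with
  | zero => simp [wt]
  | succ d ih => rw [wt]; positivity

theorem wt_supp (g : ℕ → ℕ) (F : ℕ → ℕ → ℕ) (d x y : ℕ) (h : F x y = 0) : wt g F d x y = 0 := by
  induction d with
  | zero => simp [wt, h]
  | succ d ih => rw [wt, ih, mul_zero]

theorem M_mul (l : ℕ) (w : ℕ → ℕ → ℝ) (ρ : ℕ → ℕ → ℝ) (d e I J : ℕ) (hd : e ≤ d) :
    M l (fun x y => ρ (x / 2 ^ d) (y / 2 ^ d) * w x y) e I J =
      ρ (I / 2 ^ (d - e)) (J / 2 ^ (d - e)) * M l w e I J := by
  unfold M
  rw [Finset.mul_sum]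
  apply Finset.sum_congr rfl
  intro x _
  rw [Finset.mul_sum]
  apply Finset.sum_congr rfl
  intro y _
  by_cases h : x / 2 ^ e = I ∧ y / 2 ^ e = J
  · rw [if_pos h, if_pos h, ← h.1, ← h.2, Nat.div_div_eq_div_mul, Nat.div_div_eq_div_mul, ← pow_add,
      Nat.add_sub_cancel' hd]
  · rw [if_neg h, if_neg h, mul_zero]

/-- the masses of the squares -/
theorem M_wt (g : ℕ → ℕ) (F : ℕ → ℕ → ℕ) (l : ℕ) (d : ℕ) (hd : d ≤ l) :
    (∀ I J, I < 2 ^ (l - d) → J < 2 ^ (l - d) → M l (wt g F d) d I J = cc g F d I J) ∧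
    ((∀ x y, F x y ≤ g 0) → ∀ e ≤ d, ∀ I J, M l (wt g F d) e I J ≤ g e) := by
  induction d with
  | zero =>
    have hM : ∀ I J, M l (wt g F 0) 0 I J = if I < 2 ^ l ∧ J < 2 ^ l then (F I J : ℝ) else 0 := by
      intro I J
      unfold M
      simp only [pow_zero, Nat.div_one, wt]
      by_cases hI : I < 2 ^ l
      · rw [Finset.sum_eq_single I]
        · by_cases hJ : J < 2 ^ l
          · rw [Finset.sum_eq_single J]
            · simp [hI, hJ]
            · intro y _ hy
              rw [if_neg]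
              rintro ⟨-, rfl⟩
              exact hy rfl
            · intro h
              exact absurd (Finset.mem_range.2 hJ) h
          · rw [if_neg (fun h => hJ h.2)]
            apply Finset.sum_eq_zero
            intro y hy
            rw [Finset.mem_range] at hy
            rw [if_neg]
            rintro ⟨-, rfl⟩
            exact hJ hy
        · intro x _ hx
          apply Finset.sum_eq_zero
          intro y _
          rw [if_neg]
          rintro ⟨rfl, -⟩
          exact hx rfl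
        · intro h
          exact absurd (Finset.mem_range.2 hI) h
      · rw [if_neg (fun h => hI h.1)]
        apply Finset.sum_eq_zero
        intro x hx
        apply Finset.sum_eq_zero
        intro y _
        rw [Finset.mem_range] at hx
        rw [if_neg]
        rintro ⟨rfl, -⟩
        exact hI hx
    constructor
    · intro I J hI hJ
      rw [hM, if_pos ⟨by simpa using hI, by simpa using hJ⟩]
      rfl
    · intro hF e he I J
      have : e = 0 := by omega
      subst this
      rw [hM]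
      split_ifs
      · exact_mod_cast hF I J
      · positivity
  | succ d ih =>
    obtain ⟨ih1, ih2⟩ := ih (by omega)
    let S : ℕ → ℕ → ℕ := fun I J => cc g F d (2 * I) (2 * J) + cc g F d (2 * I) (2 * J + 1) +
        cc g F d (2 * I + 1) (2 * J) + cc g F d (2 * I + 1) (2 * J + 1)
    let ρ : ℕ → ℕ → ℝ := fun I J => ((cc g F (d + 1) I J : ℕ) : ℝ) / (S I J : ℝ)
    have hw : wt g F (d + 1) = fun x y => ρ (x / 2 ^ (d + 1)) (y / 2 ^ (d + 1)) * wt g F d x y := by
      funext x y
      rw [wt]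
    have hρ0 : ∀ I J, 0 ≤ ρ I J := fun I J => by positivity
    have hρ1 : ∀ I J, ρ I J ≤ 1 := by
      intro I J
      apply div_le_one_of_le₀ _ (by positivity)
      rw [cc]
      exact_mod_cast min_le_right _ _
    have key : ∀ I J, I < 2 ^ (l - (d + 1)) → J < 2 ^ (l - (d + 1)) →
        M l (wt g F (d + 1)) (d + 1) I J = cc g F (d + 1) I J := by
      intro I J hI hJ
      rw [hw, M_mul l _ ρ (d + 1) (d + 1) I J le_rfl]
      simp only [Nat.sub_self, pow_zero, Nat.div_one]
      rw [M_split]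
      have h2 : l - d = (l - (d + 1)) + 1 := by omega
      have h3 : 2 ^ (l - d) = 2 * 2 ^ (l - (d + 1)) := by rw [h2, pow_succ]; ring
      rw [ih1 _ _ (by omega) (by omega), ih1 _ _ (by omega) (by omega),
        ih1 _ _ (by omega) (by omega), ih1 _ _ (by omega) (by omega)]
      have h4 : ((cc g F d (2 * I) (2 * J) : ℕ) : ℝ) + (cc g F d (2 * I) (2 * J + 1) : ℕ) +
        (cc g F d (2 * I + 1) (2 * J) : ℕ) + (cc g F d (2 * I + 1) (2 * J + 1) : ℕ) = (S I J : ℝ) := by
        simp only [S]; push_cast; ring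
      rw [h4]
      by_cases hS : S I J = 0
      · have h5 : cc g F (d + 1) I J = 0 := by
          rw [cc]
          have : min (g (d + 1)) (S I J) = 0 := by rw [hS]; simp
          exact this
        rw [h5, hS]; simp
      · simp only [ρ]
        rw [div_mul_cancel₀]
        exact_mod_cast hS
    refine ⟨key, ?_⟩
    intro hF e he I J
    rcases Nat.lt_or_ge e (d + 1) with hlt | hge
    · rw [hw, M_mul l _ ρ (d + 1) e I J he]
      have h1 := ih2 hF e (by omega) I J
      have h0 : 0 ≤ M l (wt g F d) e I J := by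
        unfold M
        apply Finset.sum_nonneg
        intro x _
        apply Finset.sum_nonneg
        intro y _
        split_ifs
        · exact wt_nonneg _ _ _ _ _
        · exact le_rfl
      calc ρ (I / 2 ^ (d + 1 - e)) (J / 2 ^ (d + 1 - e)) * M l (wt g F d) e I J
          ≤ 1 * M l (wt g F d) e I J := mul_le_mul_of_nonneg_right (hρ1 _ _) h0
        _ ≤ g e := by rw [one_mul]; exact h1
    · have he' : e = d + 1 := by omega
      subst he'
      by_cases hI : I < 2 ^ (l - (d + 1)) ∧ J < 2 ^ (l - (d + 1))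
      · rw [key I J hI.1 hI.2]
        rw [cc]
        exact_mod_cast min_le_left _ _
      · have : M l (wt g F (d + 1)) (d + 1) I J = 0 := by
          unfold M
          apply Finset.sum_eq_zero
          intro x hx
          apply Finset.sum_eq_zero
          intro y hy
          rw [Finset.mem_range] at hx hy
          rw [if_neg]
          rintro ⟨rfl, rfl⟩
          apply hI
          have e1 : 2 ^ l = 2 ^ (l - (d + 1)) * 2 ^ (d + 1) := by
            rw [← pow_add]; congr 1; omega
          rw [e1] at hx hy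
          exact ⟨Nat.div_lt_of_lt_mul (by rw [mul_comm]; exact hx),
            Nat.div_lt_of_lt_mul (by rw [mul_comm]; exact hy)⟩
        rw [this]
        positivity

/-- the distance in the grid -/
def dst (x y x' y' : ℕ) : ℕ := max (max (x - x') (x' - x)) (max (y - y') (y' - y))

/-- the potential of the measure -/
theorem potential {g : ℕ → ℕ} {l : ℕ} {w : ℕ → ℕ → ℝ} (hw : ∀ x y, 0 ≤ w x y)
    (hM : ∀ e ≤ l, ∀ I J, M l w e I J ≤ g e) {x₀ y₀ : ℕ} (hx₀ : x₀ < 2 ^ l) (hy₀ : y₀ < 2 ^ l) :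
    ∑ x ∈ range (2 ^ l), ∑ y ∈ range (2 ^ l), w x y / (1 + dst x y x₀ y₀ : ℝ) ≤
      ∑ e ∈ range (l + 1), 18 * (g e : ℝ) / 2 ^ e := by
  have hpt : ∀ x < 2 ^ l, ∀ y < 2 ^ l, w x y / (1 + dst x y x₀ y₀ : ℝ) ≤
      ∑ e ∈ range (l + 1), (2 / 2 ^ e) * (if dst x y x₀ y₀ < 2 ^ e then w x y else 0) := by
    intro x hx y hy
    have hD : dst x y x₀ y₀ < 2 ^ l := by unfold dst; omega
    have hnn : ∀ e ∈ range (l + 1),
        0 ≤ (2 / 2 ^ e : ℝ) * (if dst x y x₀ y₀ < 2 ^ e then w x y else 0) := by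
      intro e _
      have := hw x y
      split_ifs <;> positivity
    obtain ⟨e, he, h1, h2⟩ : ∃ e ≤ l, dst x y x₀ y₀ < 2 ^ e ∧ 2 ^ e ≤ 2 * (1 + dst x y x₀ y₀) := by
      rcases Nat.eq_zero_or_pos (dst x y x₀ y₀) with h0 | hpos
      · exact ⟨0, Nat.zero_le _, by simp [h0], by simp [h0]⟩
      · refine ⟨Nat.log 2 (dst x y x₀ y₀) + 1, ?_, Nat.lt_pow_succ_log_self (by norm_num) _, ?_⟩
        · exact Nat.log_lt_of_lt_pow (by omega) hD
        · rw [pow_succ]
          have := Nat.pow_log_le_self 2 (x := dst x y x₀ y₀) (by omega)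
          omega
    have h3 := Finset.single_le_sum hnn (Finset.mem_range.2 (by omega : e < l + 1))
    refine le_trans ?_ h3
    rw [if_pos h1]
    have h4 : (1 : ℝ) / (1 + dst x y x₀ y₀) ≤ 2 / 2 ^ e := by
      rw [div_le_div_iff₀ (by positivity) (by positivity)]
      have : ((2 ^ e : ℕ) : ℝ) ≤ ((2 * (1 + dst x y x₀ y₀) : ℕ) : ℝ) := by exact_mod_cast h2
      push_cast at this
      linarith
    calc w x y / (1 + dst x y x₀ y₀ : ℝ) = (1 / (1 + dst x y x₀ y₀)) * w x y := by ring
      _ ≤ 2 / 2 ^ e * w x y := mul_le_mul_of_nonneg_right h4 (hw x y)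
  calc ∑ x ∈ range (2 ^ l), ∑ y ∈ range (2 ^ l), w x y / (1 + dst x y x₀ y₀ : ℝ)
      ≤ ∑ x ∈ range (2 ^ l), ∑ y ∈ range (2 ^ l), ∑ e ∈ range (l + 1),
        (2 / 2 ^ e) * (if dst x y x₀ y₀ < 2 ^ e then w x y else 0) := by
        apply Finset.sum_le_sum
        intro x hx
        apply Finset.sum_le_sum
        intro y hy
        exact hpt x (Finset.mem_range.1 hx) y (Finset.mem_range.1 hy)
    _ = ∑ e ∈ range (l + 1), ∑ x ∈ range (2 ^ l), ∑ y ∈ range (2 ^ l),
        (2 / 2 ^ e : ℝ) * (if dst x y x₀ y₀ < 2 ^ e then w x y else 0) := by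
        rw [Finset.sum_congr rfl (fun x _ => Finset.sum_comm), Finset.sum_comm]
    _ ≤ ∑ e ∈ range (l + 1), 18 * (g e : ℝ) / 2 ^ e := by
        apply Finset.sum_le_sum
        intro e he
        rw [Finset.mem_range] at he
        have h9 : ∑ x ∈ range (2 ^ l), ∑ y ∈ range (2 ^ l),
            (if dst x y x₀ y₀ < 2 ^ e then w x y else 0) ≤ 9 * (g e : ℝ) := by
          have hle : ∀ x y, (if dst x y x₀ y₀ < 2 ^ e then w x y else 0) ≤
              ∑ a ∈ range 3, ∑ b ∈ range 3, (if x / 2 ^ e = x₀ / 2 ^ e + a - 1 ∧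
                y / 2 ^ e = y₀ / 2 ^ e + b - 1 then w x y else 0) := by
            intro x y
            have hnn : ∀ a ∈ range 3, 0 ≤ ∑ b ∈ range 3, (if x / 2 ^ e = x₀ / 2 ^ e + a - 1 ∧
                y / 2 ^ e = y₀ / 2 ^ e + b - 1 then w x y else 0) := by
              intro a _
              apply Finset.sum_nonneg
              intro b _
              split_ifs
              · exact hw x y
              · exact le_rfl
            split_ifs with h
            · have hp : 0 < 2 ^ e := by positivity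
              have hcl : ∀ u v : ℕ, u - v < 2 ^ e → v - u < 2 ^ e →
                  ∃ a < 3, u / 2 ^ e = v / 2 ^ e + a - 1 := by
                intro u v h1 h2
                have h7 : u / 2 ^ e ≤ v / 2 ^ e + 1 := by
                  rw [← Nat.add_div_right _ hp]
                  exact Nat.div_le_div_right (by omega)
                have h8 : v / 2 ^ e ≤ u / 2 ^ e + 1 := by
                  rw [← Nat.add_div_right _ hp]
                  exact Nat.div_le_div_right (by omega)
                generalize u / 2 ^ e = U at h7 h8 ⊢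
                generalize v / 2 ^ e = V at h7 h8 ⊢
                exact ⟨U + 1 - V, by omega, by omega⟩
              unfold dst at h
              obtain ⟨a, ha, ha'⟩ := hcl x x₀ (by omega) (by omega)
              obtain ⟨b, hb, hb'⟩ := hcl y y₀ (by omega) (by omega)
              refine le_trans ?_ (Finset.single_le_sum hnn (Finset.mem_range.2 ha))
              refine le_trans ?_ (Finset.single_le_sum (f := fun b =>
                (if x / 2 ^ e = x₀ / 2 ^ e + a - 1 ∧
                y / 2 ^ e = y₀ / 2 ^ e + b - 1 then w x y else 0)) (fun b _ => ?_)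
                (Finset.mem_range.2 hb))
              · rw [if_pos ⟨ha', hb'⟩]
              · show 0 ≤ (if x / 2 ^ e = x₀ / 2 ^ e + a - 1 ∧
                  y / 2 ^ e = y₀ / 2 ^ e + b - 1 then w x y else 0)
                split_ifs
                · exact hw x y
                · exact le_rfl
            · exact Finset.sum_nonneg hnn
          calc ∑ x ∈ range (2 ^ l), ∑ y ∈ range (2 ^ l),
                (if dst x y x₀ y₀ < 2 ^ e then w x y else 0)
              ≤ ∑ x ∈ range (2 ^ l), ∑ y ∈ range (2 ^ l), ∑ a ∈ range 3, ∑ b ∈ range 3,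
                (if x / 2 ^ e = x₀ / 2 ^ e + a - 1 ∧
                y / 2 ^ e = y₀ / 2 ^ e + b - 1 then w x y else 0) := by
                apply Finset.sum_le_sum
                intro x _
                apply Finset.sum_le_sum
                intro y _
                exact hle x y
            _ = ∑ a ∈ range 3, ∑ b ∈ range 3,
                M l w e (x₀ / 2 ^ e + a - 1) (y₀ / 2 ^ e + b - 1) := by
                unfold M
                rw [Finset.sum_congr rfl (fun x _ => Finset.sum_comm), Finset.sum_comm]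
                apply Finset.sum_congr rfl
                intro a _
                rw [Finset.sum_congr rfl (fun x _ => Finset.sum_comm), Finset.sum_comm]
            _ ≤ ∑ a ∈ range 3, ∑ b ∈ range 3, (g e : ℝ) := by
                apply Finset.sum_le_sum
                intro a _
                apply Finset.sum_le_sum
                intro b _
                exact hM e (by omega) _ _
            _ = 9 * (g e : ℝ) := by simp; ring
        calc ∑ x ∈ range (2 ^ l), ∑ y ∈ range (2 ^ l),
              (2 / 2 ^ e : ℝ) * (if dst x y x₀ y₀ < 2 ^ e then w x y else 0)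
            = (2 / 2 ^ e : ℝ) * ∑ x ∈ range (2 ^ l), ∑ y ∈ range (2 ^ l),
              (if dst x y x₀ y₀ < 2 ^ e then w x y else 0) := by
              rw [Finset.mul_sum]
              apply Finset.sum_congr rfl
              intro x _
              rw [Finset.mul_sum]
          _ ≤ (2 / 2 ^ e : ℝ) * (9 * (g e : ℝ)) := mul_le_mul_of_nonneg_left h9 (by positivity)
          _ = 18 * (g e : ℝ) / 2 ^ e := by ring

end Q217.PR
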