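import Pool.Agent.Q217.PR.Str
import Pool.Agent.Q217.PR.Root

/-! The predicate that all cells near the projection are enumerated. -/

set_option autoImplicit false

namespace Q217.PR

open Pool.Agent.Helper227
open scoped ENNReal

/-- the cell `τ` is enumerated at stage `l` with the oracle string `σ` -/
def EL (Q : List Bool × ℕ × List Bool → ℕ → Prop) (l n : ℕ) (σ τ : List Bool) : Prop :=
  ∃ s < σ.length + 1, ∃ t < τ.length + 1, Q (σ.take s, n, τ.take t) l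

theorem EL.mono {Q : List Bool × ℕ × List Bool → ℕ → Prop}
    (hQ : ∀ a m n, m ≤ n → Q a m → Q a n) {l l' n : ℕ} {σ σ' τ τ' : List Bool} (hl : l ≤ l')
    (hσ : σ <+: σ') (hτ : τ <+: τ') (h : EL Q l n σ τ) : EL Q l' n σ' τ' := by
  obtain ⟨s, hs, t, ht, h⟩ := h
  have h1 := hσ.length_le
  have h2 := hτ.length_le
  refine ⟨s, by omega, t, by omega, hQ _ _ _ hl ?_⟩
  have e1 : σ.take s = σ'.take s := by
    rw [List.prefix_iff_eq_take] at hσ
    rw [hσ, List.take_take, min_eq_left (by omega)]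
  have e2 : τ.take t = τ'.take t := by
    rw [List.prefix_iff_eq_take] at hτ
    rw [hτ, List.take_take, min_eq_left (by omega)]
  rw [← e1, ← e2]
  exact h

theorem primrec_EL {Q : List Bool × ℕ × List Bool → ℕ → Prop} (hQ : PrimrecRel Q) :
    PrimrecPred fun z : ℕ × ℕ × List Bool × List Bool => EL Q z.1 z.2.1 z.2.2.1 z.2.2.2 := by
  unfold EL
  refine PP.ex_lt (α := ℕ × ℕ × List Bool × List Bool) (f := fun z => z.2.2.1.length + 1)
    (p := fun z s => ∃ t < z.2.2.2.length + 1, Q (z.2.2.1.take s, z.2.1, z.2.2.2.take t) z.1) ?_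
    (Primrec.succ.comp (Primrec.list_length.comp (Primrec.fst.comp (Primrec.snd.comp Primrec.snd))))
  refine PP.ex_lt (α := (ℕ × ℕ × List Bool × List Bool) × ℕ)
    (f := fun z => z.1.2.2.2.length + 1)
    (p := fun z t => Q (z.1.2.2.1.take z.2, z.1.2.1, z.1.2.2.2.take t) z.1.1) ?_
    (Primrec.succ.comp (Primrec.list_length.comp (Primrec.snd.comp (Primrec.snd.comp
      (Primrec.snd.comp Primrec.fst)))))
  have e : Primrec fun z : ((ℕ × ℕ × List Bool × List Bool) × ℕ) × ℕ => z.1.1.2.2 :=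
    Primrec.snd.comp (Primrec.snd.comp (Primrec.fst.comp Primrec.fst))
  exact hQ.comp ((Primrec.list_take.comp (Primrec.snd.comp Primrec.fst) (Primrec.fst.comp e)).pair
    ((Primrec.fst.comp (Primrec.snd.comp (Primrec.fst.comp Primrec.fst))).pair
      (Primrec.list_take.comp Primrec.snd (Primrec.snd.comp e))))
    (Primrec.fst.comp (Primrec.fst.comp Primrec.fst))

/-- all cells near the projection of the square in the given direction are enumerated -/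
def Hit (Q : List Bool × ℕ × List Bool → ℕ → Prop) (a : ℕ → ℕ → ℕ → ℕ → ℕ) (C : ℕ)
    (l n k i j : ℕ) : Prop :=
  (i < 2 ^ l ∧ j < 2 ^ l) ∧ ∀ w < 2 * (3 * C) + 1,
    EL Q l n (bs l k) (bs l (a l k i j + w + (3 * C * 2 ^ l - 3 * C)))

theorem primrec_Hit {Q : List Bool × ℕ × List Bool → ℕ → Prop} (hQ : PrimrecRel Q)
    {a : ℕ → ℕ → ℕ → ℕ → ℕ}
    (ha : Primrec fun z : ℕ × ℕ × ℕ × ℕ => a z.1 z.2.1 z.2.2.1 z.2.2.2) (C : ℕ) :
    PrimrecPred fun z : ℕ × ℕ × ℕ × ℕ × ℕ => Hit Q a C z.1 z.2.1 z.2.2.1 z.2.2.2.1 z.2.2.2.2 := by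
  unfold Hit
  have f1 : Primrec fun z : ℕ × ℕ × ℕ × ℕ × ℕ => z.1 := Primrec.fst
  have f2 : Primrec fun z : ℕ × ℕ × ℕ × ℕ × ℕ => z.2.1 := Primrec.fst.comp Primrec.snd
  have f3 : Primrec fun z : ℕ × ℕ × ℕ × ℕ × ℕ => z.2.2.1 :=
    Primrec.fst.comp (Primrec.snd.comp Primrec.snd)
  have f4 : Primrec fun z : ℕ × ℕ × ℕ × ℕ × ℕ => z.2.2.2.1 :=
    Primrec.fst.comp (Primrec.snd.comp (Primrec.snd.comp Primrec.snd))
  have f5 : Primrec fun z : ℕ × ℕ × ℕ × ℕ × ℕ => z.2.2.2.2 :=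
    Primrec.snd.comp (Primrec.snd.comp (Primrec.snd.comp Primrec.snd))
  refine PrimrecPred.and (PrimrecPred.and (Primrec.nat_lt.comp f4 (primrec_two_pow.comp f1))
    (Primrec.nat_lt.comp f5 (primrec_two_pow.comp f1))) ?_
  refine PP.all_lt (α := ℕ × ℕ × ℕ × ℕ × ℕ) (f := fun _ => 2 * (3 * C) + 1)
    (p := fun z w => EL Q z.1 z.2.1 (bs z.1 z.2.2.1)
      (bs z.1 (a z.1 z.2.2.1 z.2.2.2.1 z.2.2.2.2 + w + (3 * C * 2 ^ z.1 - 3 * C)))) ?_
    (Primrec.const _)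
  have g1 := f1.comp (Primrec.fst (α := ℕ × ℕ × ℕ × ℕ × ℕ) (β := ℕ))
  have g2 := f2.comp (Primrec.fst (α := ℕ × ℕ × ℕ × ℕ × ℕ) (β := ℕ))
  have g3 := f3.comp (Primrec.fst (α := ℕ × ℕ × ℕ × ℕ × ℕ) (β := ℕ))
  have g4 := f4.comp (Primrec.fst (α := ℕ × ℕ × ℕ × ℕ × ℕ) (β := ℕ))
  have g5 := f5.comp (Primrec.fst (α := ℕ × ℕ × ℕ × ℕ × ℕ) (β := ℕ))
  have ha' : Primrec fun z : (ℕ × ℕ × ℕ × ℕ × ℕ) × ℕ =>
      a z.1.1 z.1.2.2.1 z.1.2.2.2.1 z.1.2.2.2.2 := ha.comp (g1.pair (g3.pair (g4.pair g5)))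
  refine (primrec_EL hQ).comp (g1.pair (g2.pair ((primrec_bs.comp g1 g3).pair
    (primrec_bs.comp g1 ?_))))
  exact Primrec.nat_add.comp (Primrec.nat_add.comp ha' Primrec.snd)
    (Primrec.nat_sub.comp (Primrec.nat_mul.comp (Primrec.const (3 * C)) (primrec_two_pow.comp g1))
      (Primrec.const (3 * C)))

/-- the approximation at two consecutive levels -/
theorem approx_child {p₁ p₂ : ℤ} {a : ℕ → ℕ → ℕ → ℕ → ℕ} {C R : ℕ} (hA : IsApprox p₁ p₂ a C R)
    {l k i j k' i' j' : ℕ} (hk : k < 2 ^ l) (hi : i < 2 ^ l) (hj : j < 2 ^ l)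
    (hk' : k' / 2 = k) (hi' : i' / 2 = i) (hj' : j' / 2 = j) :
    a (l + 1) k' i' j' ≤ 2 * a l k i j + 3 * C ∧ 2 * a l k i j ≤ a (l + 1) k' i' j' + 3 * C := by
  have hlt : ∀ {u v : ℕ}, u < 2 ^ l → v / 2 = u → v < 2 ^ (l + 1) := by
    intro u v hu hv
    rw [pow_succ]; omega
  have hp : (0 : ℝ) < 2 ^ l := by positivity
  have hcell : ∀ {u v : ℕ}, v / 2 = u → (u : ℝ) / 2 ^ l ≤ (v : ℝ) / 2 ^ (l + 1) ∧
      (v : ℝ) / 2 ^ (l + 1) ≤ ((u : ℝ) + 1) / 2 ^ l := by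
    intro u v hv
    have e1 : 2 * u ≤ v := by omega
    have e2 : v ≤ 2 * u + 2 := by omega
    have e1' : (2 * u : ℝ) ≤ v := by exact_mod_cast e1
    have e2' : (v : ℝ) ≤ 2 * u + 2 := by exact_mod_cast e2
    rw [pow_succ]
    constructor
    · rw [div_le_div_iff₀ hp (by positivity)]
      nlinarith
    · rw [div_le_div_iff₀ (by positivity) hp]
      nlinarith
  have h1 := hA l k i j hk hi hj ((k' : ℝ) / 2 ^ (l + 1)) ((i' : ℝ) / 2 ^ (l + 1))
    ((j' : ℝ) / 2 ^ (l + 1)) (hcell hk').1 (hcell hk').2 (hcell hi').1 (hcell hi').2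
    (hcell hj').1 (hcell hj').2
  have hself : ∀ v : ℕ, (v : ℝ) / 2 ^ (l + 1) ≤ ((v : ℝ) + 1) / 2 ^ (l + 1) := by
    intro v
    gcongr
    linarith
  have h2 := hA (l + 1) k' i' j' (hlt hk hk') (hlt hi hi') (hlt hj hj') ((k' : ℝ) / 2 ^ (l + 1))
    ((i' : ℝ) / 2 ^ (l + 1)) ((j' : ℝ) / 2 ^ (l + 1)) le_rfl (hself _) le_rfl (hself _)
    le_rfl (hself _)
  rw [abs_le] at h1 h2
  set P := Real.cos (2 * Real.pi * ((k' : ℝ) / 2 ^ (l + 1))) * (p₁ + (i' : ℝ) / 2 ^ (l + 1)) +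
    Real.sin (2 * Real.pi * ((k' : ℝ) / 2 ^ (l + 1))) * (p₂ + (j' : ℝ) / 2 ^ (l + 1)) + (R : ℝ)
    with hP
  have e1 : (a l k i j : ℝ) / 2 ^ l = (2 * a l k i j : ℝ) / 2 ^ (l + 1) := by
    rw [pow_succ]; field_simp
  have e2 : (C : ℝ) / 2 ^ l = (2 * C : ℝ) / 2 ^ (l + 1) := by
    rw [pow_succ]; field_simp
  rw [e1, e2] at h1
  have hp' : (0 : ℝ) < 2 ^ (l + 1) := by positivity
  constructor
  · have h3 : (a (l + 1) k' i' j' : ℝ) / 2 ^ (l + 1) ≤
        (2 * a l k i j + 3 * C : ℝ) / 2 ^ (l + 1) := by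
      have : (2 * a l k i j + 3 * C : ℝ) / 2 ^ (l + 1) = (2 * a l k i j : ℝ) / 2 ^ (l + 1) +
        (2 * C : ℝ) / 2 ^ (l + 1) + (C : ℝ) / 2 ^ (l + 1) := by ring
      rw [this]
      linarith [h1.1, h1.2, h2.1, h2.2]
    rw [div_le_div_iff_of_pos_right hp'] at h3
    exact_mod_cast h3
  · have h3 : (2 * a l k i j : ℝ) / 2 ^ (l + 1) ≤
        (a (l + 1) k' i' j' + 3 * C : ℝ) / 2 ^ (l + 1) := by
      have : (a (l + 1) k' i' j' + 3 * C : ℝ) / 2 ^ (l + 1) =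
        (a (l + 1) k' i' j' : ℝ) / 2 ^ (l + 1) +
        (2 * C : ℝ) / 2 ^ (l + 1) + (C : ℝ) / 2 ^ (l + 1) := by ring
      rw [this]
      linarith [h1.1, h1.2, h2.1, h2.2]
    rw [div_le_div_iff_of_pos_right hp'] at h3
    exact_mod_cast h3

/-- hits are inherited -/
theorem Hit.child {Q : List Bool × ℕ × List Bool → ℕ → Prop}
    (hQ : ∀ a m n, m ≤ n → Q a m → Q a n) {p₁ p₂ : ℤ} {a : ℕ → ℕ → ℕ → ℕ → ℕ} {C R : ℕ}
    (hA : IsApprox p₁ p₂ a C R) {l n k i j k' i' j' : ℕ} (hk : k < 2 ^ l)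
    (hk' : k' / 2 = k) (hi' : i' / 2 = i) (hj' : j' / 2 = j) (h : Hit Q a C l n k i j) :
    Hit Q a C (l + 1) n k' i' j' := by
  obtain ⟨⟨hi, hj⟩, hw⟩ := h
  refine ⟨⟨by rw [pow_succ]; omega, by rw [pow_succ]; omega⟩, fun w' hw' => ?_⟩
  obtain ⟨h1, h2⟩ := approx_child hA hk hi hj hk' hi' hj'
  have hpos : 1 ≤ 2 ^ l := Nat.one_le_two_pow
  have hC : 3 * C ≤ 3 * C * 2 ^ l := Nat.le_mul_of_pos_right _ (by positivity)
  have e : 3 * C * 2 ^ (l + 1) = 2 * (3 * C * 2 ^ l) := by rw [pow_succ]; ring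
  set v' := a (l + 1) k' i' j' + w' + (3 * C * 2 ^ (l + 1) - 3 * C) with hv'
  have hv2 : ∃ w < 2 * (3 * C) + 1, v' / 2 = a l k i j + w + (3 * C * 2 ^ l - 3 * C) := by
    refine ⟨v' / 2 - (a l k i j + (3 * C * 2 ^ l - 3 * C)), ?_, ?_⟩
    · omega
    · omega
  obtain ⟨w, hw1, hw2⟩ := hv2
  refine EL.mono hQ (Nat.le_succ l) ?_ ?_ (hw w hw1)
  · rw [bs_succ, hk']
    exact List.prefix_append _ _
  · rw [bs_succ, hw2]
    exact List.prefix_append _ _

theorem hmono_Hv {Q : List Bool × ℕ × List Bool → ℕ → Prop}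
    (hQ : ∀ a m n, m ≤ n → Q a m → Q a n) {p₁ p₂ : ℤ} {a : ℕ → ℕ → ℕ → ℕ → ℕ} {C R : ℕ}
    (hA : IsApprox p₁ p₂ a C R) (m : ℕ) : HMono (Hv (Hit Q a C) m) := by
  classical
  have key : ∀ l x y x' y', x' / 2 = x → y' / 2 = y → Hv (Hit Q a C) m l x y = 1 →
      Hv (Hit Q a C) m (l + 1) x' y' = 1 := by
    intro l x y x' y' hx hy h
    unfold Hv at h ⊢
    have h1 : 2 ^ l < 2 ^ m * ((Finset.range (2 ^ l)).filter
        fun k => Hit Q a C l (8 * m) k x y).card := by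
      by_contra hc
      rw [if_neg hc] at h
      omega
    rw [if_pos]
    have h2 : 2 * ((Finset.range (2 ^ l)).filter fun k => Hit Q a C l (8 * m) k x y).card ≤
        ((Finset.range (2 ^ (l + 1))).filter fun k => Hit Q a C (l + 1) (8 * m) k x' y').card := by
      have h3 : (((Finset.range (2 ^ l)).filter fun k => Hit Q a C l (8 * m) k x y) ×ˢ
          Finset.range 2).card ≤
          ((Finset.range (2 ^ (l + 1))).filter fun k =>
            Hit Q a C (l + 1) (8 * m) k x' y').card := by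
        apply Finset.card_le_card_of_injOn (fun p => 2 * p.1 + p.2)
        · intro p hp
          simp only [Finset.coe_product, Set.mem_prod, Finset.mem_coe, Finset.mem_filter,
            Finset.mem_range] at hp
          simp only [Finset.coe_filter, Finset.mem_range, Set.mem_ofPred_eq]
          refine ⟨by rw [pow_succ]; omega, ?_⟩
          exact Hit.child hQ hA hp.1.1 (by omega) hx hy hp.1.2
        · intro p hp q hq hpq
          simp only [Finset.coe_product, Set.mem_prod, Finset.mem_coe, Finset.mem_filter,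
            Finset.mem_range] at hp hq hpq
          ext <;> omega
      rw [Finset.card_product, Finset.card_range] at h3
      omega
    calc 2 ^ (l + 1) = 2 * 2 ^ l := by rw [pow_succ]; ring
      _ < 2 * (2 ^ m * ((Finset.range (2 ^ l)).filter fun k =>
          Hit Q a C l (8 * m) k x y).card) := by omega
      _ = 2 ^ m * (2 * ((Finset.range (2 ^ l)).filter fun k =>
          Hit Q a C l (8 * m) k x y).card) := by ring
      _ ≤ _ := Nat.mul_le_mul_left _ h2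
  intro l x y h
  refine ⟨key l x y _ _ ?_ ?_ h, key l x y _ _ ?_ ?_ h, key l x y _ _ ?_ ?_ h,
    key l x y _ _ ?_ ?_ h⟩ <;> omega

/-- few cells are enumerated -/
theorem hitCond {E : List Bool × ℕ × List Bool → Prop}
    {Q : List Bool × ℕ × List Bool → ℕ → Prop} (hE : ∀ x, E x ↔ ∃ n, Q x n)
    (hlam : ∀ A n, lam (UE E A n) ≤ (1 / 2) ^ n) (a : ℕ → ℕ → ℕ → ℕ → ℕ) (C : ℕ) :
    HitCond a (Hit Q a C) := by
  intro l n k hk V hV
  have h1 : ∀ v ∈ V, v < 2 ^ l ∧ EL Q l n (bs l k) (bs l v) := by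
    intro v hv
    obtain ⟨x, y, hx, hy, h, rfl⟩ := hV v hv
    refine ⟨Nat.mod_lt _ (by positivity), ?_⟩
    have h2 := h.2 (3 * C) (by omega)
    have hC : 3 * C ≤ 3 * C * 2 ^ l := Nat.le_mul_of_pos_right _ (by positivity)
    have e : a l k x y + 3 * C + (3 * C * 2 ^ l - 3 * C) = a l k x y + 3 * C * 2 ^ l := by omega
    rw [e, ← bs_mod l (a l k x y + 3 * C * 2 ^ l), Nat.add_mul_mod_self_right] at h2
    exact h2
  have hinj : Set.InjOn (bs l) (V : Set ℕ) := by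
    intro v hv v' hv' h
    have h2 := congrArg val h
    rw [val_bs, val_bs, Nat.mod_eq_of_lt (h1 v hv).1, Nat.mod_eq_of_lt (h1 v' hv').1] at h2
    exact h2
  have hG := lam_finset (V.image (bs l)) l (by
    intro σ hσ
    rw [Finset.mem_image] at hσ
    obtain ⟨v, _, rfl⟩ := hσ
    simp)
  rw [Finset.card_image_of_injOn hinj] at hG
  have hsub : {X : ℕ → Bool | pre X l ∈ V.image (bs l)} ⊆
      UE E (fun i => (bs l k).getD i false) n := by
    intro X hX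
    simp only [Set.mem_ofPred_eq, Finset.mem_image] at hX
    obtain ⟨v, hv, hvX⟩ := hX
    obtain ⟨_, s, hs, t, ht, h⟩ := h1 v hv
    rw [length_bs] at hs ht
    refine ⟨s, t, (hE _).2 ⟨l, ?_⟩⟩
    have e1 : pre (fun i => (bs l k).getD i false) s = (bs l k).take s := by
      apply List.ext_getElem
      · simp; omega
      · intro i h1 h2
        rw [getElem_pre]
        rw [length_pre] at h1
        simp only [List.getD, List.getElem_take]
        rw [List.getElem?_eq_getElem (by simp; omega)]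
        rfl
    have e2 : pre X t = (bs l v).take t := by
      rw [hvX, take_pre _ _ _ (by omega)]
    rw [e1, e2]
    exact h
  have h2 := (MeasureTheory.measure_mono hsub).trans (hlam _ n)
  rw [hG] at h2
  exact (ennreal_aux _ _ _).1 h2

end Q217.PR
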