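import Pool.Agent.Q217.PR.Core

/-! The projections of points of dimension greater than one are random. -/

set_option autoImplicit false

namespace Q217.PR

open Pool.Agent.Helper227 Q217.KT
open scoped ENNReal

/-- the two cells around a dyadic rational -/
def ED (t₀ c₀ : ℕ) (x : List Bool × ℕ × List Bool) : Prop :=
  x.2.2.length = t₀ + x.2.1 + 3 ∧ (val x.2.2 = c₀ * 2 ^ (x.2.1 + 3) ∨
    val x.2.2 = (c₀ * 2 ^ (x.2.1 + 3) + 2 ^ (t₀ + x.2.1 + 3) - 1) % 2 ^ (t₀ + x.2.1 + 3))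

theorem s1_ED (t₀ c₀ : ℕ) : S1 (ED t₀ c₀) := by
  apply S1.of_prim
  unfold ED
  have hτ : Primrec fun x : List Bool × ℕ × List Bool => x.2.2 := Primrec.snd.comp Primrec.snd
  have hn : Primrec fun x : List Bool × ℕ × List Bool => x.2.1 := Primrec.fst.comp Primrec.snd
  have hn3 : Primrec fun x : List Bool × ℕ × List Bool => x.2.1 + 3 :=
    Primrec.nat_add.comp hn (Primrec.const 3)
  have ht : Primrec fun x : List Bool × ℕ × List Bool => t₀ + x.2.1 + 3 :=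
    Primrec.nat_add.comp (Primrec.nat_add.comp (Primrec.const t₀) hn) (Primrec.const 3)
  have hc : Primrec fun x : List Bool × ℕ × List Bool => c₀ * 2 ^ (x.2.1 + 3) :=
    Primrec.nat_mul.comp (Primrec.const c₀) (primrec_two_pow.comp hn3)
  have hv : Primrec fun x : List Bool × ℕ × List Bool => val x.2.2 := primrec_val.comp hτ
  exact PrimrecPred.and (Primrec.eq.comp (Primrec.list_length.comp hτ) ht)
    (PrimrecPred.or (Primrec.eq.comp hv hc) (Primrec.eq.comp hv (Primrec.nat_mod.comp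
      (Primrec.nat_sub.comp (Primrec.nat_add.comp hc (primrec_two_pow.comp ht)) (Primrec.const 1))
      (primrec_two_pow.comp ht))))

theorem lam_ED (t₀ c₀ : ℕ) (A : ℕ → Bool) (n : ℕ) : lam (UE (ED t₀ c₀) A n) ≤ (1 / 2) ^ n := by
  classical
  set t := t₀ + n + 3 with ht
  set G : Finset (List Bool) := {bs t (c₀ * 2 ^ (n + 3)),
    bs t ((c₀ * 2 ^ (n + 3) + 2 ^ t - 1) % 2 ^ t)} with hG
  have hsub : UE (ED t₀ c₀) A n ⊆ {X : ℕ → Bool | pre X t ∈ G} := by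
    rintro X ⟨s, t', h1, h2⟩
    simp only [length_pre] at h1 h2
    have h1' : t' = t := h1
    rw [h1'] at h2
    have h3 := bs_val (pre X t)
    rw [length_pre] at h3
    simp only [Set.mem_ofPred_eq, hG, Finset.mem_insert, Finset.mem_singleton]
    rcases h2 with h2 | h2
    · left; rw [← h3, h2]
    · right; rw [← h3, h2]
  refine (MeasureTheory.measure_mono hsub).trans ?_
  rw [lam_finset G t (by
    intro σ hσ
    rw [hG, Finset.mem_insert, Finset.mem_singleton] at hσ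
    rcases hσ with rfl | rfl <;> simp), ennreal_aux]
  have h1 : G.card ≤ 2 := Finset.card_le_two
  calc G.card * 2 ^ n ≤ 2 * 2 ^ n := Nat.mul_le_mul_right _ h1
    _ = 2 ^ (n + 1) := by rw [pow_succ]; ring
    _ ≤ 2 ^ t := Nat.pow_le_pow_right (by norm_num) (by omega)

theorem near_ED {v : ℝ} {z : ℤ} {t₀ : ℕ} (hv : v = z / 2 ^ t₀) (n : ℕ) (σ : List Bool) (R : ℕ)
    (y : ℝ) (hy : 0 ≤ y) (h : |y - (v + R)| < 1 / 2 ^ (t₀ + n + 3)) :
    ED t₀ (z % 2 ^ t₀).toNat (σ, n, bs (t₀ + n + 3) ⌊y * 2 ^ (t₀ + n + 3)⌋₊) := by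
  set t := t₀ + n + 3 with ht
  set c₀ := (z % 2 ^ t₀).toNat with hc₀
  have hP : (0 : ℝ) < 2 ^ t := by positivity
  have hz : (c₀ : ℤ) = z % 2 ^ t₀ := Int.toNat_of_nonneg (Int.emod_nonneg _ (by positivity))
  have hzd := Int.mul_ediv_add_emod z (2 ^ t₀)
  have hclt : c₀ < 2 ^ t₀ := by
    have := Int.emod_lt_of_pos z (by positivity : (0 : ℤ) < 2 ^ t₀)
    rw [← hz] at this
    exact_mod_cast this
  obtain ⟨u, hu⟩ : ∃ u, u = ⌊y * 2 ^ t⌋₊ := ⟨_, rfl⟩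
  rw [← hu]
  have hu1 : (u : ℝ) ≤ y * 2 ^ t := by rw [hu]; exact Nat.floor_le (by positivity)
  have hu2 : y * 2 ^ t < u + 1 := by rw [hu]; exact Nat.lt_floor_add_one _
  -- the integer `V`
  set V : ℤ := (z + R * 2 ^ t₀) * 2 ^ (n + 3) with hV
  have h2t : (2 : ℝ) ^ t = 2 ^ t₀ * 2 ^ (n + 3) := by
    rw [← pow_add]; congr 1
  have hVR : (V : ℝ) = (v + R) * 2 ^ t := by
    rw [hV, hv, h2t]
    push_cast
    field_simp
  have h2tZ : (2 : ℤ) ^ t = 2 ^ t₀ * 2 ^ (n + 3) := by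
    rw [← pow_add]; congr 1
  have h2tN : (2 : ℕ) ^ t = 2 ^ t₀ * 2 ^ (n + 3) := by
    rw [← pow_add]; congr 1
  rw [abs_lt] at h
  have hy1 : (V : ℝ) - 1 < y * 2 ^ t := by
    rw [hVR]
    have h1 : -(1 / 2 ^ t) * 2 ^ t < (y - (v + R)) * 2 ^ t := mul_lt_mul_of_pos_right h.1 hP
    have h2 : -(1 / 2 ^ t) * (2 : ℝ) ^ t = -1 := by field_simp
    rw [h2] at h1
    linarith
  have hy2 : y * 2 ^ t < (V : ℝ) + 1 := by
    rw [hVR]
    have h1 : (y - (v + R)) * 2 ^ t < (1 / 2 ^ t) * 2 ^ t := mul_lt_mul_of_pos_right h.2 hP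
    have h2 : (1 / 2 ^ t) * (2 : ℝ) ^ t = 1 := by field_simp
    rw [h2] at h1
    linarith
  have hcase : (u : ℤ) = V ∨ (u : ℤ) = V - 1 := by
    have h1 : (V : ℝ) - 1 < u + 1 := by linarith
    have h2 : (u : ℝ) < V + 1 := by linarith
    have h1' : V - 1 < (u : ℤ) + 1 := by exact_mod_cast h1
    have h2' : (u : ℤ) < V + 1 := by exact_mod_cast h2
    omega
  have hVc : V = (c₀ * 2 ^ (n + 3) : ℕ) + 2 ^ t * (z / 2 ^ t₀ + R) := by
    push_cast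
    rw [hV, h2tZ, hz]
    linear_combination -(2 ^ (n + 3) : ℤ) * hzd
  have hlt : c₀ * 2 ^ (n + 3) < 2 ^ t := by
    rw [h2tN]
    exact Nat.mul_lt_mul_of_pos_right hclt (by positivity)
  refine ⟨by simp [ht], ?_⟩
  simp only
  rw [val_bs]
  rcases hcase with h1 | h1
  · left
    have h3 : (u : ℤ) ≡ ((c₀ * 2 ^ (n + 3) : ℕ) : ℤ) [ZMOD ((2 ^ t : ℕ) : ℤ)] := by
      rw [h1, hVc]
      push_cast
      exact Int.modEq_iff_dvd.2 ⟨-(z / 2 ^ t₀ + R), by ring⟩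
    have h4 := (Int.natCast_modEq_iff).1 h3
    have h5 : u % 2 ^ t = (c₀ * 2 ^ (n + 3)) % 2 ^ t := h4
    rw [h5, Nat.mod_eq_of_lt hlt]
  · right
    have h0 : 1 ≤ 2 ^ t := Nat.one_le_two_pow
    have h3 : (u : ℤ) ≡ ((c₀ * 2 ^ (n + 3) + 2 ^ t - 1 : ℕ) : ℤ) [ZMOD ((2 ^ t : ℕ) : ℤ)] := by
      rw [h1, hVc, Nat.cast_sub (by omega)]
      push_cast
      exact Int.modEq_iff_dvd.2 ⟨1 - (z / 2 ^ t₀ + R), by ring⟩
    have h4 := (Int.natCast_modEq_iff).1 h3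
    exact h4

/-- The projection is not a dyadic rational. -/
theorem not_dyadic {U : List Bool →. List Bool} (hU : OptimalPrefixFree U) {x₁ x₂ θ : ℝ}
    (hdim : 1 < edim U x₁ x₂) (hR : MLR (join (bin x₁) (bin x₂)) (bin θ)) (z : ℤ) (t₀ : ℕ) :
    pj θ x₁ x₂ ≠ z / 2 ^ t₀ := by
  intro hv
  refine core hU hdim hR (s1_ED t₀ (z % 2 ^ t₀).toNat) (lam_ED t₀ _) fun n => ?_
  exact ⟨0, t₀ + n + 3, 1 / 2 ^ (t₀ + n + 3), by positivity, fun R y hy h =>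
    near_ED hv n _ R y hy h⟩

/-- cells of numbers near a number that is not a dyadic rational -/
theorem floor_near {v : ℝ} {t : ℕ} (hnd : ∀ z : ℤ, v ≠ z / 2 ^ t) :
    ∃ δ > (0 : ℝ), ∀ (R : ℕ) (y : ℝ), 0 ≤ y → |y - (v + R)| < δ →
      bs t ⌊y * 2 ^ t⌋₊ = pre (bin v) t := by
  have hP : (0 : ℝ) < 2 ^ t := by positivity
  obtain ⟨c, hc⟩ : ∃ c, c = ⌊v * 2 ^ t⌋ := ⟨_, rfl⟩
  have h1 : (c : ℝ) ≤ v * 2 ^ t := by rw [hc]; exact Int.floor_le _
  have h2 : v * 2 ^ t < c + 1 := by rw [hc]; exact Int.lt_floor_add_one _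
  have h1' : (c : ℝ) < v * 2 ^ t := by
    refine lt_of_le_of_ne h1 fun h => hnd c ?_
    rw [h]; field_simp
  refine ⟨min (v * 2 ^ t - c) (c + 1 - v * 2 ^ t) / 2 ^ t,
    div_pos (lt_min (by linarith) (by linarith)) hP, fun R y hy h => ?_⟩
  rw [lt_div_iff₀ hP, ← abs_of_pos hP, ← abs_mul, abs_of_pos hP, lt_min_iff, abs_lt, abs_lt] at h
  obtain ⟨⟨h3, _⟩, _, h4⟩ := h
  -- the floor
  have hfl : ⌊y * 2 ^ t⌋ = c + R * 2 ^ t := by
    rw [Int.floor_eq_iff]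
    push_cast
    constructor <;> nlinarith
  have hflN : ((⌊y * 2 ^ t⌋₊ : ℕ) : ℤ) = c + R * 2 ^ t := by
    rw [Int.natCast_floor_eq_floor (by positivity), hfl]
  have hflv : ((fl v t : ℕ) : ℤ) = c - ⌊v⌋ * 2 ^ t := by
    unfold fl
    rw [Int.natCast_floor_eq_floor (mul_nonneg (Int.fract_nonneg v) hP.le)]
    rw [Int.floor_eq_iff]
    unfold Int.fract
    push_cast
    constructor <;> nlinarith
  rw [pre_fl, ← bs_mod t ⌊y * 2 ^ t⌋₊, ← bs_mod t (fl v t)]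
  congr 1
  have h5 : ((⌊y * 2 ^ t⌋₊ : ℕ) : ℤ) ≡ ((fl v t : ℕ) : ℤ) [ZMOD ((2 ^ t : ℕ) : ℤ)] := by
    rw [hflN, hflv]
    push_cast
    exact Int.modEq_iff_dvd.2 ⟨-(⌊v⌋ + R), by ring⟩
  exact (Int.natCast_modEq_iff).1 h5

/-- **Main theorem.** -/
theorem main {U : List Bool →. List Bool} (hU : OptimalPrefixFree U) {x₁ x₂ θ : ℝ}
    (hdim : 1 < edim U x₁ x₂) (hR : MLR (join (bin x₁) (bin x₂)) (bin θ)) :
    MLR (bin θ) (bin (pj θ x₁ x₂)) := by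
  obtain ⟨E, hE, _, hlam, hiff⟩ := exists_universal
  rw [hiff]
  by_contra hcon
  push Not at hcon
  refine core hU hdim hR hE hlam fun n => ?_
  obtain ⟨s, t, hst⟩ := hcon n
  obtain ⟨δ, hδ, h⟩ := floor_near (v := pj θ x₁ x₂) (t := t)
    (fun z => not_dyadic hU hdim hR z t)
  refine ⟨s, t, δ, hδ, fun R y hy hy2 => ?_⟩
  rw [h R y hy hy2]
  exact hst

theorem tLe_zero (B : ℕ → Bool) : TLe (fun _ => false) B := by
  rw [tLe_iff]
  refine ⟨fun x => x.2.2 = false, S1.of_prim (Primrec.eq.comp (Primrec.snd.comp Primrec.snd)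
    (Primrec.const false)), fun _ _ _ _ _ h => h, fun n b => ?_⟩
  simp only [exists_const]
  exact eq_comm

end Q217.PR
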