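import Pool.Agent.Q217.PR.Dim

/-! The requests for the enumerated squares. -/

set_option autoImplicit false

namespace Q217.PR

open Pool.Agent.Helper227 Q217.KT

/-- the type of the requests `(m, J, i, j, l)` -/
abbrev Rq : Type := ℕ × ℕ × ℕ × ℕ × ℕ

/-- the admissible requests -/
def RP (b : ℕ) (F : ℕ → ℕ → ℕ → ℕ → ℕ) (y : Rq) : Prop :=
  (y.2.2.1 < 2 ^ y.2.1 ∧ y.2.2.2.1 < 2 ^ y.2.1) ∧ En b (F y.1) y.2.2.2.2 y.2.1 y.2.2.1 y.2.2.2.1

/-- the length of the requests -/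
def rl (b c : ℕ) (y : Rq) : ℕ := G b y.2.1 + y.2.1 / b + c

theorem kraft {b K c : ℕ} (hb : 1 ≤ b) (hc : 4 * b * K ≤ 2 ^ c) {F : ℕ → ℕ → ℕ → ℕ → ℕ}
    (hcount : ∀ m J (T : Finset (ℕ × ℕ)), (∀ p ∈ T, p.1 < 2 ^ J ∧ p.2 < 2 ^ J ∧
      ∃ l, En b (F m) l J p.1 p.2) → (T.card : ℝ) * 2 ^ (6 * m) ≤ K * 2 ^ (G b J))
    (A : Finset Rq) (hA : ∀ y ∈ A, RP b F y) : ∑ y ∈ A, (1 / 2 : ℝ) ^ rl b c y ≤ 1 := by
  classical
  obtain ⟨B, hB⟩ : ∃ B, ∀ y ∈ A, y.1 < B ∧ y.2.1 < B := by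
    refine ⟨∑ y ∈ A, (y.1 + y.2.1) + 1, fun n hn => ?_⟩
    have h0 : n.1 + n.2.1 ≤ ∑ y ∈ A, (y.1 + y.2.1) :=
      Finset.single_le_sum (f := fun y : Rq => y.1 + y.2.1) (fun _ _ => Nat.zero_le _) hn
    omega
  have h3 : ∀ u ∈ A, (u.1, u.2.1) ∈ Finset.range B ×ˢ Finset.range B := by
    intro u hu
    rw [Finset.mem_product, Finset.mem_range, Finset.mem_range]
    exact hB u hu
  rw [← Finset.sum_fiberwise_of_maps_to h3]
  have h4 : ∀ q ∈ Finset.range B ×ˢ Finset.range B,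
      ∑ u ∈ A.filter (fun u => (u.1, u.2.1) = q), (1 / 2 : ℝ) ^ rl b c u ≤
      (K * (1 / 2) ^ c) * ((1 / 2) ^ q.1 * (1 / 2) ^ (q.2 / b)) := by
    intro q _
    obtain ⟨S, hS⟩ : ∃ S, S = A.filter fun u => (u.1, u.2.1) = q := ⟨_, rfl⟩
    rw [← hS]
    have hSm : ∀ u ∈ S, RP b F u ∧ u.1 = q.1 ∧ u.2.1 = q.2 := by
      intro u hu
      rw [hS, Finset.mem_filter] at hu
      exact ⟨hA u hu.1, congrArg Prod.fst hu.2, congrArg Prod.snd hu.2⟩
    have h5 : ∀ u ∈ S, (1 / 2 : ℝ) ^ rl b c u = (1 / 2 : ℝ) ^ (G b q.2 + q.2 / b + c) := by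
      intro u hu
      unfold rl
      rw [(hSm u hu).2.2]
    rw [Finset.sum_congr rfl h5, Finset.sum_const, nsmul_eq_mul]
    have h6 : S.card = (S.image fun u => (u.2.2.1, u.2.2.2.1)).card := by
      rw [Finset.card_image_of_injOn]
      intro u hu u' hu' h
      obtain ⟨hR, e1, e2⟩ := hSm u hu
      obtain ⟨hR', e1', e2'⟩ := hSm u' hu'
      have h' : (u.2.2.1, u.2.2.2.1) = (u'.2.2.1, u'.2.2.2.1) := h
      have e3 : u.2.2.1 = u'.2.2.1 := (Prod.mk.inj h').1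
      have e4 : u.2.2.2.1 = u'.2.2.2.1 := (Prod.mk.inj h').2
      have h1 := hR.2
      have h2 := hR'.2
      rw [e1, e2, e3, e4] at h1
      rw [e1', e2'] at h2
      have e5 := En.unique h1 h2
      exact Prod.ext (e1.trans e1'.symm) (Prod.ext (e2.trans e2'.symm) (Prod.ext e3
        (Prod.ext e4 e5)))
    have h7 := hcount q.1 q.2 (S.image fun u => (u.2.2.1, u.2.2.2.1)) (by
      intro p hp
      rw [Finset.mem_image] at hp
      obtain ⟨u, hu, rfl⟩ := hp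
      obtain ⟨⟨⟨r1, r2⟩, r3⟩, e1, e2⟩ := hSm u hu
      rw [e1, e2] at r3
      rw [e2] at r1 r2
      exact ⟨r1, r2, _, r3⟩)
    rw [← h6] at h7
    have h9 : (S.card : ℝ) * (1 / 2) ^ (G b q.2) ≤ K * (1 / 2) ^ (6 * q.1) := by
      rw [one_div_pow, one_div_pow, mul_one_div, mul_one_div, div_le_div_iff₀ (by positivity)
        (by positivity)]
      exact h7
    have h10 : (1 / 2 : ℝ) ^ (6 * q.1) ≤ (1 / 2) ^ q.1 :=
      pow_le_pow_of_le_one (by norm_num) (by norm_num) (by omega)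
    calc (S.card : ℝ) * (1 / 2) ^ (G b q.2 + q.2 / b + c) =
        (S.card * (1 / 2) ^ (G b q.2)) * ((1 / 2) ^ (q.2 / b) * (1 / 2) ^ c) := by
          rw [pow_add, pow_add]; ring
      _ ≤ (K * (1 / 2) ^ (6 * q.1)) * ((1 / 2) ^ (q.2 / b) * (1 / 2) ^ c) := by gcongr
      _ ≤ (K * (1 / 2) ^ q.1) * ((1 / 2) ^ (q.2 / b) * (1 / 2) ^ c) := by gcongr
      _ = _ := by ring
  refine (Finset.sum_le_sum h4).trans ?_
  rw [← Finset.mul_sum, Finset.sum_product]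
  simp only [← Finset.mul_sum]
  rw [← Finset.sum_mul]
  have h5 : ∑ i ∈ Finset.range B, (1 / 2 : ℝ) ^ i ≤ 2 := by
    rw [geom_sum_eq (by norm_num)]
    have : (0 : ℝ) < (1 / 2) ^ B := by positivity
    have e : ((1 / 2 : ℝ) ^ B - 1) / (1 / 2 - 1) = 2 - 2 * (1 / 2) ^ B := by ring
    rw [e]
    linarith
  have h6 := sum_half_div hb B
  have h7 : (0 : ℝ) ≤ ∑ i ∈ Finset.range B, (1 / 2 : ℝ) ^ (i / b) :=
    Finset.sum_nonneg fun _ _ => by positivity
  calc (K * (1 / 2 : ℝ) ^ c) * ((∑ i ∈ Finset.range B, (1 / 2 : ℝ) ^ i) *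
        ∑ i ∈ Finset.range B, (1 / 2 : ℝ) ^ (i / b)) ≤ (K * (1 / 2 : ℝ) ^ c) * (2 * (2 * b)) := by
        gcongr
    _ = ((4 * b * K : ℕ) : ℝ) / 2 ^ c := by
        rw [one_div_pow]; push_cast; ring
    _ ≤ 1 := by
        rw [div_le_one (by positivity)]
        exact_mod_cast hc

theorem primrec_RP (hP : PrimStm) {F : ℕ → ℕ → ℕ → ℕ → ℕ}
    (hF : Primrec fun z : ℕ × ℕ × ℕ × ℕ => F z.1 z.2.1 z.2.2.1 z.2.2.2) (b : ℕ) :
    PrimrecPred (RP b F) := by
  have f2 : Primrec fun y : Rq => y.2.1 := Primrec.fst.comp Primrec.snd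
  have f3 : Primrec fun y : Rq => y.2.2.1 := Primrec.fst.comp (Primrec.snd.comp Primrec.snd)
  have f4 : Primrec fun y : Rq => y.2.2.2.1 :=
    Primrec.fst.comp (Primrec.snd.comp (Primrec.snd.comp Primrec.snd))
  have h2 : Primrec fun y : Rq => 2 ^ y.2.1 := primrec_two_pow.comp f2
  exact PrimrecPred.and (PrimrecPred.and (Primrec.nat_lt.comp f3 h2)
    (Primrec.nat_lt.comp f4 h2)) (primrec_En hP hF b)

theorem primrec_rl (b c : ℕ) : Primrec (rl b c) := by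
  have f2 : Primrec fun y : Rq => y.2.1 := Primrec.fst.comp Primrec.snd
  exact Primrec.nat_add.comp (Primrec.nat_add.comp ((primrec_G b).comp f2)
    (Primrec.nat_div.comp f2 (Primrec.const b))) (Primrec.const c)

/-- the description of a request -/
def rd (p₁ p₂ : ℤ) (y : Rq) : List Bool := sq p₁ p₂ y.2.1 y.2.2.1 y.2.2.2.1

theorem primrec_rd (p₁ p₂ : ℤ) : Primrec (rd p₁ p₂) := by
  have f2 : Primrec fun y : Rq => y.2.1 := Primrec.fst.comp Primrec.snd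
  have f3 : Primrec fun y : Rq => y.2.2.1 := Primrec.fst.comp (Primrec.snd.comp Primrec.snd)
  have f4 : Primrec fun y : Rq => y.2.2.2.1 :=
    Primrec.fst.comp (Primrec.snd.comp (Primrec.snd.comp Primrec.snd))
  have h := (primrec_sq p₁ p₂).comp (f2.pair (f3.pair f4))
  exact h

/-- an enumeration of a decidable set of requests satisfying Kraft's inequality gives short
descriptions -/
theorem machine {ι : Type} [Denumerable ι] {U : List Bool →. List Bool}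
    (hU : OptimalPrefixFree U) {P : ι → Prop} (hP : PrimrecPred P) {r : ι → ℕ} (hr : Primrec r)
    {d : ι → List Bool} (hd : Primrec d)
    (hk : ∀ A : Finset ι, (∀ y ∈ A, P y) → ∑ y ∈ A, (1 / 2 : ℝ) ^ r y ≤ 1) :
    ∃ c : ℕ, ∀ y, P y → cx U (d y) ≤ r y + c := by
  classical
  obtain ⟨req, hreqd⟩ : ∃ req : ℕ → Option (ℕ × List Bool), req = fun n =>
    if P (Denumerable.ofNat ι n) then some (r (Denumerable.ofNat ι n), d (Denumerable.ofNat ι n))
    else none := ⟨_, rfl⟩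
  have hreq : Primrec req := by
    rw [hreqd]
    have htup : Primrec (Denumerable.ofNat ι) := Primrec.ofNat _
    exact Primrec.ite (PrimrecPred.comp hP htup) (Primrec.option_some.comp
      ((hr.comp htup).pair (hd.comp htup))) (Primrec.const none)
  obtain ⟨M, hM, hpf, hM2⟩ := KC.kraft_chaitin hreq fun N => by
    have hwr : ∀ n, KC.wr req n =
        if P (Denumerable.ofNat ι n) then (1 / 2 : ℝ) ^ r (Denumerable.ofNat ι n) else 0 := by
      intro n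
      unfold KC.wr
      rw [hreqd]
      by_cases h : P (Denumerable.ofNat ι n)
      · simp only [h, if_true, Option.elim]
      · simp only [h, if_false, Option.elim]
    rw [Finset.sum_congr rfl fun n _ => hwr n, ← Finset.sum_filter]
    have h1 := hk (((Finset.range N).filter fun n => P (Denumerable.ofNat ι n)).image
      (Denumerable.ofNat ι)) (by
        intro y hy
        rw [Finset.mem_image] at hy
        obtain ⟨n, hn, rfl⟩ := hy
        exact (Finset.mem_filter.1 hn).2)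
    rw [Finset.sum_image] at h1
    · exact h1
    · intro n _ n' _ h
      have := congrArg Encodable.encode h
      rwa [Denumerable.encode_ofNat, Denumerable.encode_ofNat] at this
  obtain ⟨c, hc⟩ := hU.2 M ⟨hM, hpf⟩
  refine ⟨c, fun y hy => ?_⟩
  have h3 : req (Encodable.encode y) = some (r y, d y) := by
    rw [hreqd]
    simp only [Denumerable.ofNat_encode, hy, if_true]
  obtain ⟨τ, hτ, hy2⟩ := hM2 _ _ _ h3
  obtain ⟨q, hq, hx⟩ := hc τ _ hy2
  have := cx_le hx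
  omega

/-- The enumerated squares have short descriptions. -/
theorem K_bound {U : List Bool →. List Bool} (hU : OptimalPrefixFree U) (hP : PrimStm)
    {b K : ℕ} (hb : 1 ≤ b) (p₁ p₂ : ℤ) {F : ℕ → ℕ → ℕ → ℕ → ℕ}
    (hF : Primrec fun z : ℕ × ℕ × ℕ × ℕ => F z.1 z.2.1 z.2.2.1 z.2.2.2)
    (hcount : ∀ m J (T : Finset (ℕ × ℕ)), (∀ p ∈ T, p.1 < 2 ^ J ∧ p.2 < 2 ^ J ∧
      ∃ l, En b (F m) l J p.1 p.2) → (T.card : ℝ) * 2 ^ (6 * m) ≤ K * 2 ^ (G b J)) :
    ∃ c : ℕ, ∀ m l J i j, i < 2 ^ J → j < 2 ^ J → En b (F m) l J i j →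
      cx U (sq p₁ p₂ J i j) ≤ G b J + J / b + c := by
  obtain ⟨c, hc⟩ : ∃ c : ℕ, 4 * b * K ≤ 2 ^ c := ⟨4 * b * K, Nat.lt_two_pow_self.le⟩
  obtain ⟨c', hc'⟩ := machine hU (primrec_RP hP hF b) (primrec_rl b c) (primrec_rd p₁ p₂)
    (kraft hb hc hcount)
  refine ⟨c + c', fun m l J i j hi hj h => ?_⟩
  have h1 := hc' (m, J, i, j, l) ⟨⟨hi, hj⟩, h⟩
  refine h1.trans (le_of_eq ?_)
  unfold rl
  exact Nat.add_assoc _ _ _

end Q217.PR
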