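import Pool.Agent.Helper227.Univ
import Pool.Agent.Q217.KT.Defs

/-!
# Projections of points of dimension greater than one: statements of the steps
-/

set_option autoImplicit false

namespace Q217.PR

open Pool.Agent.Helper227

/-- the binary digits of the fractional part of a real number -/
noncomputable def bin (t : ℝ) : ℕ → Bool :=
  fun i => decide (⌊Int.fract t * 2 ^ (i + 1)⌋₊ % 2 = 1)

/-- the string of the `l` binary digits of `k` -/
def bs (l k : ℕ) : List Bool := (List.range l).map fun i => decide (k / 2 ^ (l - 1 - i) % 2 = 1)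

/-- `a` approximates the projections of the points of the unit square with corner `(p₁, p₂)`:
`a l k i j / 2 ^ l - R` is the inner product of the direction number `k / 2 ^ l` and of the point
`(p₁ + i / 2 ^ l, p₂ + j / 2 ^ l)`, up to an error `C / 2 ^ l`, also for all neighbours. -/
def IsApprox (p₁ p₂ : ℤ) (a : ℕ → ℕ → ℕ → ℕ → ℕ) (C R : ℕ) : Prop :=
  ∀ l k i j : ℕ, k < 2 ^ l → i < 2 ^ l → j < 2 ^ l → ∀ θ y₁ y₂ : ℝ,
    (k : ℝ) / 2 ^ l ≤ θ → θ ≤ ((k : ℝ) + 1) / 2 ^ l →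
    (i : ℝ) / 2 ^ l ≤ y₁ → y₁ ≤ ((i : ℝ) + 1) / 2 ^ l →
    (j : ℝ) / 2 ^ l ≤ y₂ → y₂ ≤ ((j : ℝ) + 1) / 2 ^ l →
    |Real.cos (2 * Real.pi * θ) * (p₁ + y₁) + Real.sin (2 * Real.pi * θ) * (p₂ + y₂) + R -
      (a l k i j : ℝ) / 2 ^ l| ≤ (C : ℝ) / 2 ^ l

/-- JOB 1: the projections can be computed approximately. -/
def ApproxStm : Prop := ∀ p₁ p₂ : ℤ, ∃ (a : ℕ → ℕ → ℕ → ℕ → ℕ) (C R : ℕ),
  (Primrec fun z : ℕ × ℕ × ℕ × ℕ => a z.1 z.2.1 z.2.2.1 z.2.2.2) ∧ IsApprox p₁ p₂ a C R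

/-- JOB 2: few directions are nearly orthogonal to a given integer vector. -/
def KernelStm : Prop := ∀ B : ℕ, ∃ C : ℕ, ∀ N : ℕ, 1 ≤ N → ∀ u w : ℤ, |u| ≤ N → |w| ≤ N →
  ((Finset.range N).filter fun k : ℕ =>
      |Real.cos (2 * Real.pi * (k / N)) * u + Real.sin (2 * Real.pi * (k / N)) * w| ≤ B).card *
    (1 + max u.natAbs w.natAbs) ≤ C * N

/-- The truncated masses in the quadtree of depth `l`: `cc g F d i j` belongs to the square `(i, j)`
of side `2 ^ d` (in units of the smallest squares), `g d` is the bound of the mass of such a square,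
and `F i j` the mass of the smallest squares. -/
def cc (g : ℕ → ℕ) (F : ℕ → ℕ → ℕ) : ℕ → ℕ → ℕ → ℕ
  | 0, i, j => F i j
  | d + 1, i, j => min (g (d + 1)) (cc g F d (2 * i) (2 * j) + cc g F d (2 * i) (2 * j + 1) +
      cc g F d (2 * i + 1) (2 * j) + cc g F d (2 * i + 1) (2 * j + 1))

/-- JOB 3: `cc` is primitive recursive, uniformly in parameters. -/
def PrimStm : Prop := ∀ (g : ℕ → ℕ → ℕ) (F : ℕ → ℕ → ℕ → ℕ), Primrec₂ g →
  (Primrec fun z : ℕ × ℕ × ℕ => F z.1 z.2.1 z.2.2) →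
  Primrec fun z : ℕ × ℕ × ℕ × ℕ => cc (g z.1) (F z.1) z.2.1 z.2.2.1 z.2.2.2

end Q217.PR
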