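import Pool.Agent.Q217.PR.Stm

/-! Binary strings of numbers. -/

set_option autoImplicit false

namespace Q217.PR

open Pool.Agent.Helper227

@[simp] theorem length_bs (l k : ℕ) : (bs l k).length = l := by simp [bs]

theorem bs_succ (l k : ℕ) : bs (l + 1) k = bs l (k / 2) ++ [decide (k % 2 = 1)] := by
  unfold bs
  rw [List.range_succ, List.map_append]
  congr 1
  · apply List.map_congr_left
    intro i hi
    rw [List.mem_range] at hi
    have e : l + 1 - 1 - i = (l - 1 - i) + 1 := by omega
    rw [e, pow_succ', ← Nat.div_div_eq_div_mul]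
  · simp

/-- the number with the given binary digits -/
def val (τ : List Bool) : ℕ := τ.foldl (fun v b => 2 * v + b.toNat) 0

theorem val_snoc (τ : List Bool) (b : Bool) : val (τ ++ [b]) = 2 * val τ + b.toNat := by
  simp [val, List.foldl_append]

theorem val_bs (l k : ℕ) : val (bs l k) = k % 2 ^ l := by
  induction l generalizing k with
  | zero => simp [bs, val, Nat.mod_one]
  | succ l ih =>
    rw [bs_succ, val_snoc, ih, pow_succ', Nat.mod_mul]
    have h : (decide (k % 2 = 1)).toNat = k % 2 := by
      rcases Nat.mod_two_eq_zero_or_one k with h | h <;> simp [h]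
    rw [h]; ring

theorem val_lt (τ : List Bool) : val τ < 2 ^ τ.length := by
  induction τ using List.reverseRecOn with
  | nil => simp [val]
  | append_singleton τ b ih =>
    rw [val_snoc, List.length_append, List.length_singleton, pow_succ]
    have : b.toNat ≤ 1 := Bool.toNat_le b
    omega

theorem bs_val (τ : List Bool) : bs τ.length (val τ) = τ := by
  induction τ using List.reverseRecOn with
  | nil => simp [bs]
  | append_singleton τ b ih =>
    rw [val_snoc, List.length_append, List.length_singleton, bs_succ]
    have h1 : (2 * val τ + b.toNat) / 2 = val τ := by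
      have : b.toNat ≤ 1 := Bool.toNat_le b
      omega
    rw [h1, ih]
    congr 1
    cases b <;> simp

theorem take_bs {l t : ℕ} (h : t ≤ l) (k : ℕ) : (bs l k).take t = bs t (k / 2 ^ (l - t)) := by
  induction l, h using Nat.le_induction generalizing k with
  | base =>
    simp [List.take_of_length_le]
  | succ l hl ih =>
    rw [bs_succ, List.take_append_of_le_length (by simp; omega), ih, Nat.div_div_eq_div_mul]
    congr 2
    rw [← pow_succ']
    congr 1
    omega

theorem bs_mod (l k : ℕ) : bs l (k % 2 ^ l) = bs l k := by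
  have h := bs_val (bs l k)
  rw [length_bs, val_bs] at h
  exact h

theorem val_take {τ : List Bool} {t : ℕ} (h : t ≤ τ.length) :
    val (τ.take t) = val τ / 2 ^ (τ.length - t) := by
  have h1 : τ.take t = bs t (val τ / 2 ^ (τ.length - t)) := by
    rw [← take_bs h, bs_val]
  rw [h1, val_bs, Nat.mod_eq_of_lt]
  rw [Nat.div_lt_iff_lt_mul (by positivity), ← pow_add]
  have e : t + (τ.length - t) = τ.length := by omega
  rw [e]
  exact val_lt τ

theorem pre_bin (t : ℝ) (l : ℕ) : pre (bin t) l = bs l ⌊Int.fract t * 2 ^ l⌋₊ := by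
  unfold pre bs bin
  apply List.map_congr_left
  intro i hi
  rw [List.mem_range] at hi
  have e : ⌊Int.fract t * 2 ^ l⌋₊ / 2 ^ (l - 1 - i) = ⌊Int.fract t * 2 ^ (i + 1)⌋₊ := by
    rw [← Nat.floor_div_natCast]
    congr 1
    have e2 : (2 : ℝ) ^ l = 2 ^ (i + 1) * 2 ^ (l - 1 - i) := by
      rw [← pow_add]; congr 1; omega
    rw [e2]
    push_cast
    field_simp
  rw [e]

theorem primrec_val : Primrec val := by
  unfold val
  refine Primrec.list_foldl (f := fun τ : List Bool => τ) (g := fun _ => 0)
    (h := fun _ p => 2 * p.1 + p.2.toNat) Primrec.id (Primrec.const 0) ?_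
  exact Primrec.nat_add.comp (Primrec.nat_mul.comp (Primrec.const 2)
    (Primrec.fst.comp Primrec.snd)) ((Primrec.dom_bool Bool.toNat).comp
      (Primrec.snd.comp Primrec.snd))

theorem primrec_two_pow : Primrec fun n : ℕ => 2 ^ n :=
  primrec_pow.comp (Primrec.const 2) Primrec.id

theorem primrec_bs : Primrec₂ bs := by
  unfold bs
  refine Primrec.list_map (Primrec.list_range.comp Primrec.fst) ?_
  have h : PrimrecPred fun z : (ℕ × ℕ) × ℕ => z.1.2 / 2 ^ (z.1.1 - 1 - z.2) % 2 = 1 := by
    refine Primrec.eq.comp (Primrec.nat_mod.comp (Primrec.nat_div.comp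
      (Primrec.snd.comp Primrec.fst) (primrec_two_pow.comp (Primrec.nat_sub.comp
        (Primrec.nat_sub.comp (Primrec.fst.comp Primrec.fst) (Primrec.const 1)) Primrec.snd)))
        (Primrec.const 2)) (Primrec.const 1)
  exact h.decide

theorem primrec_card_filter {α : Type*} [Primcodable α] {p : α → ℕ → Prop} {f : α → ℕ}
    [∀ a, DecidablePred (p a)] (hp : PrimrecRel p) (hf : Primrec f) :
    Primrec fun a => ((Finset.range (f a)).filter (p a)).card := by
  have h1 : PrimrecRel (fun (k : ℕ) (a : α) => p a k) := hp.comp Primrec.snd Primrec.fst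
  classical
  have h2 := (h1.listFilter.comp (Primrec.list_range.comp hf) Primrec.id)
  refine (Primrec.list_length.comp h2).of_eq fun a => ?_
  have h3 : ((Finset.range (f a)).filter (p a)).card =
      ((List.range (f a)).filter (fun k => decide (p a k))).length := rfl
  rw [h3]
  congr 1

end Q217.PR
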